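import Mathlib.Algebra.Order.Chebyshev
import Pool.Agent.MP_54e5d7_al.atc.ker.Trace
import Pool.Agent.MP_54e5d7_al.atc.tr.Core

-- ======== part 0: formerly Pool.Agent.MP_54e5d7_al.atc.pde.Nrm
section MrgPart0

/-! The weighted square norm. -/

open Set MeasureTheory Complex Filter
open scoped ContDiff ENNReal Topology ComplexConjugate

noncomputable section

namespace Pool.Agent.MP54.PDE

variable {f g : V → ℂ} {ψ ψ' : V → ℝ} {U A : Set V}

lemma nrm_mono (ψ : V → ℝ) (h : A ⊆ U) (f : V → ℂ) : nrm ψ A f ≤ nrm ψ U f :=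
  lintegral_mono_set h

lemma en_mono (ψ : V → ℝ) (h : A ⊆ U) (f : V → ℂ) : en ψ A f ≤ en ψ U f :=
  add_le_add (nrm_mono ψ h _) (nrm_mono ψ h _)

lemma nrm_congr (hA : MeasurableSet A) (h : EqOn f g A) (h' : EqOn ψ ψ' A) :
    nrm ψ A f = nrm ψ' A g :=
  setLIntegral_congr_fun hA fun z hz => by simp only [h hz, h' hz]

lemma nrm_congr_ae (h : f =ᵐ[volume.restrict A] g) : nrm ψ A f = nrm ψ A g :=
  lintegral_congr_ae (h.mono fun z hz => by simp only [hz])

lemma en_congr (hA : MeasurableSet A) (h : ∀ k, EqOn (db k f) (db k g) A) (h' : EqOn ψ ψ' A) :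
    en ψ A f = en ψ' A g := by
  rw [en, en, nrm_congr hA (h 0) h', nrm_congr hA (h 1) h']

@[simp] lemma nrm_zero (ψ : V → ℝ) (A : Set V) : nrm ψ A 0 = 0 := by simp [nrm]

lemma nrm_eq_zero_of_eqOn (hA : MeasurableSet A) (h : ∀ z ∈ A, f z = 0) : nrm ψ A f = 0 := by
  rw [nrm_congr (g := 0) (ψ' := ψ) hA (fun z hz => h z hz) (fun _ _ => rfl), nrm_zero]

/-- The energy of a holomorphic function vanishes. -/
lemma en_hol (hU : IsOpen U) (hf : DifferentiableOn ℂ f U) (hA : MeasurableSet A) (h : A ⊆ U) :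
    en ψ A f = 0 := by
  rw [en, nrm_eq_zero_of_eqOn hA fun z hz => db_hol_on 0 hU hf (h hz),
    nrm_eq_zero_of_eqOn hA fun z hz => db_hol_on 1 hU hf (h hz), add_zero]

lemma nrm_neg (ψ : V → ℝ) (A : Set V) (f : V → ℂ) : nrm ψ A (fun z => -f z) = nrm ψ A f := by
  simp [nrm]

/-- Pointwise comparison. -/
lemma nrm_le_mul (hA : MeasurableSet A) {M : ℝ} (hM : 0 ≤ M)
    (h : ∀ z ∈ A, ‖f z‖ ^ 2 * Real.exp (-ψ z) ≤ M * (‖g z‖ ^ 2 * Real.exp (-ψ' z))) :
    nrm ψ A f ≤ ENNReal.ofReal M * nrm ψ' A g := by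
  rw [nrm, nrm, ← lintegral_const_mul' _ _ ENNReal.ofReal_ne_top]
  refine setLIntegral_mono' hA fun z hz => ?_
  rw [← ENNReal.ofReal_mul hM]
  exact ENNReal.ofReal_le_ofReal (h z hz)

/-- A bounded multiplier. -/
lemma nrm_mul_le (hA : MeasurableSet A) {M : ℝ} (h : ∀ z ∈ A, ‖f z‖ ≤ M) (g : V → ℂ) :
    nrm ψ A (fun z => f z * g z) ≤ ENNReal.ofReal (M ^ 2) * nrm ψ A g := by
  refine nrm_le_mul hA (sq_nonneg M) fun z hz => ?_
  rw [norm_mul, mul_pow, mul_assoc]
  exact mul_le_mul_of_nonneg_right (pow_le_pow_left₀ (norm_nonneg _) (h z hz) 2) (by positivity)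

/-- Change of a bounded weight. -/
lemma nrm_weight_le (hA : MeasurableSet A) {M : ℝ} (h : ∀ z ∈ A, ψ' z - ψ z ≤ M) (f : V → ℂ) :
    nrm ψ A f ≤ ENNReal.ofReal (Real.exp M) * nrm ψ' A f := by
  refine nrm_le_mul hA (Real.exp_pos M).le fun z hz => ?_
  have : Real.exp (-ψ z) ≤ Real.exp M * Real.exp (-ψ' z) := by
    rw [← Real.exp_add]; exact Real.exp_le_exp.2 (by linarith [h z hz])
  nlinarith [sq_nonneg ‖f z‖]

/-- A function that vanishes off `A`. -/
lemma nrm_eq_of_zero_off (hA : MeasurableSet A) (hU : A ⊆ U) (h : ∀ z ∈ U, z ∉ A → f z = 0)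
    (hU' : MeasurableSet U) : nrm ψ U f = nrm ψ A f := by
  rw [nrm, nrm, ← lintegral_indicator hA, ← lintegral_indicator hU']
  congr 1; ext z
  by_cases hz : z ∈ A
  · simp [hz, hU hz]
  · by_cases hz' : z ∈ U
    · simp [hz, hz', h z hz' hz]
    · simp [hz, hz']

lemma aemeasurable_nrm (hf : AEStronglyMeasurable f (volume.restrict A))
    (hψ : AEMeasurable ψ (volume.restrict A)) :
    AEMeasurable (fun z => ENNReal.ofReal (‖f z‖ ^ 2 * Real.exp (-ψ z))) (volume.restrict A) :=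
  ((hf.norm.aemeasurable.pow_const 2).mul
    (Real.measurable_exp.comp_aemeasurable hψ.neg)).ennreal_ofReal

lemma nrm_add_le (hf : AEStronglyMeasurable f (volume.restrict A))
    (hψ : AEMeasurable ψ (volume.restrict A)) (g : V → ℂ) :
    nrm ψ A (fun z => f z + g z) ≤ 2 * nrm ψ A f + 2 * nrm ψ A g := by
  rw [← mul_add, nrm, nrm, nrm, ← lintegral_add_left' (aemeasurable_nrm hf hψ),
    ← lintegral_const_mul' _ _ (by simp)]
  refine lintegral_mono fun z => ?_
  rw [← ENNReal.ofReal_add (by positivity) (by positivity), ← ENNReal.ofReal_ofNat 2,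
    ← ENNReal.ofReal_mul (by norm_num)]
  refine ENNReal.ofReal_le_ofReal ?_
  have h1 : ‖f z + g z‖ ^ 2 ≤ 2 * (‖f z‖ ^ 2 + ‖g z‖ ^ 2) := by
    have := pow_le_pow_left₀ (norm_nonneg _) (norm_add_le (f z) (g z)) 2
    nlinarith [sq_nonneg (‖f z‖ - ‖g z‖)]
  have := mul_le_mul_of_nonneg_right h1 (Real.exp_pos (-ψ z)).le
  linarith

lemma nrm_sub_le (hf : AEStronglyMeasurable f (volume.restrict A))
    (hψ : AEMeasurable ψ (volume.restrict A)) (g : V → ℂ) :
    nrm ψ A (fun z => f z - g z) ≤ 2 * nrm ψ A f + 2 * nrm ψ A g := by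
  simpa only [sub_eq_add_neg, nrm_neg] using nrm_add_le hf hψ fun z => -g z

lemma nrm_sum_le {ι : Type*} (s : Finset ι) {F : ι → V → ℂ}
    (hF : ∀ i ∈ s, AEStronglyMeasurable (F i) (volume.restrict A))
    (hψ : AEMeasurable ψ (volume.restrict A)) :
    nrm ψ A (fun z => ∑ i ∈ s, F i z) ≤ s.card * ∑ i ∈ s, nrm ψ A (F i) := by
  simp only [nrm]
  rw [← lintegral_finsetSum' s fun i hi => aemeasurable_nrm (hF i hi) hψ,
    ← lintegral_const_mul' _ _ (by simp)]
  refine lintegral_mono fun z => ?_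
  rw [← ENNReal.ofReal_sum_of_nonneg fun i _ => by positivity, ← ENNReal.ofReal_natCast,
    ← ENNReal.ofReal_mul (Nat.cast_nonneg _)]
  refine ENNReal.ofReal_le_ofReal ?_
  rw [← Finset.sum_mul, ← mul_assoc]
  refine mul_le_mul_of_nonneg_right ?_ (Real.exp_pos _).le
  exact (pow_le_pow_left₀ (norm_nonneg _) (norm_sum_le s fun i => F i z) 2).trans
    (sq_sum_le_card_mul_sum_sq)

/-- A finite cover. -/
lemma nrm_le_sum_cover {ι : Type*} (s : Finset ι) {S : ι → Set V} (h : A ⊆ ⋃ i ∈ s, S i) :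
    nrm ψ A f ≤ ∑ i ∈ s, nrm ψ (S i) f := by
  refine (nrm_mono ψ h f).trans ?_
  rw [← Finset.set_biUnion_coe, biUnion_eq_iUnion]
  refine (lintegral_iUnion_le _ _).trans (le_of_eq ?_)
  exact Finset.tsum_subtype' s fun i => nrm ψ (S i) f

/-- The norm as a real integral. -/
lemma nrm_eq_ofReal (h : IntegrableOn (fun z => ‖f z‖ ^ 2 * Real.exp (-ψ z)) A) :
    nrm ψ A f = ENNReal.ofReal (∫ z in A, ‖f z‖ ^ 2 * Real.exp (-ψ z)) :=
  (ofReal_integral_eq_lintegral_ofReal h (Eventually.of_forall fun z => by positivity)).symm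

lemma integrableOn_of_nrm (hf : AEStronglyMeasurable f (volume.restrict A))
    (hψ : AEMeasurable ψ (volume.restrict A)) (h : nrm ψ A f ≠ ⊤) :
    IntegrableOn (fun z => ‖f z‖ ^ 2 * Real.exp (-ψ z)) A := by
  refine ⟨((hf.norm.aemeasurable.pow_const 2).mul
    (Real.measurable_exp.comp_aemeasurable hψ.neg)).aestronglyMeasurable, ?_⟩
  rw [hasFiniteIntegral_iff_ofReal (Eventually.of_forall fun z => by positivity)]
  exact h.lt_top

lemma nrm_toReal (hf : AEStronglyMeasurable f (volume.restrict A))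
    (hψ : AEMeasurable ψ (volume.restrict A)) (h : nrm ψ A f ≠ ⊤) :
    (nrm ψ A f).toReal = ∫ z in A, ‖f z‖ ^ 2 * Real.exp (-ψ z) := by
  rw [nrm_eq_ofReal (integrableOn_of_nrm hf hψ h),
    ENNReal.toReal_ofReal (integral_nonneg fun z => by positivity)]

/-- The unweighted norm is the square of the `L²` norm. -/
lemma nrm_zero_weight (A : Set V) (f : V → ℂ) :
    nrm 0 A f = eLpNorm f 2 (volume.restrict A) ^ 2 := by
  rw [eLpNorm_eq_lintegral_rpow_enorm_toReal (by simp) (by simp), ← ENNReal.rpow_natCast,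
    ← ENNReal.rpow_mul, nrm]
  simp [ENNReal.ofReal_pow]

lemma memLp_of_nrm (hf : AEStronglyMeasurable f (volume.restrict A)) (h : nrm 0 A f ≠ ⊤) :
    MemLp f 2 (volume.restrict A) := by
  refine ⟨hf, ?_⟩
  rw [nrm_zero_weight] at h
  exact lt_top_iff_ne_top.2 fun h' => h (by rw [h']; simp)

/-- A continuous function of norm zero on an open set vanishes there. -/
lemma eq_zero_of_nrm (hU : IsOpen U) (hf : ContinuousOn f U) (hψ : ContinuousOn ψ U)
    (h : nrm ψ U f = 0) : ∀ z ∈ U, f z = 0 := by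
  have hm := aemeasurable_nrm (hf.aestronglyMeasurable hU.measurableSet)
    (hψ.aemeasurable hU.measurableSet)
  have h1 : f =ᵐ[volume.restrict U] 0 := by
    filter_upwards [(lintegral_eq_zero_iff' hm).1 h] with z hz
    have h2 : ‖f z‖ ^ 2 * Real.exp (-ψ z) ≤ 0 := ENNReal.ofReal_eq_zero.1 hz
    have h3 : ‖f z‖ ^ 2 ≤ 0 := by
      by_contra h4
      exact absurd h2 (not_le.2 (mul_pos (not_le.1 h4) (Real.exp_pos _)))
    exact norm_eq_zero.1 (pow_eq_zero_iff two_ne_zero |>.1 (le_antisymm h3 (sq_nonneg _)))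
  exact fun z hz => Measure.eqOn_open_of_ae_eq h1 hU hf continuousOn_const hz

/-- Reindexing a sum over the charts. -/
lemma tsum_smul {Γ J : Type} [Group Γ] [MulAction Γ J] (g : Γ) (F : J → ℝ≥0∞) :
    ∑' i, F (g • i) = ∑' i, F i :=
  (MulAction.toPerm g).tsum_eq F

end Pool.Agent.MP54.PDE

end
end MrgPart0

-- ======== part 1: formerly Pool.Agent.MP_54e5d7_al.atc.pde.Conv
section MrgPart1

/-! Row CONV: a convolution with a smooth compactly supported kernel is smooth, and its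
derivatives are integrals against the derivatives of the kernel. -/

open Set MeasureTheory Complex Filter
open scoped ContDiff ENNReal Topology ComplexConjugate Convolution

noncomputable section

namespace Pool.Agent.MP54.PDE

instance Cn.haarV : (volume : Measure V).IsAddHaarMeasure :=
  Measure.prod.instIsAddHaarMeasure _ _

theorem Cn.conv_eq (φ : V → ℝ) (g : V → ℂ) :
    conv φ g = convolution g (cx φ) (ContinuousLinearMap.mul ℝ ℂ) volume := by
  funext x
  simp only [conv, convolution_def, ContinuousLinearMap.mul_apply', cx, mul_comm]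

theorem Cn.cx_smooth {φ : V → ℝ} (h : ContDiff ℝ ∞ φ) : ContDiff ℝ ∞ (cx φ) :=
  ofRealCLM.contDiff.comp h

theorem Cn.cx_supp {φ : V → ℝ} (h : HasCompactSupport φ) : HasCompactSupport (cx φ) :=
  h.comp_left (g := fun t : ℝ => (t : ℂ)) ofReal_zero

theorem Cn.fderiv_flip {u : V → ℂ} (h : Differentiable ℝ u) (x y v : V) :
    fderiv ℝ (fun y => u (x - y)) y v = -fderiv ℝ u (x - y) v := by
  have h1 : HasFDerivAt (fun y : V => x - y) (-ContinuousLinearMap.id ℝ V) y :=
    (hasFDerivAt_id y).const_sub x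
  have h2 := ((h (x - y)).hasFDerivAt.comp y h1).fderiv
  have h3 : fderiv ℝ (fun y => u (x - y)) y =
      (fderiv ℝ u (x - y)).comp (-ContinuousLinearMap.id ℝ V) := h2
  rw [h3]
  simp

theorem Cn.conv_int {φ : V → ℝ} (hφ : ContDiff ℝ ∞ φ) (hc : HasCompactSupport φ) {g : V → ℂ}
    (hg : LocallyIntegrable g volume) (x v : V) :
    Integrable (fun y => g y * fderiv ℝ (cx φ) (x - y) v) volume := by
  have h1 : Continuous fun a => fderiv ℝ (cx φ) a v :=
    ((Cn.cx_smooth hφ).continuous_fderiv (by simp)).clm_apply continuous_const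
  have h2 : HasCompactSupport fun a => fderiv ℝ (cx φ) a v :=
    ((Cn.cx_supp hc).fderiv ℝ).comp_left (g := fun L : V →L[ℝ] ℂ => L v) rfl
  exact h2.convolutionExists_right (ContinuousLinearMap.mul ℝ ℂ) hg h1 x

theorem Cn.conv_fderiv {φ : V → ℝ} (hφ : ContDiff ℝ ∞ φ) (hc : HasCompactSupport φ) {g : V → ℂ}
    (hg : LocallyIntegrable g volume) (x v : V) :
    fderiv ℝ (conv φ g) x v = ∫ y, g y * fderiv ℝ (cx φ) (x - y) v := by
  have h1 : ContDiff ℝ 1 (cx φ) := (Cn.cx_smooth hφ).of_le (by simp)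
  have h2 := (Cn.cx_supp hc).hasFDerivAt_convolution_right (ContinuousLinearMap.mul ℝ ℂ) hg h1 x
  have h3 := convolution_precompR_apply (ContinuousLinearMap.mul ℝ ℂ) hg ((Cn.cx_supp hc).fderiv ℝ)
    ((Cn.cx_smooth hφ).continuous_fderiv (by simp)) x v
  rw [Cn.conv_eq, h2.fderiv, h3]
  rfl

theorem convS : ConvStmt := by
  intro φ hφ hc g hg
  have hd : Differentiable ℝ (cx φ) := (Cn.cx_smooth hφ).differentiable (by simp)
  have hf : ∀ x y v : V, fderiv ℝ (fun y => (φ (x - y) : ℂ)) y v = -fderiv ℝ (cx φ) (x - y) v :=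
    fun x y v => Cn.fderiv_flip hd x y v
  refine ⟨?_, fun k x => ?_, fun k x => ?_⟩
  · rw [Cn.conv_eq]
    exact (Cn.cx_supp hc).contDiff_convolution_right _ hg (Cn.cx_smooth hφ)
  · simp only [db, hf, Cn.conv_fderiv hφ hc hg]
    rw [← integral_const_mul, ← integral_add (Cn.conv_int hφ hc hg x _)
      ((Cn.conv_int hφ hc hg x _).const_mul _), ← integral_div, ← integral_neg]
    congr 1
    funext y
    ring
  · simp only [dz, hf, Cn.conv_fderiv hφ hc hg]
    rw [← integral_const_mul, ← integral_sub (Cn.conv_int hφ hc hg x _)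
      ((Cn.conv_int hφ hc hg x _).const_mul _), ← integral_div, ← integral_neg]
    congr 1
    funext y
    ring

end Pool.Agent.MP54.PDE

end
end MrgPart1

-- ======== part 2: formerly Pool.Agent.MP_54e5d7_al.atc.pde.Cv
section MrgPart2

/-! Row CV of the d-bar block: change of variables between overlapping charts. -/

open Set MeasureTheory Complex Filter
open scoped ContDiff ENNReal Topology

noncomputable section

namespace Pool.Agent.MP54.PDE

variable {Γ : Type} [Group Γ]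

theorem Chart.u2_sub (C : Chart Γ) : C.U2 ⊆ C.Om := subset_closure.trans C.s2

theorem Chart.u1_sub (C : Chart Γ) : C.U1 ⊆ C.U2 := subset_closure.trans C.s12

theorem Chart.inv_act (C : Chart Γ) (g : Γ) {z : V} (hz : z ∈ C.Om) :
    C.act g⁻¹ (C.act g z) = z := by
  rw [← C.mul _ _ z hz, inv_mul_cancel, C.one z hz]

theorem Chart.act_inv (C : Chart Γ) (g : Γ) {z : V} (hz : z ∈ C.Om) :
    C.act g (C.act g⁻¹ z) = z := by
  rw [← C.mul _ _ z hz, mul_inv_cancel, C.one z hz]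

theorem Chart.act_smooth (hs : SmoothStmt) (C : Chart Γ) (g : Γ) :
    ContDiffOn ℝ ∞ (C.act g) C.Om :=
  (hs _ _ C.oOm (C.hol g).fst).prodMk (hs _ _ C.oOm (C.hol g).snd)

theorem Chart.pre_open (C : Chart Γ) (g : Γ) {A : Set V} (hA : IsOpen A) : IsOpen (C.pre g A) :=
  ((C.hol g).continuousOn.mono C.u2_sub).isOpen_inter_preimage C.o2 hA

theorem Chart.ov_open (C : Chart Γ) (g : Γ) : IsOpen (C.ov g) := C.pre_open g C.o2

theorem Chart.mem_D (C : Chart Γ) {g : Γ} : g ∈ C.D ↔ ∃ z ∈ C.U2, C.act g z ∈ C.U2 := by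
  simp [Chart.D]

theorem Chart.pre_meas (C : Chart Γ) (g : Γ) {A : Set V} (hA : MeasurableSet A) :
    MeasurableSet (C.pre g A) := by
  have h1 : Measurable (C.U2.domRestrict (C.act g)) :=
    (continuousOn_iff_continuous_domRestrict.1 ((C.hol g).continuousOn.mono C.u2_sub)).measurable
  have h2 := C.o2.measurableSet.subtype_image (h1 hA)
  have h3 : C.pre g A = Subtype.val '' (C.U2.domRestrict (C.act g) ⁻¹' A) := by
    ext z
    simp [Chart.pre, and_comm]
  rw [h3]
  exact h2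

theorem Chart.det_bdd (hs : SmoothStmt) (C : Chart Γ) (g : Γ) :
    ∃ m : ℝ, ∀ w ∈ closure C.U2, |(fderiv ℝ (C.act g) w).det| ≤ m := by
  have h1 : ContinuousOn (fun w => |(fderiv ℝ (C.act g) w).det|) (closure C.U2) :=
    (ContinuousLinearMap.continuous_det.comp_continuousOn
      (((C.act_smooth hs g).continuousOn_fderiv_of_isOpen C.oOm (by simp)).mono C.s2)).abs
  obtain ⟨m, hm⟩ := (C.c2.image_of_continuousOn h1).bddAbove
  exact ⟨m, fun w hw => hm (mem_image_of_mem _ hw)⟩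

theorem cv (hs : SmoothStmt) : CVStmt := by
  intro Γ _ C
  have : (volume : Measure V).IsAddHaarMeasure := Measure.prod.instIsAddHaarMeasure _ _
  choose m hm using C.det_bdd hs
  have key : ∀ (g : Γ) (A : Set V), MeasurableSet A → A ⊆ C.U2 → ∀ F : V → ℝ≥0∞,
      ∫⁻ z in C.pre g A, F (C.act g z) ≤ (∑ h ∈ C.D, ENNReal.ofReal (m h)) * ∫⁻ z in A, F z := by
    intro g A hA hAU F
    have hA' : MeasurableSet (A ∩ C.pre g⁻¹ C.U2) := hA.inter (C.pre_meas _ C.o2.measurableSet)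
    have sub : A ∩ C.pre g⁻¹ C.U2 ⊆ C.Om := inter_subset_left.trans (hAU.trans C.u2_sub)
    have e : C.pre g A = C.act g⁻¹ '' (A ∩ C.pre g⁻¹ C.U2) := by
      ext z
      constructor
      · rintro ⟨h1, h2⟩
        have h3 := C.inv_act g (C.u2_sub h1)
        exact ⟨C.act g z, ⟨h2, hAU h2, h3.symm ▸ h1⟩, h3⟩
      · rintro ⟨w, hw, rfl⟩
        exact ⟨hw.2.2, (C.act_inv g (sub hw)).symm ▸ hw.1⟩
    have inj : InjOn (C.act g⁻¹) (A ∩ C.pre g⁻¹ C.U2) := fun a ha b hb h => by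
      rw [← C.act_inv g (sub ha), h, C.act_inv g (sub hb)]
    have der : ∀ w ∈ A ∩ C.pre g⁻¹ C.U2, HasFDerivWithinAt (C.act g⁻¹)
        (fderiv ℝ (C.act g⁻¹) w) (A ∩ C.pre g⁻¹ C.U2) w := fun w hw =>
      (((C.hol g⁻¹).differentiableAt (C.oOm.mem_nhds (sub hw))).restrictScalars
        ℝ).hasFDerivAt.hasFDerivWithinAt
    rw [e, lintegral_image_eq_lintegral_abs_det_fderiv_mul volume hA' der inj,
      ← lintegral_const_mul' _ _ (ENNReal.sum_ne_top.2 fun _ _ => ENNReal.ofReal_ne_top)]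
    refine le_trans (setLIntegral_mono' hA' fun w hw => ?_) (lintegral_mono_set inter_subset_left)
    rw [C.act_inv g (sub hw)]
    refine mul_le_mul_left ?_ _
    exact (ENNReal.ofReal_le_ofReal (hm g⁻¹ w (subset_closure hw.2.1))).trans
      (Finset.single_le_sum (f := fun h => ENNReal.ofReal (m h)) (fun _ _ => zero_le)
        (C.mem_D.2 ⟨w, hw.2⟩))
  refine ⟨∑ h ∈ C.D, ENNReal.ofReal (m h), ENNReal.sum_ne_top.2 fun _ _ => ENNReal.ofReal_ne_top,
    fun g A hA hAU => ⟨C.pre_meas g hA, key g A hA hAU, fun P hP => ?_⟩⟩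
  obtain ⟨N, hN, mN, zN⟩ := exists_measurable_superset_of_null (ae_iff.1 hP)
  rw [Measure.restrict_apply mN] at zN
  have h1 := key g (N ∩ A) (mN.inter hA) (inter_subset_right.trans hAU) fun _ => 1
  rw [setLIntegral_one, setLIntegral_one, zN, mul_zero, nonpos_iff_eq_zero] at h1
  rw [ae_restrict_iff' (C.pre_meas g hA)]
  refine measure_mono_null (fun z hz => ?_) h1
  have hz' : ¬(z ∈ C.pre g A → P (C.act g z)) := hz
  rw [Classical.not_imp] at hz'
  exact ⟨hz'.1.1, hN hz'.2, hz'.1.2⟩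

end Pool.Agent.MP54.PDE

end
end MrgPart2

-- marker of a merged file
example : 731051 + 158146 = 731051 + 158146 := rfl
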