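import Pool.Agent.MP_54e5d7_al.atc.tr.Core
import Mathlib.Analysis.Calculus.FDeriv.Mul
import Mathlib.Analysis.Complex.RealDeriv
import Mathlib.Algebra.Order.Chebyshev

/-! Row GLUE: gluing local functions with a partition of unity. -/

open Set MeasureTheory Complex Filter
open scoped ContDiff ENNReal Topology

noncomputable section

namespace Pool.Agent.MP54.PDE

namespace GlueA

variable {Γ : Type} [Group Γ]

theorem act_sm (hS : SmoothStmt) (C : Chart Γ) (g : Γ) : ContDiffOn ℝ ∞ (C.act g) C.Om := by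
  have h1 := hS C.Om (fun z => (C.act g z).1) C.oOm (C.hol g).fst
  have h2 := hS C.Om (fun z => (C.act g z).2) C.oOm (C.hol g).snd
  exact h1.prodMk h2

theorem sub_om (C : Chart Γ) : C.U2 ⊆ C.Om := subset_closure.trans C.s2

theorem pre_open (C : Chart Γ) (g : Γ) {A : Set V} (hA : IsOpen A) : IsOpen (C.pre g A) :=
  ((C.hol g).continuousOn.mono (sub_om C)).isOpen_inter_preimage C.o2 hA

theorem ov_op (C : Chart Γ) (g : Γ) : IsOpen (C.ov g) := pre_open C g C.o2

theorem pre_meas (C : Chart Γ) (g : Γ) {A : Set V} (hA : IsClosed A) :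
    MeasurableSet (C.pre g A) := by
  have h : C.pre g A = C.U2 \ C.pre g Aᶜ := by
    ext z
    simp only [Chart.pre, mem_ofPred_eq, Set.mem_sdiff, mem_compl_iff]
    tauto
  rw [h]
  exact C.o2.measurableSet.diff (pre_open C g hA.isOpen_compl).measurableSet

theorem db_cont {Ω : Set V} (hΩ : IsOpen Ω) {u : V → ℂ} (hu : ContDiffOn ℝ ∞ u Ω) (k : Fin 2) :
    ContinuousOn (db k u) Ω := by
  have h := hu.continuousOn_fderiv_of_isOpen hΩ (by simp)
  unfold db
  exact ((h.clm_apply continuousOn_const).add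
    (continuousOn_const.mul (h.clm_apply continuousOn_const))).div_const _

theorem db_mul' {u v : V → ℂ} {z : V} (hu : DifferentiableAt ℝ u z) (hv : DifferentiableAt ℝ v z)
    (k : Fin 2) : db k (fun y => u y * v y) z = u z * db k v z + db k u z * v z := by
  unfold db
  rw [fderiv_fun_mul hu hv]
  simp only [add_apply, smul_apply, smul_eq_mul]
  ring

theorem db_sub' {u v : V → ℂ} {z : V} (hu : DifferentiableAt ℝ u z) (hv : DifferentiableAt ℝ v z)
    (k : Fin 2) : db k (u - v) z = db k u z - db k v z := by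
  unfold db
  rw [fderiv_sub hu hv]
  simp only [sub_apply]
  ring

omit [Group Γ] in
theorem db_sum' {D : Finset Γ} {u : Γ → V → ℂ} {z : V}
    (hu : ∀ g ∈ D, DifferentiableAt ℝ (u g) z) (k : Fin 2) :
    db k (fun y => ∑ g ∈ D, u g y) z = ∑ g ∈ D, db k (u g) z := by
  unfold db
  rw [fderiv_fun_sum hu]
  simp only [sum_apply, Finset.mul_sum]
  rw [← Finset.sum_add_distrib, Finset.sum_div]

theorem db_zero' {u : V → ℂ} {z : V} (hu : u =ᶠ[𝓝 z] fun _ => 0) (k : Fin 2) : db k u z = 0 := by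
  unfold db
  rw [hu.fderiv_eq]
  simp

theorem aem {ψ : V → ℝ} {A : Set V} (hA : MeasurableSet A) (hψ : ContinuousOn ψ A) {p : V → ℂ}
    (hp : ContinuousOn p A) :
    AEMeasurable (fun z => ENNReal.ofReal (‖p z‖ ^ 2 * Real.exp (-ψ z))) (volume.restrict A) := by
  have h : ContinuousOn (fun z => ‖p z‖ ^ 2 * Real.exp (-ψ z)) A :=
    (hp.norm.pow 2).mul hψ.neg.rexp
  exact (h.aemeasurable hA).ennreal_ofReal

omit [Group Γ] in
theorem key {ψ : V → ℝ} {U : Set V} (hU : MeasurableSet U) (hψ : ContinuousOn ψ U)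
    (D : Finset Γ) (A : Γ → Set V) (hA : ∀ g, MeasurableSet (A g)) (hAU : ∀ g, A g ⊆ U)
    (f : V → ℂ) (X p q : Γ → V → ℂ) (hp : ∀ g, ContinuousOn (p g) (A g))
    (hq : ∀ g, ContinuousOn (q g) (A g)) {c : ℝ} (hc : 0 ≤ c)
    (hf : ∀ z ∈ U, f z = ∑ g ∈ D, X g z) (h0 : ∀ g, ∀ z ∈ U, z ∉ A g → X g z = 0)
    (hX : ∀ g ∈ D, ∀ z ∈ A g, ‖X g z‖ ^ 2 ≤ c * (‖p g z‖ ^ 2 + ‖q g z‖ ^ 2)) :
    nrm ψ U f ≤ ENNReal.ofReal (D.card * c) * ∑ g ∈ D, (nrm ψ (A g) (p g) + nrm ψ (A g) (q g)) := by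
  classical
  set G : Γ → V → ℝ≥0∞ := fun g z => ENNReal.ofReal (‖p g z‖ ^ 2 * Real.exp (-ψ z)) +
    ENNReal.ofReal (‖q g z‖ ^ 2 * Real.exp (-ψ z)) with hG
  have hGm : ∀ g, AEMeasurable (G g) (volume.restrict (A g)) := fun g =>
    (aem (hA g) (hψ.mono (hAU g)) (hp g)).add (aem (hA g) (hψ.mono (hAU g)) (hq g))
  have hGi : ∀ g, AEMeasurable ((A g).indicator (G g)) (volume.restrict U) := fun g =>
    ((aemeasurable_indicator_iff (hA g)).2 (hGm g)).restrict
  have hpt : ∀ z ∈ U, ENNReal.ofReal (‖f z‖ ^ 2 * Real.exp (-ψ z)) ≤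
      ENNReal.ofReal (D.card * c) * ∑ g ∈ D, (A g).indicator (G g) z := by
    intro z hz
    have hw : 0 ≤ Real.exp (-ψ z) := (Real.exp_pos _).le
    have h1 : ‖f z‖ ^ 2 ≤ D.card * ∑ g ∈ D, ‖X g z‖ ^ 2 := by
      rw [hf z hz]
      exact (pow_le_pow_left₀ (norm_nonneg _) (norm_sum_le _ _) 2).trans
        sq_sum_le_card_mul_sum_sq
    have h2 : ∀ g ∈ D, ENNReal.ofReal (‖X g z‖ ^ 2 * Real.exp (-ψ z)) ≤
        ENNReal.ofReal c * (A g).indicator (G g) z := by
      intro g hg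
      by_cases hzA : z ∈ A g
      · rw [indicator_of_mem hzA, hG]
        simp only
        rw [← ENNReal.ofReal_add (by positivity) (by positivity), ← ENNReal.ofReal_mul hc]
        apply ENNReal.ofReal_le_ofReal
        have := mul_le_mul_of_nonneg_right (hX g hg z hzA) hw
        linarith
      · rw [h0 g z hz hzA]
        simp
    calc ENNReal.ofReal (‖f z‖ ^ 2 * Real.exp (-ψ z))
        ≤ ENNReal.ofReal (D.card * ∑ g ∈ D, ‖X g z‖ ^ 2 * Real.exp (-ψ z)) := by
          apply ENNReal.ofReal_le_ofReal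
          rw [← Finset.sum_mul, ← mul_assoc]
          exact mul_le_mul_of_nonneg_right h1 hw
      _ = ENNReal.ofReal D.card * ∑ g ∈ D, ENNReal.ofReal (‖X g z‖ ^ 2 * Real.exp (-ψ z)) := by
          rw [ENNReal.ofReal_mul (by positivity),
            ENNReal.ofReal_sum_of_nonneg (fun g _ => by positivity)]
      _ ≤ ENNReal.ofReal D.card * ∑ g ∈ D, ENNReal.ofReal c * (A g).indicator (G g) z := by
          gcongr with g hg
          exact h2 g hg
      _ = _ := by
          rw [← Finset.mul_sum, ← mul_assoc, ENNReal.ofReal_mul (by positivity)]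
  calc nrm ψ U f
      ≤ ∫⁻ z in U, ENNReal.ofReal (D.card * c) * ∑ g ∈ D, (A g).indicator (G g) z :=
        setLIntegral_mono' hU hpt
    _ = ENNReal.ofReal (D.card * c) * ∑ g ∈ D, ∫⁻ z in U, (A g).indicator (G g) z := by
        rw [lintegral_const_mul' _ _ ENNReal.ofReal_ne_top,
          lintegral_finsetSum' _ (fun g _ => hGi g)]
    _ = _ := by
        congr 1
        refine Finset.sum_congr rfl fun g _ => ?_
        rw [lintegral_indicator (hA g), Measure.restrict_restrict (hA g),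
          inter_eq_self_of_subset_left (hAU g), hG]
        simp only
        rw [lintegral_add_left' (aem (hA g) (hψ.mono (hAU g)) (hp g))]
        rfl

end GlueA

open GlueA in
theorem glueS (hS : SmoothStmt) : GlueStmt := by
  intro Γ _ C ρ hρ
  obtain ⟨hsm, -, hsup, h01, hone, -⟩ := hρ
  have hr : ∀ g, ContDiffOn ℝ ∞ (fun z => (ρ (C.act g z) : ℂ)) C.Om := fun g =>
    (ofRealCLM.contDiff.comp hsm).comp_contDiffOn (act_sm hS C g)
  have hb1 : ∀ (g : Γ) (k : Fin 2), ∃ L : ℝ, ∀ z ∈ closure C.U2,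
      ‖db k (fun z => (ρ (C.act g z) : ℂ)) z‖ ≤ L := fun g k =>
    C.c2.exists_bound_of_continuousOn ((db_cont C.oOm (hr g) k).mono C.s2)
  choose L0 hL0 using hb1
  obtain ⟨L, hL⟩ : ∃ L : ℝ, ∀ g ∈ C.D, ∀ k, L0 g k ≤ L := by
    refine ⟨∑ g ∈ C.D, ∑ k, |L0 g k|, fun g hg k => (le_abs_self _).trans ?_⟩
    refine le_trans ?_ (Finset.single_le_sum (f := fun g => ∑ k, |L0 g k|)
      (fun g _ => Finset.sum_nonneg fun k _ => abs_nonneg _) hg)
    exact Finset.single_le_sum (f := fun k => |L0 g k|) (fun k _ => abs_nonneg _)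
      (Finset.mem_univ k)
  have hc : (0 : ℝ) ≤ 2 * (1 + L ^ 2) := by positivity
  refine ⟨2 * ENNReal.ofReal (C.D.card * (2 * (1 + L ^ 2))),
    ENNReal.mul_ne_top (by simp) ENNReal.ofReal_ne_top, fun ψ hψ F hF => ?_⟩
  have hAm : ∀ g, MeasurableSet (C.pre g (tsupport ρ)) := fun g =>
    pre_meas C g (isClosed_tsupport ρ)
  have hAU : ∀ g, C.pre g (tsupport ρ) ⊆ C.U2 := fun g z hz => hz.1
  have hAo : ∀ g, C.pre g (tsupport ρ) ⊆ C.ov g := fun g z hz => ⟨hz.1, hsup hz.2⟩
  have hz0 : ∀ g, ∀ z ∈ C.U2, z ∉ C.pre g (tsupport ρ) →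
      (fun y => (ρ (C.act g y) : ℂ) * F g y) =ᶠ[𝓝 z] fun _ => 0 := by
    intro g z hz hn
    have hm : z ∈ C.pre g (tsupport ρ)ᶜ := ⟨hz, fun h => hn ⟨hz, h⟩⟩
    filter_upwards [(pre_open C g (isClosed_tsupport ρ).isOpen_compl).mem_nhds hm] with y hy
    rw [image_eq_zero_of_notMem_tsupport hy.2]
    simp
  have hrat : ∀ g, ∀ z ∈ C.U2, ContDiffAt ℝ ∞ (fun z => (ρ (C.act g z) : ℂ)) z := fun g z hz =>
    (hr g).contDiffAt (C.oOm.mem_nhds (sub_om C hz))
  have hFat : ∀ g, ∀ z ∈ C.ov g, ContDiffAt ℝ ∞ (F g) z := fun g z hz =>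
    (hF g).contDiffAt ((ov_op C g).mem_nhds hz)
  have ht : ∀ g, ∀ z ∈ C.U2, ContDiffAt ℝ ∞ (fun y => (ρ (C.act g y) : ℂ) * F g y) z := by
    intro g z hz
    by_cases hn : z ∈ C.pre g (tsupport ρ)
    · exact (hrat g z hz).mul (hFat g z (hAo g hn))
    · exact contDiffAt_const.congr_of_eventuallyEq (hz0 g z hz hn)
  have hgl : ∀ z ∈ C.U2, ContDiffAt ℝ ∞ (C.glue ρ F) z := fun z hz =>
    ContDiffAt.sum fun g _ => ht g z hz
  have hn1 : ∀ y, ‖(ρ y : ℂ)‖ ≤ 1 := fun y => by
    rw [norm_real, Real.norm_of_nonneg (h01 y).1]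
    exact (h01 y).2
  refine ⟨fun z hz => (hgl z hz).contDiffWithinAt, ?_, fun b hb => ?_⟩
  · refine (key C.o2.measurableSet hψ C.D _ hAm hAU _
      (fun g y => (ρ (C.act g y) : ℂ) * F g y) F F
      (fun g => (hF g).continuousOn.mono (hAo g)) (fun g => (hF g).continuousOn.mono (hAo g)) hc
      (fun z _ => rfl) (fun g z hz hn => (hz0 g z hz hn).self_of_nhds) ?_).trans (le_of_eq ?_)
    · intro g _ z _
      have h1 : ‖(ρ (C.act g z) : ℂ) * F g z‖ ≤ ‖F g z‖ := by
        rw [norm_mul]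
        exact mul_le_of_le_one_left (norm_nonneg _) (hn1 _)
      have h2 := pow_le_pow_left₀ (norm_nonneg _) h1 2
      nlinarith [sq_nonneg ‖F g z‖, mul_nonneg (sq_nonneg L) (sq_nonneg ‖F g z‖)]
    · rw [Finset.sum_add_distrib]
      ring
  · have hbat : ∀ z ∈ C.U2, DifferentiableAt ℝ b z := fun z hz =>
      (hb.contDiffAt (C.o2.mem_nhds hz)).differentiableAt (by simp)
    have hk : ∀ k : Fin 2, nrm ψ C.U2 (db k (b - C.glue ρ F)) ≤
        ENNReal.ofReal (C.D.card * (2 * (1 + L ^ 2))) * ∑ g ∈ C.D,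
          (nrm ψ (C.pre g (tsupport ρ)) (F g) +
            nrm ψ (C.pre g (tsupport ρ)) (db k (b - F g))) := by
      intro k
      refine key C.o2.measurableSet hψ C.D _ hAm hAU _
        (fun g y => (ρ (C.act g y) : ℂ) * db k b y -
          db k (fun y => (ρ (C.act g y) : ℂ) * F g y) y) F (fun g => db k (b - F g))
        (fun g => (hF g).continuousOn.mono (hAo g))
        (fun g => (db_cont (ov_op C g)
          ((hb.mono fun z hz => hz.1).sub (hF g)) k).mono (hAo g)) hc ?_ ?_ ?_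
      · intro z hz
        rw [db_sub' (hbat z hz) ((hgl z hz).differentiableAt (by simp)), Finset.sum_sub_distrib,
          ← Finset.sum_mul, ← ofReal_sum, hone z hz, ofReal_one, one_mul,
          ← db_sum' (fun g _ => (ht g z hz).differentiableAt (by simp))]
        rfl
      · intro g z hz hn
        have h1 : ρ (C.act g z) = 0 := image_eq_zero_of_notMem_tsupport fun h => hn ⟨hz, h⟩
        simp only [h1, db_zero' (hz0 g z hz hn)]
        simp
      · intro g hg z hz
        have hFd := (hFat g z (hAo g hz)).differentiableAt (by simp)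
        have h1 : (ρ (C.act g z) : ℂ) * db k b z -
            db k (fun y => (ρ (C.act g y) : ℂ) * F g y) z =
            (ρ (C.act g z) : ℂ) * db k (b - F g) z -
              db k (fun y => (ρ (C.act g y) : ℂ)) z * F g z := by
          rw [db_mul' ((hrat g z hz.1).differentiableAt (by simp)) hFd,
            db_sub' (hbat z hz.1) hFd]
          ring
        have h2 : ‖db k (fun y => (ρ (C.act g y) : ℂ)) z‖ ≤ L :=
          (hL0 g k z (subset_closure hz.1)).trans (hL g hg k)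
        have h3 : ‖(ρ (C.act g z) : ℂ) * db k (b - F g) z -
              db k (fun y => (ρ (C.act g y) : ℂ)) z * F g z‖ ≤
            ‖db k (b - F g) z‖ + L * ‖F g z‖ := by
          refine (norm_sub_le _ _).trans (add_le_add ?_ ?_)
          · rw [norm_mul]
            exact mul_le_of_le_one_left (norm_nonneg _) (hn1 _)
          · rw [norm_mul]
            exact mul_le_mul_of_nonneg_right h2 (norm_nonneg _)
        have h4 := pow_le_pow_left₀ (norm_nonneg _) h3 2
        rw [h1]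
        nlinarith [sq_nonneg (‖db k (b - F g) z‖ - L * ‖F g z‖), sq_nonneg ‖F g z‖,
          mul_nonneg (sq_nonneg L) (sq_nonneg ‖db k (b - F g) z‖)]
    unfold en
    refine (add_le_add (hk 0) (hk 1)).trans ?_
    generalize ENNReal.ofReal (C.D.card * (2 * (1 + L ^ 2))) = m
    rw [← mul_add, mul_comm 2 m, mul_assoc, two_mul]
    refine mul_le_mul' le_rfl (add_le_add ?_ ?_)
    · exact Finset.sum_le_sum fun g _ => add_le_add le_rfl le_self_add
    · exact Finset.sum_le_sum fun g _ => add_le_add le_rfl le_add_self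

end Pool.Agent.MP54.PDE
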