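import Pool.Agent.MP_54e5d7_al.atc.tr.Core
import Mathlib.Geometry.Manifold.PartitionOfUnity
import Mathlib.MeasureTheory.Measure.OpenPos

/-! Row H0: a negative bundle has no square integrable holomorphic section. -/

open Set MeasureTheory Complex Filter
open scoped ContDiff ENNReal Topology Manifold

noncomputable section

namespace Pool.Agent.MP54.PDE

namespace H0P

theorem cutoff {K U : Set V} (hK : IsCompact K) (hU : IsOpen U) (h : K ⊆ U) :
    ∃ r : V → ℂ, Test U r ∧ ∀ z ∈ K, r z = 1 := by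
  obtain ⟨L, hL, h1, h2⟩ := exists_compact_between hK hU h
  obtain ⟨f, f0, f1, -⟩ := exists_contMDiffMap_zero_one_of_isClosed (n := ⊤) 𝓘(ℝ, V)
    (isOpen_interior (s := L)).isClosed_compl hK.isClosed
    (disjoint_compl_left_iff_subset.2 h1)
  have hs : tsupport (fun z => (f z : ℂ)) ⊆ L := by
    refine closure_minimal (fun z hz => interior_subset (by_contra fun hn => hz ?_)) hL.isClosed
    simpa using f0 hn
  refine ⟨fun z => (f z : ℂ), ⟨ofRealCLM.contDiff.comp f.contMDiff.contDiff,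
    hL.of_isClosed_subset (isClosed_tsupport _) hs, hs.trans h2⟩, fun z hz => ?_⟩
  simpa using f1 hz

theorem test_mul {U : Set V} (hU : IsOpen U) {r h : V → ℂ} (hr : Test U r)
    (hh : ContDiffOn ℝ ∞ h U) : Test U fun z => r z * h z := by
  have hs : tsupport (fun z => r z * h z) ⊆ tsupport r := tsupport_mul_subset_left
  refine ⟨contDiff_iff_contDiffAt.2 fun z => ?_, hr.2.1.mul_right, hs.trans hr.2.2⟩
  by_cases hz : z ∈ U
  · exact hr.1.contDiffAt.mul (hh.contDiffAt (hU.mem_nhds hz))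
  · exact contDiffAt_const.congr_of_eventuallyEq
      (notMem_tsupport_iff_eventuallyEq.1 fun h => hz (hr.2.2 (hs h)))

theorem db_mul_hol {r h : V → ℂ} {z : V} (hr : DifferentiableAt ℝ r z)
    (hh : DifferentiableAt ℂ h z) (k : Fin 2) :
    db k (fun z => r z * h z) z = db k r z * h z := by
  have h1 := hh.hasFDerivAt.restrictScalars ℝ
  have h2 := (hr.hasFDerivAt.fun_mul h1).fderiv
  simp only [db, h2, add_apply, smul_apply,
    ContinuousLinearMap.coe_restrictScalars', map_smul, smul_eq_mul]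
  linear_combination (r z * fderiv ℂ h z (e k) / 2) * I_mul_I

theorem db_bound {U : Set V} {r : V → ℂ} (hr : Test U r) :
    ∃ c : ℝ, ∀ k z, ‖db k r z‖ ^ 2 ≤ c := by
  have h1 : Continuous (fderiv ℝ r) := hr.1.continuous_fderiv (by simp)
  have h2 : ∀ k, ∃ c : ℝ, ∀ z, ‖db k r z‖ ≤ c := fun k => by
    refine Continuous.bounded_above_of_compact_support (by unfold db; fun_prop) ?_
    refine (hr.2.1.fderiv ℝ).mono fun z hz h0 => hz ?_
    simp [db, h0]
  obtain ⟨a, ha⟩ := h2 0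
  obtain ⟨b, hb⟩ := h2 1
  refine ⟨a ^ 2 + b ^ 2, Fin.forall_fin_two.2 ⟨fun z => ?_, fun z => ?_⟩⟩
  · nlinarith [pow_le_pow_left₀ (norm_nonneg _) (ha z) 2, sq_nonneg b]
  · nlinarith [pow_le_pow_left₀ (norm_nonneg _) (hb z) 2, sq_nonneg a]

theorem nrm_congr {ψ : V → ℝ} {U : Set V} (hU : IsOpen U) {f g : V → ℂ} (h : EqOn f g U) :
    nrm ψ U f = nrm ψ U g :=
  setLIntegral_congr_fun hU.measurableSet fun z hz => by simp only [h hz]

theorem nrm_db {ψ : V → ℝ} {U : Set V} (hU : IsOpen U) {r h : V → ℂ} (hr : Test U r) {c : ℝ}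
    (hc : ∀ k z, ‖db k r z‖ ^ 2 ≤ c) (hh : DifferentiableOn ℂ h U) (k : Fin 2) :
    nrm ψ U (db k fun z => r z * h z) ≤ ENNReal.ofReal c * nrm ψ U h := by
  have c0 : 0 ≤ c := (sq_nonneg _).trans (hc 0 0)
  rw [nrm, nrm, ← lintegral_const_mul' _ _ ENNReal.ofReal_ne_top]
  refine setLIntegral_mono' hU.measurableSet fun z hz => ?_
  rw [← ENNReal.ofReal_mul c0, db_mul_hol (hr.1.differentiable (by simp) z)
    (hh.differentiableAt (hU.mem_nhds hz)), norm_mul, mul_pow, mul_assoc]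
  exact ENNReal.ofReal_le_ofReal (mul_le_mul_of_nonneg_right (hc k z) (by positivity))

theorem eq_zero {ψ : V → ℝ} {U : Set V} (hU : IsOpen U) {h : V → ℂ} (hψ : ContinuousOn ψ U)
    (hh : ContinuousOn h U) (h0 : nrm ψ U h = 0) : ∀ z ∈ U, h z = 0 := by
  have c : ContinuousOn (fun z => ENNReal.ofReal (‖h z‖ ^ 2 * Real.exp (-ψ z))) U :=
    ENNReal.continuous_ofReal.comp_continuousOn ((hh.norm.pow 2).mul hψ.neg.rexp)
  have a := (lintegral_eq_zero_iff' (c.aemeasurable hU.measurableSet)).1 h0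
  intro z hz
  have b := Measure.eqOn_open_of_ae_eq a hU c continuousOn_const hz
  simp only [Pi.zero_apply, ENNReal.ofReal_eq_zero] at b
  have d : ‖h z‖ ^ 2 ≤ 0 := nonpos_of_mul_nonpos_left b (Real.exp_pos _)
  simpa using le_antisymm d (sq_nonneg _)

variable {Γ : Type} [Group Γ] {C : Chart Γ} {J : Type} [MulAction Γ J]

theorem a_ne (B : Bundle C J) (i : J) (g : Γ) {z : V} (hz : z ∈ C.ov g) : B.a i g z ≠ 0 := by
  intro h
  have := B.inv i g z hz
  rw [h] at this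
  simp at this
  exact (Real.exp_pos _).ne this

theorem sub12 (C : Chart Γ) : C.U1 ⊆ C.U2 := subset_closure.trans C.s12

theorem sub2 (C : Chart Γ) : C.U2 ⊆ C.Om := subset_closure.trans C.s2

theorem pre_open (C : Chart Γ) (g : Γ) : IsOpen (C.pre g C.U1) :=
  ((C.hol g).continuousOn.mono (sub2 C)).isOpen_inter_preimage C.o2 C.o1

theorem nrm_cover (ψ : V → ℝ) (f : V → ℂ) :
    nrm ψ C.U2 f ≤ ∑ g ∈ C.D, nrm ψ (C.pre g C.U1) f := by
  have h : C.U2 ⊆ ⋃ g : C.D, C.pre g C.U1 := fun z hz => by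
    obtain ⟨g, hg⟩ := C.cover z (sub2 C hz)
    exact mem_iUnion.2 ⟨⟨g, C.fin.mem_toFinset.2 ⟨z, hz, sub12 C hg⟩⟩, hz, hg⟩
  refine (lintegral_mono_set h).trans ((lintegral_iUnion_le _ _).trans (le_of_eq ?_))
  exact Finset.tsum_subtype C.D fun g => nrm ψ (C.pre g C.U1) f

end H0P

open H0P in
theorem h0 (hb : Basic0Stmt) (ht : TrStmt) (hs : SmoothStmt) : H0Stmt := by
  intro Γ _ C
  obtain ⟨M, hM, ht⟩ := ht Γ C
  obtain ⟨r, hr, r1⟩ := cutoff C.c1 C.o2 C.s12
  obtain ⟨c, hc⟩ := db_bound hr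
  set A : ℝ≥0∞ := 2 * ENNReal.ofReal c * (C.D.card * M) with hA
  have A0 : A ≠ ⊤ := ENNReal.mul_ne_top (ENNReal.mul_ne_top (by simp) ENNReal.ofReal_ne_top)
    (ENNReal.mul_ne_top (by simp) hM)
  refine ⟨A.toReal + 1, fun J _ B hn h hh hsec hfin => ?_⟩
  set S := ∑' i, nrm B.psi C.U1 (h i) with hS
  have s2 : ∑' i, nrm B.psi C.U2 (h i) ≤ C.D.card * M * S := by
    refine (ENNReal.tsum_le_tsum fun i => nrm_cover B.psi (h i)).trans ?_
    rw [Summable.tsum_finsetSum fun _ _ => ENNReal.summable, mul_assoc, ← nsmul_eq_mul]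
    refine Finset.sum_le_card_nsmul _ _ _ fun g _ => ?_
    rw [hS, ← (MulAction.toPerm g).tsum_eq fun i => nrm B.psi C.U1 (h i), ← ENNReal.tsum_mul_left]
    refine ENNReal.tsum_le_tsum fun i => ?_
    refine le_of_eq_of_le (nrm_congr (pre_open C g) fun z hz => ?_)
      (ht J B i g C.U1 C.o1.measurableSet (sub12 C) (h (g • i))).1
    have z1 : z ∈ C.ov g := ⟨hz.1, sub12 C hz.2⟩
    simp only [hsec i g z z1, mul_div_cancel_left₀ _ (a_ne B i g z1)]
  have s1 : ∀ i, (A + 1) * nrm B.psi C.U1 (h i) ≤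
      2 * ENNReal.ofReal c * nrm B.psi C.U2 (h i) := fun i => by
    have b := hb B.psi _ C.U2 C.o2 B.smooth hn _ (test_mul C.o2 hr (hs _ _ C.o2 (hh i)))
    rw [ENNReal.ofReal_add ENNReal.toReal_nonneg zero_le_one, ENNReal.ofReal_toReal A0,
      ENNReal.ofReal_one] at b
    have d : nrm B.psi C.U1 (h i) ≤ nrm B.psi C.U2 fun z => r z * h i z := by
      rw [nrm_congr C.o1 (g := fun z => r z * h i z) fun z hz => by
        simp only [r1 z (subset_closure hz), one_mul]]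
      exact lintegral_mono_set (sub12 C)
    refine (mul_le_mul_right d _).trans (b.trans ?_)
    rw [mul_assoc, two_mul]
    exact add_le_add (nrm_db C.o2 hr hc (hh i) 0) (nrm_db C.o2 hr hc (hh i) 1)
  have s3 : A * S + S ≤ A * S + 0 := by
    have := ENNReal.tsum_le_tsum s1
    rw [ENNReal.tsum_mul_left, ENNReal.tsum_mul_left, add_mul, one_mul] at this
    refine this.trans ((mul_le_mul_right s2 _).trans (le_of_eq ?_))
    rw [hA, add_zero]; ring
  have s4 : S = 0 := le_zero_iff.1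
    ((ENNReal.add_le_add_iff_left (ENNReal.mul_ne_top A0 hfin.ne)).1 s3)
  intro i z hz
  obtain ⟨g, hg⟩ := C.cover z (sub2 C hz)
  have z1 : z ∈ C.ov g := ⟨hz, sub12 C hg⟩
  have z2 := eq_zero C.o1 (B.smooth.continuousOn.mono (sub12 C))
    ((hh (g • i)).continuousOn.mono (sub12 C)) (ENNReal.tsum_eq_zero.1 s4 _) _ hg
  rw [hsec i g z z1] at z2
  exact (mul_eq_zero.1 z2).resolve_left (a_ne B i g z1)

end Pool.Agent.MP54.PDE
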