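import Pool.Agent.MP_54e5d7_al.atc.tr.Core

/-! Row INIT of the d-bar block: a smooth family with prescribed holomorphic coboundary. -/

open Set MeasureTheory Complex Filter
open scoped ContDiff ENNReal Topology

noncomputable section

namespace Pool.Agent.MP54.PDE

namespace Init

theorem ov_open {Γ : Type} [Group Γ] (C : Chart Γ) (g : Γ) : IsOpen (C.ov g) := by
  have h : ContinuousOn (C.act g) C.U2 :=
    (C.hol g).continuousOn.mono (subset_closure.trans C.s2)
  exact h.isOpen_inter_preimage C.o2 C.o2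

theorem db_hol {f : V → ℂ} {z : V} (hf : DifferentiableAt ℂ f z) (k : Fin 2) : db k f z = 0 := by
  unfold db
  rw [hf.fderiv_restrictScalars ℝ]
  simp only [ContinuousLinearMap.coe_restrictScalars', map_smul, smul_eq_mul]
  rw [← mul_assoc, I_mul_I]
  ring

theorem nrm_set (ψ : V → ℝ) {A A' : Set V} (h : A ⊆ A') (f : V → ℂ) : nrm ψ A f ≤ nrm ψ A' f :=
  lintegral_mono_set h

theorem nrm_neg (ψ : V → ℝ) (A : Set V) (f : V → ℂ) : nrm ψ A (0 - f) = nrm ψ A f := by
  simp [nrm]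

theorem en_hol (ψ : V → ℝ) {A O : Set V} (hO : IsOpen O) (h : A ⊆ O) {f : V → ℂ}
    (hf : DifferentiableOn ℂ f O) : en ψ A f = 0 := by
  have key : ∀ k, nrm ψ A (db k f) = 0 := by
    intro k
    refine le_antisymm ((nrm_set ψ h _).trans (le_of_eq ?_)) (by simp)
    unfold nrm
    rw [setLIntegral_congr_fun hO.measurableSet (g := fun _ => 0)]
    · simp
    · intro z hz
      simp [db_hol (hf.differentiableAt (hO.mem_nhds hz)) k]
  simp [en, key]

theorem a_ne {Γ : Type} [Group Γ] {C : Chart Γ} {J : Type} [MulAction Γ J] (B : Bundle C J)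
    (i : J) (g : Γ) {z : V} (hz : z ∈ C.ov g) : B.a i g z ≠ 0 := by
  intro h
  have h1 := B.inv i g z hz
  rw [h] at h1
  simp only [norm_zero, ne_eq, OfNat.ofNat_ne_zero, not_false_eq_true, zero_pow, mul_zero] at h1
  exact (Real.exp_pos _).ne h1

theorem cob_glue {Γ : Type} [Group Γ] {C : Chart Γ} {J : Type} [MulAction Γ J] (B : Bundle C J)
    {ρ : V → ℝ} (hρ : C.IsPU ρ) {s : J → Γ → V → ℂ} (hs : B.Coc s) (i : J) (δ : Γ) :
    EqOn (B.cob (fun i => 0 - C.glue ρ (s i)) i δ) (s i δ) (C.ov δ) := by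
  intro z hz
  obtain ⟨-, -, hsup, -, hone, hre⟩ := hρ
  have ha := a_ne B i δ hz
  have h1 : C.glue ρ (s (δ • i)) (C.act δ z) =
      B.a i δ z * (C.glue ρ (s i) z - s i δ z) := by
    have h2 : ∀ g ∈ C.D, (ρ (C.act g (C.act δ z)) : ℂ) * s (δ • i) g (C.act δ z) =
        B.a i δ z * ((ρ (C.act g (C.act δ z)) : ℂ) * s i (g * δ) z) -
          B.a i δ z * s i δ z * (ρ (C.act g (C.act δ z)) : ℂ) := by
      intro g _
      by_cases hg : C.act g (C.act δ z) ∈ C.U2
      · have h3 := hs.2 i g δ z hz.1 hz.2 hg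
        linear_combination (-(ρ (C.act g (C.act δ z)) : ℂ)) * h3
      · have h3 : ρ (C.act g (C.act δ z)) = 0 :=
          image_eq_zero_of_notMem_tsupport fun h => hg (hsup h)
        simp [h3]
    have h4 : ∑ g ∈ C.D, (ρ (C.act g (C.act δ z)) : ℂ) = 1 := by
      exact_mod_cast hone _ hz.2
    unfold Chart.glue
    rw [Finset.sum_congr rfl h2, Finset.sum_sub_distrib, ← Finset.mul_sum, ← Finset.mul_sum, h4,
      hre δ (fun g => s i g z) z hz]
    ring
  simp only [Bundle.cob, Pi.sub_apply, Pi.zero_apply, h1]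
  field_simp
  ring

end Init

open Init in
theorem init (hP : PUStmt) (hG : GlueStmt) (hS : SmoothStmt) : InitStmt := by
  intro Γ _ C
  obtain ⟨ρ, hρ⟩ := hP Γ C
  obtain ⟨M, hM, hg⟩ := hG Γ C ρ hρ
  refine ⟨2 * M, ENNReal.mul_ne_top (by simp) hM, fun J _ B s hs => ?_⟩
  have hsub : ∀ g, C.pre g (tsupport ρ) ⊆ C.ov g := fun g z hz => ⟨hz.1, hρ.2.2.1 hz.2⟩
  have H := fun i => hg B.psi B.smooth.continuousOn (s i)
    fun g => hS _ _ (ov_open C g) (hs.1 i g)
  refine ⟨fun i => 0 - C.glue ρ (s i), fun i => contDiffOn_const.sub (H i).1,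
    fun i g => cob_glue B hρ hs i g, ?_⟩
  have h1 : ∀ i, nrm B.psi C.U2 (0 - C.glue ρ (s i)) ≤
      M * ∑ g ∈ C.D, nrm B.psi (C.ov g) (s i g) := by
    intro i
    rw [nrm_neg]
    refine (H i).2.1.trans ?_
    gcongr with g _
    exact nrm_set _ (hsub g) _
  have h2 : ∀ i, en B.psi C.U2 (0 - C.glue ρ (s i)) ≤
      M * ∑ g ∈ C.D, nrm B.psi (C.ov g) (s i g) := by
    intro i
    refine ((H i).2.2 0 contDiffOn_const).trans ?_
    gcongr with g _
    rw [en_hol B.psi (ov_open C g) (hsub g) (f := 0 - s i g)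
      ((differentiableOn_const (0 : ℂ)).sub (hs.1 i g)), add_zero]
    exact nrm_set _ (hsub g) _
  have h3 : ∑' i, M * ∑ g ∈ C.D, nrm B.psi (C.ov g) (s i g) =
      M * ∑ g ∈ C.D, ∑' i, nrm B.psi (C.ov g) (s i g) := by
    rw [ENNReal.tsum_mul_left, Summable.tsum_finsetSum fun _ _ => ENNReal.summable]
  rw [mul_assoc, two_mul, ← h3]
  exact add_le_add (ENNReal.tsum_le_tsum h1) (ENNReal.tsum_le_tsum h2)

end Pool.Agent.MP54.PDE
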