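import Pool.Agent.MP_54e5d7_al.atc.tr.Core
import Mathlib.MeasureTheory.Function.L2Space
import Mathlib.Analysis.InnerProductSpace.PiL2
import Mathlib.Analysis.InnerProductSpace.Projection.Basic
import Mathlib.MeasureTheory.Integral.Bochner.ContinuousLinearMap
import Mathlib.Analysis.Calculus.FDeriv.Const
import Mathlib.Analysis.Calculus.ContDiff.Comp
import Mathlib.Analysis.Calculus.FDeriv.Measurable
import Mathlib.Analysis.Calculus.FDeriv.Mul
import Mathlib.Analysis.Calculus.FDeriv.RestrictScalars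
import Mathlib.MeasureTheory.Function.LpSpace.Complete
import Mathlib.MeasureTheory.Function.LpSpace.Indicator
import Mathlib.Topology.MetricSpace.Thickening
import Mathlib.Analysis.Complex.RealDeriv
import Mathlib.Analysis.Calculus.LineDeriv.IntegrationByParts
import Mathlib.MeasureTheory.Function.LpSpace.ContinuousFunctions
import Mathlib.MeasureTheory.Function.LpSeminorm.CompareExp
import Mathlib.Analysis.Calculus.ContDiff.Basic
import Mathlib.Analysis.Calculus.FDeriv.Symmetric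
import Mathlib.Analysis.SpecialFunctions.ExpDeriv
import Mathlib.Analysis.Calculus.FDeriv.Star
import Mathlib.Geometry.Manifold.PartitionOfUnity

-- ======== part 0: formerly Pool.Agent.MP_54e5d7_al.atc.pde.Proj
section MrgPart0

/-! Row PROJ: regularised least squares in the weighted space. -/

open Set MeasureTheory Complex Filter
open scoped ContDiff ENNReal Topology ComplexConjugate InnerProductSpace

noncomputable section

namespace Pool.Agent.MP54.PDE
namespace Proj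

/-- The weighted measure. -/
def mu (ψ : V → ℝ) (U : Set V) : Measure V :=
  (volume.restrict U).withDensity fun z => ENNReal.ofReal (Real.exp (-ψ z))

variable {ψ : V → ℝ} {U : Set V}

theorem meas_w (hψ : Continuous ψ) : Measurable fun z => ENNReal.ofReal (Real.exp (-ψ z)) :=
  ENNReal.measurable_ofReal.comp (by fun_prop)

theorem nrm_eq (hψ : Continuous ψ) (f : V → ℂ) : nrm ψ U f = ∫⁻ z, ‖f z‖ₑ ^ 2 ∂(mu ψ U) := by
  unfold nrm mu
  rw [lintegral_withDensity_eq_lintegral_mul_non_measurable _ (meas_w hψ)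
    (Eventually.of_forall fun z => ENNReal.ofReal_lt_top)]
  refine lintegral_congr fun z => ?_
  simp only [Pi.mul_apply]
  rw [ENNReal.ofReal_mul (by positivity), mul_comm, ENNReal.ofReal_pow (norm_nonneg _),
    ofReal_norm_eq_enorm]

theorem nrm_congr (hψ : Continuous ψ) {f g : V → ℂ} (h : f =ᵐ[mu ψ U] g) :
    nrm ψ U f = nrm ψ U g := by
  rw [nrm_eq hψ, nrm_eq hψ]
  refine lintegral_congr_ae ?_
  filter_upwards [h] with z hz
  rw [hz]

theorem nrm_eLp (hψ : Continuous ψ) (f : V → ℂ) : nrm ψ U f = eLpNorm f 2 (mu ψ U) ^ 2 := by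
  rw [nrm_eq hψ]
  have := eLpNorm_nnreal_pow_eq_lintegral (f := f) (μ := mu ψ U) (p := 2) (by norm_num)
  simpa using this.symm

theorem nrm_Lp (hψ : Continuous ψ) (F : Lp ℂ 2 (mu ψ U)) :
    nrm ψ U F = ENNReal.ofReal (‖F‖ ^ 2) := by
  rw [nrm_eLp hψ, ← Lp.enorm_def, ENNReal.ofReal_pow (norm_nonneg _), ofReal_norm_eq_enorm]

theorem ac1 : mu ψ U ≪ volume.restrict U := withDensity_absolutelyContinuous _ _

theorem ac2 (hψ : Continuous ψ) : volume.restrict U ≪ mu ψ U :=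
  withDensity_absolutelyContinuous' (meas_w hψ).aemeasurable
    (Eventually.of_forall fun z => by simpa using Real.exp_pos _)

theorem memLp_of (hψ : Continuous ψ) {f : V → ℂ}
    (hf : AEStronglyMeasurable f (volume.restrict U)) (h : nrm ψ U f ≠ ⊤) :
    MemLp f 2 (mu ψ U) := by
  refine ⟨hf.mono_ac ac1, ?_⟩
  rw [nrm_eLp hψ] at h
  by_contra hc
  rw [not_lt, top_le_iff] at hc
  rw [hc] at h
  simp at h

theorem memLp_cc (hψ : Continuous ψ) {f : V → ℂ} (hf : Continuous f) (hc : HasCompactSupport f) :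
    MemLp f 2 (mu ψ U) := by
  refine memLp_of hψ hf.aestronglyMeasurable ?_
  have h1 : Integrable (fun z => ‖f z‖ ^ 2 * Real.exp (-ψ z)) volume := by
    refine Continuous.integrable_of_hasCompactSupport (by fun_prop) ?_
    refine HasCompactSupport.intro hc fun z hz => ?_
    rw [image_eq_zero_of_notMem_tsupport hz]; simp
  exact ((setLIntegral_le_lintegral _ _).trans_lt h1.lintegral_lt_top).ne

theorem int_mu (hψ : Continuous ψ) (f : V → ℂ) :
    ∫ z in U, f z * (Real.exp (-ψ z) : ℂ) = ∫ z, f z ∂(mu ψ U) := by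
  unfold mu
  rw [integral_withDensity_eq_integral_toReal_smul (meas_w hψ)
    (Eventually.of_forall fun z => ENNReal.ofReal_lt_top)]
  refine integral_congr_ae (Eventually.of_forall fun z => ?_)
  simp only
  rw [ENNReal.toReal_ofReal (Real.exp_pos _).le, real_smul, mul_comm]

theorem db_cont {w : V → ℂ} (hw : ContDiff ℝ ∞ w) (k : Fin 2) : Continuous (db k w) := by
  have h : Continuous (fderiv ℝ w) := hw.continuous_fderiv (by simp)
  unfold db
  fun_prop

theorem db_supp {w : V → ℂ} (hw : HasCompactSupport w) (k : Fin 2) :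
    HasCompactSupport (db k w) := by
  refine HasCompactSupport.intro hw fun z hz => ?_
  unfold db
  rw [fderiv_of_notMem_tsupport ℝ hz]; simp

theorem db_add' {v w : V → ℂ} (hv : ContDiff ℝ ∞ v) (hw : ContDiff ℝ ∞ w) (k : Fin 2) :
    db k (v + w) = db k v + db k w := by
  funext z
  have h1 : DifferentiableAt ℝ v z := hv.differentiable (by simp) z
  have h2 : DifferentiableAt ℝ w z := hw.differentiable (by simp) z
  simp only [db, Pi.add_apply, fderiv_add h1 h2, ContinuousLinearMap.add_apply]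
  ring

theorem db_smul' {w : V → ℂ} (hw : ContDiff ℝ ∞ w) (c : ℂ) (k : Fin 2) :
    db k (c • w) = c • db k w := by
  funext z
  have h2 : DifferentiableAt ℝ w z := hw.differentiable (by simp) z
  simp only [db, Pi.smul_apply, fderiv_const_smul h2 c, ContinuousLinearMap.smul_apply,
    smul_eq_mul]
  ring

theorem test_add {v w : V → ℂ} (hv : Test U v) (hw : Test U w) : Test U (v + w) :=
  ⟨hv.1.add hw.1, hv.2.1.add hw.2.1,
    (tsupport_add v w).trans (union_subset hv.2.2 hw.2.2)⟩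

theorem test_smul {w : V → ℂ} (hw : Test U w) (c : ℂ) : Test U (c • w) :=
  ⟨hw.1.const_smul c, hw.2.1.smul_left (f := fun _ => c),
    (tsupport_smul_subset_right (fun _ => c) w).trans hw.2.2⟩

theorem test_zero : Test U (0 : V → ℂ) :=
  ⟨contDiff_const, HasCompactSupport.zero, by simp⟩

/-- The Hilbert space of triples. -/
abbrev E3 (ψ : V → ℝ) (U : Set V) := PiLp 2 fun _ : Fin 3 => Lp ℂ 2 (mu ψ U)

/-- The graph of the operator on test functions. -/
def graph (ψ : V → ℝ) (U : Set V) (s : ℂ) : Submodule ℂ (E3 ψ U) where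
  carrier := {x | ∃ w, Test U w ∧ x 0 =ᵐ[mu ψ U] db 0 w ∧ x 1 =ᵐ[mu ψ U] db 1 w ∧
    x 2 =ᵐ[mu ψ U] s • w}
  zero_mem' := by
    refine ⟨0, test_zero, ?_, ?_, ?_⟩
    · have : db 0 (0 : V → ℂ) = 0 := by funext z; simp [db]
      rw [this]; exact Lp.coeFn_zero _ _ _
    · have : db 1 (0 : V → ℂ) = 0 := by funext z; simp [db]
      rw [this]; exact Lp.coeFn_zero _ _ _
    · rw [smul_zero]; exact Lp.coeFn_zero _ _ _
  add_mem' := by
    rintro x y ⟨v, hv, a0, a1, a2⟩ ⟨w, hw, b0, b1, b2⟩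
    refine ⟨v + w, test_add hv hw, ?_, ?_, ?_⟩
    · rw [db_add' hv.1 hw.1]; exact (Lp.coeFn_add (x 0) (y 0)).trans (a0.add b0)
    · rw [db_add' hv.1 hw.1]; exact (Lp.coeFn_add (x 1) (y 1)).trans (a1.add b1)
    · rw [smul_add]; exact (Lp.coeFn_add (x 2) (y 2)).trans (a2.add b2)
  smul_mem' := by
    rintro c x ⟨w, hw, b0, b1, b2⟩
    refine ⟨c • w, test_smul hw c, ?_, ?_, ?_⟩
    · rw [db_smul' hw.1]; exact (Lp.coeFn_smul c (x 0)).trans (b0.const_smul c)
    · rw [db_smul' hw.1]; exact (Lp.coeFn_smul c (x 1)).trans (b1.const_smul c)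
    · rw [smul_comm]; exact (Lp.coeFn_smul c (x 2)).trans (b2.const_smul c)

theorem exists_graph (hψ : Continuous ψ) (s : ℂ) {w : V → ℂ} (hw : Test U w) :
    ∃ x : E3 ψ U, x 0 =ᵐ[mu ψ U] db 0 w ∧ x 1 =ᵐ[mu ψ U] db 1 w ∧ x 2 =ᵐ[mu ψ U] s • w := by
  have h0 := memLp_cc (U := U) hψ (db_cont hw.1 0) (db_supp hw.2.1 0)
  have h1 := memLp_cc (U := U) hψ (db_cont hw.1 1) (db_supp hw.2.1 1)
  have h2 := memLp_cc (U := U) hψ (test_smul hw s).1.continuous (test_smul hw s).2.1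
  exact ⟨WithLp.toLp 2 ![h0.toLp, h1.toLp, h2.toLp], h0.coeFn_toLp, h1.coeFn_toLp, h2.coeFn_toLp⟩

theorem nrm_div (hψ : Continuous ψ) (F : Lp ℂ 2 (mu ψ U)) (c : ℂ) {f : V → ℂ}
    (h : f =ᵐ[mu ψ U] c • (F : V → ℂ)) : nrm ψ U f = ENNReal.ofReal (‖c‖ ^ 2 * ‖F‖ ^ 2) := by
  rw [nrm_congr hψ (h.trans (Lp.coeFn_smul c F).symm), nrm_Lp hψ, norm_smul, mul_pow]

theorem inner_ae (F G : Lp ℂ 2 (mu ψ U)) {f g : V → ℂ} (hf : F =ᵐ[mu ψ U] f)
    (hg : G =ᵐ[mu ψ U] g) :
    Integrable (fun z => g z * conj (f z)) (mu ψ U) ∧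
      ⟪F, G⟫_ℂ = ∫ z, g z * conj (f z) ∂(mu ψ U) := by
  have h : (fun z => ⟪F z, G z⟫_ℂ) =ᵐ[mu ψ U] fun z => g z * conj (f z) := by
    filter_upwards [hf, hg] with z h1 h2
    rw [h1, h2]; simp
  exact ⟨(L2.integrable_inner F G).congr h, by rw [L2.inner_def, integral_congr_ae h]⟩

end Proj

open Proj in
theorem proj : ProjStmt := by
  intro ψ U lam hψ hU hlam β0 β1 hβ0 hβ1 hfin
  have m0 := memLp_of hψ (hβ0.aestronglyMeasurable hU.measurableSet)
    (ENNReal.add_ne_top.1 hfin).1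
  have m1 := memLp_of hψ (hβ1.aestronglyMeasurable hU.measurableSet)
    (ENNReal.add_ne_top.1 hfin).2
  set s : ℝ := Real.sqrt lam with hs
  have hs0 : 0 < s := Real.sqrt_pos.2 hlam
  have hss : s ^ 2 = lam := Real.sq_sqrt hlam.le
  have hsc : (s : ℂ) ≠ 0 := by exact_mod_cast hs0.ne'
  set β : E3 ψ U := WithLp.toLp 2 ![m0.toLp, m1.toLp, 0] with hβ
  obtain ⟨y, hy, z, hz, hyz⟩ :=
    (graph ψ U s).topologicalClosure.exists_add_mem_mem_orthogonal β
  have c0 : m0.toLp = y 0 + z 0 := congrArg (fun x : E3 ψ U => x 0) hyz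
  have c1 : m1.toLp = y 1 + z 1 := congrArg (fun x : E3 ψ U => x 1) hyz
  have c2 : (0 : Lp ℂ 2 (mu ψ U)) = y 2 + z 2 := congrArg (fun x : E3 ψ U => x 2) hyz
  have hns : ‖(-(s : ℂ)⁻¹)‖ ^ 2 = lam⁻¹ := by
    rw [norm_neg, norm_inv, Complex.norm_real, Real.norm_eq_abs, abs_of_pos hs0, inv_pow, hss]
  refine ⟨z 0, z 1, (-(s : ℂ)⁻¹) • (z 2 : V → ℂ),
    (Lp.aestronglyMeasurable _).mono_ac (ac2 hψ), (Lp.aestronglyMeasurable _).mono_ac (ac2 hψ),
    ((Lp.aestronglyMeasurable _).mono_ac (ac2 hψ)).const_smul _, ?_, ?_, ?_⟩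
  · rw [nrm_Lp hψ, nrm_Lp hψ, nrm_div hψ (z 2) _ EventuallyEq.rfl, hns,
      ← nrm_congr hψ m0.coeFn_toLp, ← nrm_congr hψ m1.coeFn_toLp, nrm_Lp hψ, nrm_Lp hψ,
      ← ENNReal.ofReal_mul hlam.le, ← ENNReal.ofReal_add (by positivity) (by positivity),
      ← ENNReal.ofReal_add (by positivity) (by positivity),
      ← ENNReal.ofReal_add (by positivity) (by positivity)]
    refine ENNReal.ofReal_le_ofReal ?_
    have h1 : ‖β‖ ^ 2 = ‖y‖ ^ 2 + ‖z‖ ^ 2 := by
      rw [hyz, sq, sq, sq]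
      exact norm_add_sq_eq_norm_sq_add_norm_sq_of_inner_eq_zero y z
        (Submodule.inner_right_of_mem_orthogonal hy hz)
    have h2 : ‖β‖ ^ 2 = ‖m0.toLp‖ ^ 2 + ‖m1.toLp‖ ^ 2 := by
      rw [PiLp.norm_sq_eq_of_L2, Fin.sum_univ_three]; simp [hβ]
    have h3 : ‖z‖ ^ 2 = ‖z 0‖ ^ 2 + ‖z 1‖ ^ 2 + ‖z 2‖ ^ 2 := by
      rw [PiLp.norm_sq_eq_of_L2, Fin.sum_univ_three]
    have h4 : lam * (lam⁻¹ * ‖z 2‖ ^ 2) = ‖z 2‖ ^ 2 := by field_simp
    nlinarith [sq_nonneg ‖y‖]
  · intro w hw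
    obtain ⟨x, x0, x1, x2⟩ := exists_graph (U := U) hψ s hw
    have hx : x ∈ (graph ψ U s).topologicalClosure :=
      Submodule.le_topologicalClosure _ ⟨w, hw, x0, x1, x2⟩
    have h := Submodule.inner_right_of_mem_orthogonal hx hz
    rw [PiLp.inner_apply, Fin.sum_univ_three] at h
    obtain ⟨i0, j0⟩ := inner_ae (x 0) (z 0) x0 EventuallyEq.rfl
    obtain ⟨i1, j1⟩ := inner_ae (x 1) (z 1) x1 EventuallyEq.rfl
    obtain ⟨-, j2⟩ := inner_ae (x 2) (z 2) x2 EventuallyEq.rfl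
    rw [int_mu hψ, int_mu hψ (fun p => ((-(s : ℂ)⁻¹) • (z 2 : V → ℂ)) p * conj (w p)),
      integral_add i0 i1, ← j0, ← j1, ← integral_const_mul]
    have : ∫ p, (lam : ℂ) * (((-(s : ℂ)⁻¹) • (z 2 : V → ℂ)) p * conj (w p)) ∂(mu ψ U) =
        -⟪x 2, z 2⟫_ℂ := by
      rw [j2, ← integral_neg]
      refine integral_congr_ae (Eventually.of_forall fun p => ?_)
      simp only [Pi.smul_apply, smul_eq_mul, map_mul, conj_ofReal]
      rw [← hss]; push_cast; field_simp
    rw [this]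
    linear_combination h
  · intro ε hε
    obtain ⟨r, hr, hrε⟩ : ∃ r : ℝ, 0 < r ∧ ENNReal.ofReal r ≤ ε := by
      by_cases h : ε = ⊤
      · exact ⟨1, one_pos, by simp [h]⟩
      · exact ⟨ε.toReal, ENNReal.toReal_pos hε.ne' h, by rw [ENNReal.ofReal_toReal h]⟩
    have hq : 0 < r / (1 + lam⁻¹) := by positivity
    obtain ⟨x, ⟨w, hw, x0, x1, x2⟩, hx⟩ := Metric.mem_closure_iff.1
      (show y ∈ closure (graph ψ U s : Set (E3 ψ U)) from hy) _ (Real.sqrt_pos.2 hq)
    refine ⟨w, hw, le_trans ?_ hrε⟩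
    have a0 : β0 - db 0 w - (z 0 : V → ℂ) =ᵐ[mu ψ U] (y 0 - x 0 : Lp ℂ 2 (mu ψ U)) := by
      have := m0.coeFn_toLp
      rw [c0] at this
      filter_upwards [this, Lp.coeFn_add (y 0) (z 0), Lp.coeFn_sub (y 0) (x 0), x0] with p h1 h2 h3 h4
      simp only [Pi.sub_apply, Pi.add_apply] at *
      rw [h3, h4, ← h1, h2]; ring
    have a1 : β1 - db 1 w - (z 1 : V → ℂ) =ᵐ[mu ψ U] (y 1 - x 1 : Lp ℂ 2 (mu ψ U)) := by
      have := m1.coeFn_toLp
      rw [c1] at this
      filter_upwards [this, Lp.coeFn_add (y 1) (z 1), Lp.coeFn_sub (y 1) (x 1), x1] with p h1 h2 h3 h4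
      simp only [Pi.sub_apply, Pi.add_apply] at *
      rw [h3, h4, ← h1, h2]; ring
    have a2 : w - (-(s : ℂ)⁻¹) • (z 2 : V → ℂ) =ᵐ[mu ψ U]
        (-(s : ℂ)⁻¹) • ((y 2 - x 2 : Lp ℂ 2 (mu ψ U)) : V → ℂ) := by
      have := Lp.coeFn_zero ℂ 2 (mu ψ U)
      rw [c2] at this
      filter_upwards [this, Lp.coeFn_add (y 2) (z 2), Lp.coeFn_sub (y 2) (x 2), x2] with p h1 h2 h3 h4
      simp only [Pi.sub_apply, Pi.add_apply, Pi.smul_apply, smul_eq_mul, Pi.zero_apply] at *
      rw [h3, h4]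
      have : z 2 p = -y 2 p := by rw [h2] at h1; linear_combination h1
      rw [this]; field_simp; ring
    rw [nrm_congr hψ a0, nrm_congr hψ a1, nrm_div hψ _ _ a2, nrm_Lp hψ, nrm_Lp hψ, hns,
      ← ENNReal.ofReal_add (by positivity) (by positivity),
      ← ENNReal.ofReal_add (by positivity) (by positivity)]
    refine ENNReal.ofReal_le_ofReal ?_
    have h3 : ‖y - x‖ ^ 2 = ‖y 0 - x 0‖ ^ 2 + ‖y 1 - x 1‖ ^ 2 + ‖y 2 - x 2‖ ^ 2 := by
      rw [PiLp.norm_sq_eq_of_L2, Fin.sum_univ_three]; rfl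
    have h4 : ‖y - x‖ ^ 2 ≤ r / (1 + lam⁻¹) := by
      rw [dist_eq_norm] at hx
      have := pow_le_pow_left₀ (norm_nonneg _) hx.le 2
      rwa [Real.sq_sqrt hq.le] at this
    rw [le_div_iff₀ (by positivity)] at h4
    have h5 : 0 < lam⁻¹ := by positivity
    nlinarith [sq_nonneg ‖y 0 - x 0‖, sq_nonneg ‖y 1 - x 1‖, sq_nonneg ‖y 2 - x 2‖,
      mul_nonneg h5.le (sq_nonneg ‖y 0 - x 0‖), mul_nonneg h5.le (sq_nonneg ‖y 1 - x 1‖)]

end Pool.Agent.MP54.PDE

end
end MrgPart0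

-- ======== part 1: formerly Pool.Agent.MP_54e5d7_al.atc.pde.Tr
section MrgPart1

/-! Row TR of the d-bar block: transport of weighted norms between charts. -/

open Set MeasureTheory Complex Filter
open scoped ContDiff ENNReal Topology ComplexConjugate

noncomputable section

namespace Pool.Agent.MP54.PDE

namespace Tr

variable {Γ : Type} [Group Γ]

theorem sub (C : Chart Γ) : C.U2 ⊆ C.Om := subset_closure.trans C.s2

theorem ov_open (C : Chart Γ) (g : Γ) : IsOpen (C.ov g) :=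
  ((C.hol g).continuousOn.mono (sub C)).isOpen_inter_preimage C.o2 C.o2

theorem act_smooth (hS : SmoothStmt) (C : Chart Γ) (g : Γ) : ContDiffOn ℝ ∞ (C.act g) C.Om :=
  (hS _ _ C.oOm (C.hol g).fst).prodMk (hS _ _ C.oOm (C.hol g).snd)

theorem bound (hS : SmoothStmt) (C : Chart Γ) :
    ∃ R : ℝ, ∀ g, ∀ z ∈ C.ov g, ‖fderiv ℝ (C.act g) z‖ ≤ R := by
  have h : ∀ g, ∃ R : ℝ, ∀ z ∈ closure C.U2, ‖fderiv ℝ (C.act g) z‖ ≤ R := fun g =>
    C.c2.exists_bound_of_continuousOn
      (((act_smooth hS C g).continuousOn_fderiv_of_isOpen C.oOm (by simp)).mono C.s2)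
  choose R hR using h
  obtain ⟨R0, h0⟩ := (C.fin.image R).bddAbove
  exact ⟨R0, fun g z hz => (hR g z (subset_closure hz.1)).trans (h0 ⟨g, ⟨z, hz.1, hz.2⟩, rfl⟩)⟩

theorem anti (L : V →L[ℝ] ℂ) (ξ : V) : L ξ + I * L (I • ξ) =
    conj ξ.1 * (L (e 0) + I * L (I • e 0)) + conj ξ.2 * (L (e 1) + I * L (I • e 1)) := by
  have h1 : ξ = ξ.1.re • e 0 + ξ.1.im • (I • e 0) + ξ.2.re • e 1 + ξ.2.im • (I • e 1) := by
    ext <;> simp [e]
  have h2 : I • ξ =
      (-ξ.1.im) • e 0 + ξ.1.re • (I • e 0) + (-ξ.2.im) • e 1 + ξ.2.re • (I • e 1) := by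
    ext <;> simp [e, Complex.ext_iff]
  have h3 : conj ξ.1 = ξ.1.re - ξ.1.im * I := by simp [Complex.ext_iff]
  have h4 : conj ξ.2 = ξ.2.re - ξ.2.im * I := by simp [Complex.ext_iff]
  have h5 := congrArg L h1
  have h6 := congrArg L h2
  simp only [map_add, map_smul, Complex.real_smul, Complex.ofReal_neg] at h5 h6
  rw [h5, h6, h3, h4]
  linear_combination (ξ.1.im * L (I • e 0) + ξ.2.im * L (I • e 1)) * Complex.I_mul_I

theorem norm_e (k : Fin 2) : ‖e k‖ ≤ 1 := by
  fin_cases k <;> simp [e]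

/-- the chain rule for `db` -/
theorem db_div {f : V → V} {a v : V → ℂ} {z : V} (hf : DifferentiableAt ℂ f z)
    (ha : DifferentiableAt ℂ a z) (h0 : a z ≠ 0) (hv : DifferentiableAt ℝ v (f z)) (k : Fin 2) :
    db k (fun z => v (f z) / a z) z =
      (conj (fderiv ℝ f z (e k)).1 * db 0 v (f z) + conj (fderiv ℝ f z (e k)).2 * db 1 v (f z)) /
        a z := by
  have h1 := hf.hasFDerivAt.restrictScalars ℝ
  have h2 := (ha.inv h0).hasFDerivAt.restrictScalars ℝ
  have h3 := (hv.hasFDerivAt.comp z h1).mul h2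
  have h4 : (fun z => v (f z) / a z) = (v ∘ f) * a⁻¹ := by
    funext y
    simp [div_eq_mul_inv]
  have h5 := anti (fderiv ℝ v (f z)) (fderiv ℂ f z (e k))
  rw [db, h4, h3.fderiv, h1.fderiv]
  simp only [db, add_apply, smul_apply,
    ContinuousLinearMap.comp_apply, ContinuousLinearMap.coe_restrictScalars', map_smul,
    smul_eq_mul, Pi.inv_apply, Function.comp_apply]
  field_simp
  linear_combination h5 + v (f z) * fderiv ℂ a⁻¹ z (e k) * a z * Complex.I_mul_I

theorem sq_le {x y p q : ℂ} {R : ℝ} (hx : ‖x‖ ≤ R) (hy : ‖y‖ ≤ R) :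
    ‖conj x * p + conj y * q‖ ^ 2 ≤ 2 * R ^ 2 * (‖p‖ ^ 2 + ‖q‖ ^ 2) := by
  have h1 : ‖conj x * p + conj y * q‖ ≤ R * ‖p‖ + R * ‖q‖ := by
    refine (norm_add_le _ _).trans ?_
    rw [norm_mul, norm_mul, Complex.norm_conj, Complex.norm_conj]
    gcongr
  refine (pow_le_pow_left₀ (norm_nonneg _) h1 2).trans ?_
  nlinarith [sq_nonneg (R * ‖p‖ - R * ‖q‖)]

theorem meas_db (k : Fin 2) (v : V → ℂ) : Measurable (db k v) :=
  ((measurable_fderiv_apply_const ℝ v _).add
    ((measurable_fderiv_apply_const ℝ v _).const_mul _)).div_const _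

variable {C : Chart Γ} {J : Type} [MulAction Γ J]

theorem ne (B : Bundle C J) (i : J) {g : Γ} {z : V} (hz : z ∈ C.ov g) : B.a i g z ≠ 0 := by
  intro h
  have := B.inv i g z hz
  rw [h, norm_zero, zero_pow two_ne_zero, mul_zero] at this
  exact (Real.exp_pos _).ne this

theorem wt (B : Bundle C J) (i : J) {g : Γ} {z : V} (hz : z ∈ C.ov g) (x : ℂ) :
    ‖x / B.a i g z‖ ^ 2 * Real.exp (-B.psi z) = ‖x‖ ^ 2 * Real.exp (-B.psi (C.act g z)) := by
  have h := norm_ne_zero_iff.2 (ne B i hz)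
  rw [← B.inv i g z hz, norm_div]
  field_simp

end Tr

open Tr in
theorem tr (hS : SmoothStmt) (hC : CVStmt) : TrStmt := by
  intro Γ _ C
  obtain ⟨M, hM, hcv⟩ := hC Γ C
  obtain ⟨R, hR⟩ := bound hS C
  set c : ℝ≥0∞ := ENNReal.ofReal (2 * R ^ 2) with hc
  have hct : c ≠ ⊤ := ENNReal.ofReal_ne_top
  refine ⟨(1 + (c + c)) * M, by finiteness, fun J _ B i g A hA hAU v => ?_⟩
  obtain ⟨hm, hint, -⟩ := hcv g A hA hAU
  have hov : C.pre g A ⊆ C.ov g := fun z hz => ⟨hz.1, hAU hz.2⟩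
  refine ⟨?_, fun hv => ⟨?_, ?_⟩⟩
  · refine le_trans ?_ ((hint fun z => ENNReal.ofReal (‖v z‖ ^ 2 * Real.exp (-B.psi z))).trans
      (mul_le_mul_left (le_mul_of_one_le_left' le_self_add) _))
    exact (setLIntegral_congr_fun hm fun z hz => by rw [wt B i (hov hz)]).le
  · have h1 : ContDiffOn ℝ ∞ (fun z => v (C.act g z)) (C.ov g) :=
      hv.comp ((act_smooth hS C g).mono fun z hz => sub C hz.1) fun z hz => hz.2
    have h2 : ContDiffOn ℝ ∞ (fun z => (B.a i g z)⁻¹) (C.ov g) :=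
      hS _ _ (ov_open C g) ((B.hol i g).inv fun z hz => ne B i hz)
    simpa only [div_eq_mul_inv] using h1.mul h2
  · have hψ : AEMeasurable B.psi (volume.restrict A) :=
      (B.smooth.continuousOn.mono hAU).aemeasurable hA
    have key : ∀ k, nrm B.psi (C.pre g A) (db k fun z => v (C.act g z) / B.a i g z) ≤
        c * (M * en B.psi A v) := by
      intro k
      have h1 := hint fun z => ENNReal.ofReal (‖db 0 v z‖ ^ 2 * Real.exp (-B.psi z)) +
        ENNReal.ofReal (‖db 1 v z‖ ^ 2 * Real.exp (-B.psi z))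
      rw [lintegral_add_left' (f := fun z => ENNReal.ofReal (‖db 0 v z‖ ^ 2 * Real.exp (-B.psi z)))
        ((((meas_db 0 v).norm.pow_const 2).aemeasurable.mul
          (Real.measurable_exp.comp_aemeasurable hψ.neg)).ennreal_ofReal)] at h1
      refine le_trans ?_ (mul_le_mul_right h1 c)
      rw [← lintegral_const_mul' _ _ hct]
      refine setLIntegral_mono' hm fun z hz => ?_
      have hz' := hov hz
      have hd := hR g z hz'
      have he : ‖fderiv ℝ (C.act g) z (e k)‖ ≤ R :=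
        ((fderiv ℝ (C.act g) z).le_opNorm_of_le (norm_e k)).trans (by rwa [mul_one])
      rw [db_div ((C.hol g).differentiableAt (C.oOm.mem_nhds (sub C hz.1)))
        ((B.hol i g).differentiableAt ((ov_open C g).mem_nhds hz')) (ne B i hz')
        ((hv.differentiableOn (by simp)).differentiableAt (C.o2.mem_nhds hz'.2)), wt B i hz',
        ← ENNReal.ofReal_add (by positivity) (by positivity), hc,
        ← ENNReal.ofReal_mul (by positivity), ← add_mul, ← mul_assoc]
      exact ENNReal.ofReal_le_ofReal (mul_le_mul_of_nonneg_right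
        (sq_le ((norm_fst_le _).trans he) ((norm_snd_le _).trans he)) (Real.exp_pos _).le)
    refine (add_le_add (key 0) (key 1)).trans ?_
    rw [← add_mul, mul_assoc]
    exact mul_le_mul_left le_add_self _

end Pool.Agent.MP54.PDE

end
end MrgPart1

-- ======== part 2: formerly Pool.Agent.MP_54e5d7_al.atc.pde.West
section MrgPart2

/-! Row WEST: the basic estimate for compactly supported square integrable forms whose weak
derivatives are square integrable. -/

open Set MeasureTheory Complex Filter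
open scoped ContDiff ENNReal Topology

noncomputable section

namespace Pool.Agent.MP54.PDE

namespace West

/-- Convergence in the square mean of functions that vanish off `K`. -/
structure Cv (K : Set V) (f : ℕ → V → ℂ) (g : V → ℂ) : Prop where
  mf : ∀ n, MemLp (f n) 2 volume
  mg : MemLp g 2 volume
  zf : ∀ n z, z ∉ K → f n z = 0
  zg : ∀ z, z ∉ K → g z = 0
  lim : Tendsto (fun n => eLpNorm (f n - g) 2 volume) atTop (𝓝 0)

variable {K : Set V}

theorem bound_mul (hK : IsCompact K) {m : V → ℂ} (hm : Continuous m) :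
    ∃ C : ℝ, ∀ f : V → ℂ, (∀ z, z ∉ K → f z = 0) → ∀ z, ‖m z * f z‖ ≤ C * ‖f z‖ := by
  obtain ⟨C, hC⟩ := hK.exists_bound_of_continuousOn hm.continuousOn
  refine ⟨C, fun f hf z => ?_⟩
  by_cases hz : z ∈ K
  · rw [norm_mul]
    exact mul_le_mul_of_nonneg_right (hC z hz) (norm_nonneg _)
  · simp [hf z hz]

theorem memLp_mul (hK : IsCompact K) {m : V → ℂ} (hm : Continuous m) {f : V → ℂ}
    (hf : MemLp f 2 volume) (hz : ∀ z, z ∉ K → f z = 0) :
    MemLp (fun z => m z * f z) 2 volume := by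
  obtain ⟨C, hC⟩ := bound_mul hK hm
  exact MemLp.of_le_mul hf (hm.aestronglyMeasurable.mul hf.1) (Eventually.of_forall (hC f hz))

theorem Cv.mul (hK : IsCompact K) {m : V → ℂ} (hm : Continuous m) {f : ℕ → V → ℂ} {g : V → ℂ}
    (h : Cv K f g) : Cv K (fun n z => m z * f n z) (fun z => m z * g z) where
  mf n := memLp_mul hK hm (h.mf n) (h.zf n)
  mg := memLp_mul hK hm h.mg h.zg
  zf n z hz := by simp [h.zf n z hz]
  zg z hz := by simp [h.zg z hz]
  lim := by
    obtain ⟨C, hC⟩ := bound_mul hK hm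
    have h1 : Tendsto (fun n => ENNReal.ofReal C * eLpNorm (f n - g) 2 volume) atTop (𝓝 0) := by
      simpa using ENNReal.Tendsto.const_mul h.lim (Or.inr ENNReal.ofReal_ne_top)
    refine tendsto_of_tendsto_of_tendsto_of_le_of_le tendsto_const_nhds h1
      (fun _ => zero_le) (fun n => ?_)
    refine eLpNorm_le_mul_eLpNorm_of_ae_le_mul (Eventually.of_forall fun z => ?_) 2
    have := hC (f n - g) (fun z hz => by simp [h.zf n z hz, h.zg z hz]) z
    simpa [mul_sub] using this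

theorem Cv.sub {f f' : ℕ → V → ℂ} {g g' : V → ℂ} (h : Cv K f g) (h' : Cv K f' g') :
    Cv K (fun n z => f n z - f' n z) (fun z => g z - g' z) where
  mf n := (h.mf n).sub (h'.mf n)
  mg := h.mg.sub h'.mg
  zf n z hz := by simp [h.zf n z hz, h'.zf n z hz]
  zg z hz := by simp [h.zg z hz, h'.zg z hz]
  lim := by
    have h1 : Tendsto (fun n => eLpNorm (f n - g) 2 volume + eLpNorm (f' n - g') 2 volume)
        atTop (𝓝 0) := by simpa using h.lim.add h'.lim
    refine tendsto_of_tendsto_of_tendsto_of_le_of_le tendsto_const_nhds h1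
      (fun _ => zero_le) (fun n => ?_)
    have e : ((fun z => f n z - f' n z) - fun z => g z - g' z) = (f n - g) - (f' n - g') := by
      funext z; simp only [Pi.sub_apply]; ring
    simp only [e]
    exact eLpNorm_sub_le ((h.mf n).sub h.mg).1 ((h'.mf n).sub h'.mg).1 (by norm_num)

theorem sq_norm_eq {f : V → ℂ} (hf : MemLp f 2 volume) :
    ∫ z, ‖f z‖ ^ 2 = ‖hf.toLp f‖ ^ 2 := by
  rw [Lp.norm_toLp, hf.eLpNorm_eq_integral_rpow_norm (by norm_num) (by norm_num)]
  have h0 : 0 ≤ ∫ z, ‖f z‖ ^ 2 := integral_nonneg fun z => by positivity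
  have e : (fun z => ‖f z‖ ^ (2 : ℝ≥0∞).toReal) = fun z => ‖f z‖ ^ 2 := by
    funext z; simp
  rw [e, ENNReal.toReal_ofReal (Real.rpow_nonneg h0 _)]
  simp only [ENNReal.toReal_ofNat]
  rw [← Real.rpow_natCast, ← Real.rpow_mul h0]
  norm_num

theorem Cv.int {f : ℕ → V → ℂ} {g : V → ℂ} (h : Cv K f g) :
    Tendsto (fun n => ∫ z, ‖f n z‖ ^ 2) atTop (𝓝 (∫ z, ‖g z‖ ^ 2)) := by
  simp only [fun n => sq_norm_eq (h.mf n), sq_norm_eq h.mg]
  exact (((Lp.tendsto_Lp_iff_tendsto_eLpNorm'' f h.mf g h.mg).2 h.lim).norm).pow 2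

/-- The square root of the weight. -/
def rt (ψ : V → ℝ) (z : V) : ℂ := (Real.exp (-ψ z / 2) : ℝ)

theorem rt_cont {ψ : V → ℝ} (h : Continuous ψ) : Continuous (rt ψ) := by
  unfold rt; fun_prop

theorem norm_rt (ψ : V → ℝ) (z : V) (a : ℂ) :
    ‖rt ψ z * a‖ ^ 2 = ‖a‖ ^ 2 * Real.exp (-ψ z) := by
  rw [norm_mul, mul_pow, rt, Complex.norm_real, Real.norm_eq_abs, sq_abs, ← Real.exp_nat_mul,
    mul_comm]
  congr 2
  push_cast; ring

theorem Cv.wint (hK : IsCompact K) {ψ : V → ℝ} (hψ : Continuous ψ) {f : ℕ → V → ℂ} {g : V → ℂ}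
    (h : Cv K f g) : Tendsto (fun n => ∫ z, ‖f n z‖ ^ 2 * Real.exp (-ψ z)) atTop
      (𝓝 (∫ z, ‖g z‖ ^ 2 * Real.exp (-ψ z))) := by
  simpa only [norm_rt] using (h.mul hK (rt_cont hψ)).int

theorem integrable_w (hK : IsCompact K) {ψ : V → ℝ} (hψ : Continuous ψ) {f : V → ℂ}
    (hf : MemLp f 2 volume) (hz : ∀ z, z ∉ K → f z = 0) :
    Integrable (fun z => ‖f z‖ ^ 2 * Real.exp (-ψ z)) volume := by
  have h := memLp_mul hK (rt_cont hψ) hf hz
  simpa only [norm_rt] using (memLp_two_iff_integrable_sq_norm h.1).1 h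

theorem split_w (hK : IsCompact K) {ψ : V → ℝ} (hψ : Continuous ψ) {f g : V → ℂ}
    (hf : MemLp f 2 volume) (hz : ∀ z, z ∉ K → f z = 0)
    (hg : MemLp g 2 volume) (hz' : ∀ z, z ∉ K → g z = 0) :
    ∫ z, (‖f z‖ ^ 2 + ‖g z‖ ^ 2) * Real.exp (-ψ z) =
      (∫ z, ‖f z‖ ^ 2 * Real.exp (-ψ z)) + ∫ z, ‖g z‖ ^ 2 * Real.exp (-ψ z) := by
  rw [← integral_add (integrable_w hK hψ hf hz) (integrable_w hK hψ hg hz')]
  simp only [add_mul]

theorem fd_cont {u : V → ℂ} (hu : ContDiff ℝ ∞ u) (v : V) : Continuous fun z => fderiv ℝ u z v :=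
  (hu.continuous_fderiv (by simp)).clm_apply continuous_const

theorem dz_cont {u : V → ℂ} (hu : ContDiff ℝ ∞ u) (k : Fin 2) : Continuous (dz k u) := by
  unfold dz
  exact ((fd_cont hu _).sub (continuous_const.mul (fd_cont hu _))).div_const _

theorem db_cont {u : V → ℂ} (hu : ContDiff ℝ ∞ u) (k : Fin 2) : Continuous (db k u) := by
  unfold db
  exact ((fd_cont hu _).add (continuous_const.mul (fd_cont hu _))).div_const _

theorem dz_memLp {u : V → ℂ} (hu : Test univ u) (k : Fin 2) : MemLp (dz k u) 2 volume := by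
  refine (dz_cont hu.1 k).memLp_of_hasCompactSupport ?_
  refine HasCompactSupport.intro (hu.2.1.fderiv (𝕜 := ℝ)) fun z hz => ?_
  simp [dz, image_eq_zero_of_notMem_tsupport hz]

theorem db_memLp {u : V → ℂ} (hu : Test univ u) (k : Fin 2) : MemLp (db k u) 2 volume := by
  refine (db_cont hu.1 k).memLp_of_hasCompactSupport ?_
  refine HasCompactSupport.intro (hu.2.1.fderiv (𝕜 := ℝ)) fun z hz => ?_
  simp [db, image_eq_zero_of_notMem_tsupport hz]

theorem int_mul {f g : V → ℂ} (hf : MemLp f 2 volume) (hg : MemLp g 2 volume) :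
    Integrable (fun z => f z * g z) volume := hf.integrable_mul hg

theorem test_shift {φ : V → ℝ} (h1 : ContDiff ℝ ∞ φ) (h2 : HasCompactSupport φ) (x : V) :
    Test univ fun y => (φ (x - y) : ℂ) := by
  refine ⟨?_, ?_, subset_univ _⟩
  · exact (Complex.ofRealCLM.contDiff).comp (h1.comp (contDiff_const.sub contDiff_id))
  · have h3 : HasCompactSupport (φ ∘ Homeomorph.subLeft x) := h2.comp_homeomorph _
    exact h3.comp_left (g := fun t : ℝ => (t : ℂ)) (by simp)

theorem conv_zero {φ : V → ℝ} {δ : ℝ} (hφ : tsupport φ ⊆ Metric.closedBall 0 δ) {g : V → ℂ}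
    (hg : ∀ z, z ∉ K → g z = 0) {x : V} (hx : x ∉ Metric.cthickening δ K) : conv φ g x = 0 := by
  have : ∀ y, (φ (x - y) : ℂ) * g y = 0 := by
    intro y
    by_cases hy : y ∈ K
    · by_cases h : x - y ∈ tsupport φ
      · refine (hx (Metric.mem_cthickening_of_dist_le x y δ K hy ?_)).elim
        have := hφ h
        rwa [mem_closedBall_zero_iff, ← dist_eq_norm] at this
      · simp [image_eq_zero_of_notMem_tsupport h]
    · simp [hg y hy]
  simp [conv, this]

end West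

open West in
theorem west (hB : BasicStmt) (hC : ConvStmt) (hM : MollStmt) : WestStmt := by
  intro ψ c U K hψ hU hneg hK hKU v0 v1 G H m0 m1 mG mH hz e1 e2
  obtain ⟨φ0, p1, p2, p3, p4⟩ := hM
  obtain ⟨δ, hδ, hδU⟩ := hK.exists_cthickening_subset_open hU hKU
  obtain ⟨N, hN⟩ := exists_nat_one_div_lt hδ
  set K' := Metric.cthickening δ K with hK'def
  have hK' : IsCompact K' := hK.cthickening
  have hKK' : K ⊆ K' := Metric.self_subset_cthickening K
  set φ : ℕ → V → ℝ := fun n => φ0 (n + N) with hφ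
  have q3 : ∀ n, tsupport (φ n) ⊆ Metric.closedBall 0 δ := by
    intro n
    refine (p3 (n + N)).trans (Metric.closedBall_subset_closedBall (le_trans ?_ hN.le))
    refine one_div_le_one_div_of_le (by positivity) ?_
    push_cast
    have : (0 : ℝ) ≤ n := Nat.cast_nonneg n
    linarith
  have hli : ∀ g : V → ℂ, MemLp g 2 volume → LocallyIntegrable g volume :=
    fun g hg => hg.locallyIntegrable (by norm_num)
  have htest : ∀ g : V → ℂ, MemLp g 2 volume → (∀ z, z ∉ K → g z = 0) → ∀ n,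
      Test U (conv (φ n) g) := by
    intro g hg hg0 n
    have h0 : ∀ x, x ∉ K' → conv (φ n) g x = 0 := fun x hx => conv_zero (q3 n) hg0 hx
    refine ⟨(hC _ (p1 _) (p2 _) g (hli g hg)).1, HasCompactSupport.intro hK' h0, ?_⟩
    refine Subset.trans (closure_minimal (fun x hx => ?_) Metric.isClosed_cthickening) hδU
    by_contra h
    exact hx (h0 x h)
  have hcv : ∀ g : V → ℂ, MemLp g 2 volume → (∀ z, z ∉ K → g z = 0) →
      Cv K' (fun n => conv (φ n) g) g := by
    intro g hg hg0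
    exact ⟨fun n => (htest g hg hg0 n).1.continuous.memLp_of_hasCompactSupport
        (htest g hg hg0 n).2.1, hg, fun n x hx => conv_zero (q3 n) hg0 hx,
      fun z hz => hg0 z fun h => hz (hKK' h),
      (p4 g hg).1.comp (tendsto_add_atTop_nat N)⟩
  have hcx : ContDiff ℝ ∞ (cx ψ) := (Complex.ofRealCLM.contDiff).comp hψ
  have c0 := dz_cont hcx 0
  have c1 := dz_cont hcx 1
  have z0 : ∀ z, z ∉ K → v0 z = 0 := fun z h => (hz z h).1
  have z1 : ∀ z, z ∉ K → v1 z = 0 := fun z h => (hz z h).2.1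
  have zG : ∀ z, z ∉ K → G z = 0 := fun z h => (hz z h).2.2.1
  have zH : ∀ z, z ∉ K → H z = 0 := fun z h => (hz z h).2.2.2
  set H' : V → ℂ := fun z => H z + dz 0 (cx ψ) z * v0 z + dz 1 (cx ψ) z * v1 z with hH'
  have mH' : MemLp H' 2 volume :=
    (mH.add (memLp_mul hK c0 m0 z0)).add (memLp_mul hK c1 m1 z1)
  have zH' : ∀ z, z ∉ K → H' z = 0 := fun z h => by simp [hH', z0 z h, z1 z h, zH z h]
  have id1 : ∀ n x, db 0 (conv (φ n) v1) x - db 1 (conv (φ n) v0) x = conv (φ n) G x := by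
    intro n x
    have ht := test_shift (p1 (n + N)) (p2 (n + N)) x
    rw [(hC _ (p1 _) (p2 _) v1 (hli _ m1)).2.1, (hC _ (p1 _) (p2 _) v0 (hli _ m0)).2.1]
    have h := e1 _ ht
    rw [integral_sub (int_mul m1 (db_memLp ht 0)) (int_mul m0 (db_memLp ht 1))] at h
    have h2 : conv (φ n) G x = ∫ z, G z * (φ0 (n + N) (x - z) : ℂ) := by
      simp only [conv, hφ, mul_comm]
    rw [h2]
    linear_combination -h
  have id2 : ∀ n x, dz 0 (conv (φ n) v0) x + dz 1 (conv (φ n) v1) x = conv (φ n) H' x := by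
    intro n x
    have ht := test_shift (p1 (n + N)) (p2 (n + N)) x
    rw [(hC _ (p1 _) (p2 _) v0 (hli _ m0)).2.2, (hC _ (p1 _) (p2 _) v1 (hli _ m1)).2.2]
    have h := e2 _ ht
    rw [integral_add (int_mul m0 (dz_memLp ht 0)) (int_mul m1 (dz_memLp ht 1))] at h
    have h2 : conv (φ n) H' x = ∫ z, H' z * (φ0 (n + N) (x - z) : ℂ) := by
      simp only [conv, hφ, mul_comm]
    rw [h2]
    linear_combination -h
  have cv0 := hcv v0 m0 z0
  have cv1 := hcv v1 m1 z1
  have cvH := ((hcv H' mH' zH').sub (cv0.mul hK' c0)).sub (cv1.mul hK' c1)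
  have eH : (fun z => H' z - dz 0 (cx ψ) z * v0 z - dz 1 (cx ψ) z * v1 z) = H := by
    funext z; simp only [hH']; ring
  rw [eH] at cvH
  have hψc := hψ.continuous
  have L := ((cv0.wint hK' hψc).add (cv1.wint hK' hψc)).const_mul c
  have R := ((hcv G mG zG).wint hK' hψc).add (cvH.wint hK' hψc)
  rw [split_w hK hψc m0 z0 m1 z1]
  refine le_of_tendsto_of_tendsto' L R fun n => ?_
  have h := hB ψ c U hψ hneg _ _ (htest v0 m0 z0 n) (htest v1 m1 z1 n)
  rw [split_w hK' hψc (cv0.mf n) (cv0.zf n) (cv1.mf n) (cv1.zf n)] at h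
  have e3 : ∀ z, dl ψ 0 (conv (φ n) v0) z + dl ψ 1 (conv (φ n) v1) z =
      conv (φ n) H' z - dz 0 (cx ψ) z * conv (φ n) v0 z - dz 1 (cx ψ) z * conv (φ n) v1 z := by
    intro z
    rw [← id2 n z]; simp only [dl]; ring
  simpa only [id1, e3] using h

end Pool.Agent.MP54.PDE

end
end MrgPart2

-- ======== part 3: formerly Pool.Agent.MP_54e5d7_al.atc.pde.Weyl2
section MrgPart3

/-! Row WEYL2: an L2-fast Cauchy sequence whose d-bar tends to zero converges almost everywhere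
to a holomorphic function. -/

open Set MeasureTheory Complex Filter
open scoped ContDiff ENNReal Topology

noncomputable section

namespace Pool.Agent.MP54.PDE

namespace Weyl2

instance haarV : (volume : Measure V).IsAddHaarMeasure :=
  Measure.prod.instIsAddHaarMeasure volume volume

theorem nrm_zero_eq (Ω : Set V) (u : V → ℂ) :
    nrm 0 Ω u = eLpNorm u 2 (volume.restrict Ω) ^ 2 := by
  have h := eLpNorm_nnreal_pow_eq_lintegral (μ := volume.restrict Ω) (f := u) (p := 2)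
    (by norm_num)
  have h2 : ((2 : NNReal) : ℝ≥0∞) = 2 := rfl
  have h3 : ((2 : NNReal) : ℝ) = ((2 : ℕ) : ℝ) := by norm_num
  rw [h2, h3] at h
  simp only [ENNReal.rpow_natCast] at h
  rw [h, nrm]
  refine lintegral_congr fun z => ?_
  simp only [Pi.zero_apply, neg_zero, Real.exp_zero, mul_one]
  rw [ENNReal.ofReal_pow (norm_nonneg _), ofReal_norm]

/-- A product with a compactly supported factor is integrable. -/
theorem integrable_mul {Ω K : Set V} {u w : V → ℂ} (hK : IsCompact K) (hKΩ : K ⊆ Ω)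
    (hu : ContinuousOn u Ω) (hw : Continuous w) (hz : ∀ z, z ∉ K → w z = 0) :
    Integrable (fun z => u z * w z) volume := by
  have h1 : IntegrableOn (fun z => u z * w z) K volume :=
    ((hu.mono hKΩ).mul hw.continuousOn).integrableOn_compact hK
  exact h1.integrable_of_forall_notMem_eq_zero fun z hz' => by simp [hz z hz']

theorem fderiv_zero_off {φ : V → ℂ} (v : V) {z : V} (hz : z ∉ tsupport φ) :
    fderiv ℝ φ z v = 0 := by
  have : fderiv ℝ φ z = 0 := by
    by_contra h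
    exact hz (support_fderiv_subset ℝ (Function.mem_support.2 h))
  simp [this]

theorem db_zero_off {φ : V → ℂ} (k : Fin 2) {z : V} (hz : z ∉ tsupport φ) : db k φ z = 0 := by
  simp [db, fderiv_zero_off _ hz]

theorem contOn_fderiv {Ω : Set V} (hΩ : IsOpen Ω) {f : V → ℂ} (hf : ContDiffOn ℝ ∞ f Ω) (v : V) :
    ContinuousOn (fun z => fderiv ℝ f z v) Ω :=
  (hf.continuousOn_fderiv_of_isOpen hΩ (by simp)).clm_apply continuousOn_const

theorem contOn_db {Ω : Set V} (hΩ : IsOpen Ω) {f : V → ℂ} (hf : ContDiffOn ℝ ∞ f Ω) (k : Fin 2) :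
    ContinuousOn (db k f) Ω :=
  ((contOn_fderiv hΩ hf _).add (continuousOn_const.mul (contOn_fderiv hΩ hf _))).div_const 2

theorem cont_db {φ : V → ℂ} (hφ : ContDiff ℝ ∞ φ) (k : Fin 2) : Continuous (db k φ) :=
  continuousOn_univ.1 (contOn_db isOpen_univ hφ.contDiffOn k)

theorem ibp_dir {Ω : Set V} (hΩ : IsOpen Ω) {f φ : V → ℂ} (hf : ContDiffOn ℝ ∞ f Ω)
    (hφ : Test Ω φ) (v : V) :
    ∫ z, f z * fderiv ℝ φ z v = -∫ z, fderiv ℝ f z v * φ z := by
  obtain ⟨h1, h2, h3⟩ := hφ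
  have hc : Continuous fun z => fderiv ℝ φ z v :=
    continuousOn_univ.1 (contOn_fderiv isOpen_univ h1.contDiffOn v)
  refine integral_mul_fderiv_eq_neg_fderiv_mul_of_integrable ?_ ?_ ?_ ?_ ?_
  · exact integrable_mul h2 h3 (contOn_fderiv hΩ hf v) h1.continuous
      fun z hz => image_eq_zero_of_notMem_tsupport hz
  · exact integrable_mul h2 h3 hf.continuousOn hc fun z hz => fderiv_zero_off v hz
  · exact integrable_mul h2 h3 hf.continuousOn h1.continuous
      fun z hz => image_eq_zero_of_notMem_tsupport hz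
  · exact fun z hz => ((hf z (h3 hz)).contDiffAt (hΩ.mem_nhds (h3 hz))).differentiableAt (by simp)
  · exact fun z _ => h1.differentiable (by simp) z

/-- Integration by parts against a test function. -/
theorem ibp {Ω : Set V} (hΩ : IsOpen Ω) {f φ : V → ℂ} (hf : ContDiffOn ℝ ∞ f Ω)
    (hφ : Test Ω φ) (k : Fin 2) : ∫ z, f z * db k φ z = -∫ z, db k f z * φ z := by
  have e1 := ibp_dir hΩ hf hφ (e k)
  have e2 := ibp_dir hΩ hf hφ (I • e k)
  obtain ⟨h1, h2, h3⟩ := hφ
  have hc : ∀ v, Continuous fun z => fderiv ℝ φ z v := fun v =>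
    continuousOn_univ.1 (contOn_fderiv isOpen_univ h1.contDiffOn v)
  have i1 : ∀ v, Integrable (fun z => f z * fderiv ℝ φ z v) volume := fun v =>
    integrable_mul h2 h3 hf.continuousOn (hc v) fun z hz => fderiv_zero_off v hz
  have i2 : ∀ v, Integrable (fun z => fderiv ℝ f z v * φ z) volume := fun v =>
    integrable_mul h2 h3 (contOn_fderiv hΩ hf v) h1.continuous
      fun z hz => image_eq_zero_of_notMem_tsupport hz
  have a1 : ∫ z, f z * db k φ z =
      ((∫ z, f z * fderiv ℝ φ z (e k)) + I * ∫ z, f z * fderiv ℝ φ z (I • e k)) / 2 := by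
    rw [← integral_const_mul, ← integral_add (i1 _) ((i1 _).const_mul I), ← integral_div]
    refine integral_congr_ae (Eventually.of_forall fun z => ?_)
    simp only [db]
    ring
  have a2 : ∫ z, db k f z * φ z =
      ((∫ z, fderiv ℝ f z (e k) * φ z) + I * ∫ z, fderiv ℝ f z (I • e k) * φ z) / 2 := by
    rw [← integral_const_mul, ← integral_add (i2 _) ((i2 _).const_mul I), ← integral_div]
    refine integral_congr_ae (Eventually.of_forall fun z => ?_)
    simp only [db]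
    ring
  rw [a1, a2, e1, e2]
  ring

/-- Cauchy-Schwarz. -/
theorem cs {μ : Measure V} {u w : V → ℂ} (hu : AEStronglyMeasurable u μ)
    (hw : AEStronglyMeasurable w μ) :
    ‖∫ z, u z * w z ∂μ‖ₑ ≤ eLpNorm u 2 μ * eLpNorm w 2 μ := by
  refine (enorm_integral_le_lintegral_enorm _).trans ?_
  rw [← eLpNorm_one_eq_lintegral_enorm]
  have h := eLpNorm_smul_le_mul_eLpNorm (p := 2) (q := 2) (r := 1) hw hu
  have h2 : (fun z => u z * w z) = u • w := by
    funext z
    simp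
  rw [h2]
  exact h

theorem tendsto_pair {μ : Measure V} {u : ℕ → V → ℂ} {w : V → ℂ}
    (hu : ∀ n, AEStronglyMeasurable (u n) μ) (hw : MemLp w 2 μ)
    (h0 : Tendsto (fun n => eLpNorm (u n) 2 μ) atTop (𝓝 0)) :
    Tendsto (fun n => ∫ z, u n z * w z ∂μ) atTop (𝓝 0) := by
  rw [tendsto_zero_iff_enorm_tendsto_zero]
  have h1 : Tendsto (fun n => eLpNorm (u n) 2 μ * eLpNorm w 2 μ) atTop (𝓝 0) := by
    simpa using ENNReal.Tendsto.mul_const h0 (Or.inr hw.2.ne)
  exact tendsto_of_tendsto_of_tendsto_of_le_of_le tendsto_const_nhds h1 (fun n => zero_le)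
    fun n => cs (hu n) hw.1

/-- A fast Cauchy sequence in L2 converges in L2 and almost everywhere. -/
theorem fast {μ : Measure V} {f : ℕ → V → ℂ} {C : ℝ≥0∞} (hC : C ≠ ⊤)
    (hm : ∀ n, AEStronglyMeasurable (f n) μ) (h0 : eLpNorm (f 0) 2 μ < ⊤)
    (hs : ∀ n, eLpNorm (f (n + 1) - f n) 2 μ ≤ C / 2 ^ n) :
    (∀ n, MemLp (f n) 2 μ) ∧ ∃ g : V → ℂ, MemLp g 2 μ ∧
      Tendsto (fun n => eLpNorm (f n - g) 2 μ) atTop (𝓝 0) ∧
      ∀ᵐ z ∂μ, Tendsto (fun n => f n z) atTop (𝓝 (g z)) := by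
  have hL : ∀ n, MemLp (f n) 2 μ := by
    intro n
    induction n with
    | zero => exact ⟨hm 0, h0⟩
    | succ n ih =>
      have hd : MemLp (f (n + 1) - f n) 2 μ :=
        ⟨(hm _).sub (hm _), (hs n).trans_lt (ENNReal.div_lt_top hC (by simp))⟩
      simpa using hd.add ih
  refine ⟨hL, ?_⟩
  let F : ℕ → Lp ℂ 2 μ := fun n => (hL n).toLp (f n)
  have hF : ∀ n, edist (F n) (F (n + 1)) ≤ C / 2 ^ n := by
    intro n
    rw [edist_comm]
    simp only [F, Lp.edist_toLp_toLp]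
    exact hs n
  obtain ⟨G, hG⟩ := cauchySeq_tendsto_of_complete (cauchySeq_of_edist_le_geometric_two C hC hF)
  have hb : ∀ n, eLpNorm (f n - ⇑G) 2 μ ≤ 2 * C / 2 ^ n := by
    intro n
    have h1 := edist_le_of_edist_le_geometric_two_of_tendsto C hF hG n
    rw [Lp.edist_def] at h1
    refine le_trans (le_of_eq (eLpNorm_congr_ae ?_)) h1
    filter_upwards [(hL n).coeFn_toLp] with z hz
    simp only [Pi.sub_apply, F, hz]
  have hsum : ∑' n : ℕ, 2 * C / 2 ^ n ≠ ⊤ := by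
    simp only [div_eq_mul_inv, ENNReal.inv_pow]
    rw [ENNReal.tsum_mul_left, ENNReal.tsum_geometric]
    exact ENNReal.mul_ne_top (ENNReal.mul_ne_top (by simp) hC) (by simp)
  have ht : Tendsto (fun n => eLpNorm (f n - ⇑G) 2 μ) atTop (𝓝 0) :=
    tendsto_of_tendsto_of_tendsto_of_le_of_le tendsto_const_nhds
      (ENNReal.tendsto_atTop_zero_of_tsum_ne_top hsum) (fun n => zero_le) hb
  refine ⟨G, Lp.memLp G, ht, ?_⟩
  have hmG : ∀ n, AEMeasurable (fun z => ‖(f n - ⇑G) z‖ₑ ^ 2) μ := fun n =>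
    ((hm n).sub (Lp.aestronglyMeasurable G)).enorm.pow_const 2
  have hsq : ∀ n, ∫⁻ z, ‖(f n - ⇑G) z‖ₑ ^ 2 ∂μ ≤ 2 * C * (2 * C / 2 ^ n) := by
    intro n
    have h := eLpNorm_nnreal_pow_eq_lintegral (μ := μ) (f := f n - ⇑G) (p := 2) (by norm_num)
    have h2 : ((2 : NNReal) : ℝ≥0∞) = 2 := rfl
    have h3 : ((2 : NNReal) : ℝ) = ((2 : ℕ) : ℝ) := by norm_num
    rw [h2, h3] at h
    simp only [ENNReal.rpow_natCast] at h
    rw [← h, sq]
    refine mul_le_mul' ((hb n).trans ?_) (hb n)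
    rw [div_eq_mul_inv]
    exact mul_le_of_le_one_right' (ENNReal.inv_le_one.2 (one_le_pow₀ (by norm_num)))
  have hfin : ∫⁻ z, ∑' n, ‖(f n - ⇑G) z‖ₑ ^ 2 ∂μ ≠ ⊤ := by
    rw [lintegral_tsum hmG]
    refine ne_top_of_le_ne_top ?_ (ENNReal.tsum_le_tsum hsq)
    rw [ENNReal.tsum_mul_left]
    exact ENNReal.mul_ne_top (ENNReal.mul_ne_top (by simp) hC) hsum
  filter_upwards [ae_lt_top' (AEMeasurable.tsum hmG) hfin] with z hz
  have h1 := ENNReal.tendsto_atTop_zero_of_tsum_ne_top hz.ne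
  have h2 : Tendsto (fun n => ‖(f n - ⇑G) z‖ₑ) atTop (𝓝 0) := by
    have h3 := ((ENNReal.continuous_rpow_const (y := (1 / 2 : ℝ))).tendsto 0).comp h1
    have h4 : ∀ x : ℝ≥0∞, (x ^ 2) ^ (1 / 2 : ℝ) = x := fun x => by
      rw [← ENNReal.rpow_natCast, ← ENNReal.rpow_mul]
      norm_num
    simp only [Function.comp_def, h4] at h3
    simpa using h3
  rw [tendsto_iff_norm_sub_tendsto_zero]
  rw [← tendsto_zero_iff_enorm_tendsto_zero] at h2
  exact tendsto_zero_iff_norm_tendsto_zero.1 h2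

theorem sq_tendsto {a b : ℕ → ℝ≥0∞} (hb : Tendsto b atTop (𝓝 0)) (h : ∀ n, a n ^ 2 ≤ b n) :
    Tendsto a atTop (𝓝 0) := by
  have h1 : Tendsto (fun n => a n ^ 2) atTop (𝓝 0) :=
    tendsto_of_tendsto_of_tendsto_of_le_of_le tendsto_const_nhds hb (fun n => zero_le) h
  have h3 := ((ENNReal.continuous_rpow_const (y := (1 / 2 : ℝ))).tendsto 0).comp h1
  have h4 : ∀ x : ℝ≥0∞, (x ^ 2) ^ (1 / 2 : ℝ) = x := fun x => by
    rw [← ENNReal.rpow_natCast, ← ENNReal.rpow_mul]
    norm_num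
  simp only [Function.comp_def, h4] at h3
  simpa using h3

end Weyl2

open Weyl2 in
/-- Row WEYL2. -/
theorem weyl (h1 : Weyl1Stmt) : WeylStmt := by
  intro Ω f A hΩ hA hf h0 hs hen
  have hΩm : MeasurableSet Ω := hΩ.measurableSet
  have hm : ∀ n, AEStronglyMeasurable (f n) (volume.restrict Ω) := fun n =>
    (hf n).continuousOn.aestronglyMeasurable hΩm
  have h0' : eLpNorm (f 0) 2 (volume.restrict Ω) < ⊤ := by
    rw [nrm_zero_eq] at h0
    exact lt_top_iff_ne_top.2 fun h => h0 (by simp [h])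
  have hs' : ∀ n, eLpNorm (f (n + 1) - f n) 2 (volume.restrict Ω) ≤ (A + 1) / 2 ^ n := by
    intro n
    have h := hs n
    rw [nrm_zero_eq] at h
    rw [ENNReal.le_div_iff_mul_le (Or.inl (by simp)) (Or.inl (by simp))]
    set x := eLpNorm (f (n + 1) - f n) 2 (volume.restrict Ω) * 2 ^ n with hx
    have hx2 : x ^ 2 ≤ A := by
      refine le_trans (le_of_eq ?_) h
      rw [hx, mul_pow, ← pow_mul, mul_comm n 2, pow_mul, mul_comm]
      norm_num
    rcases le_total x 1 with h' | h'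
    · exact h'.trans le_add_self
    · calc x ≤ x ^ 2 := by
            rw [sq]
            exact le_mul_of_one_le_right' h'
        _ ≤ A + 1 := hx2.trans le_self_add
  obtain ⟨hL, g, hg, hgt, hae⟩ := fast (ENNReal.add_ne_top.2 ⟨hA, by simp⟩) hm h0' hs'
  have hgi : MemLp (Ω.indicator g) 2 volume := (memLp_indicator_iff_restrict hΩm).2 hg
  suffices hw : ∀ φ, Test Ω φ → ∀ k, ∫ z, Ω.indicator g z * db k φ z = 0 by
    obtain ⟨h, hh, hhg⟩ := h1 Ω (Ω.indicator g) hΩ hgi hw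
    refine ⟨h, hh, ?_⟩
    filter_upwards [hhg, hae, ae_restrict_mem hΩm] with z e1 e2 e3
    rw [e1, indicator_of_mem e3]
    exact e2
  intro φ hφ k
  have hφ' := hφ
  obtain ⟨p1, p2, p3⟩ := hφ'
  have hφ2 : MemLp φ 2 (volume.restrict Ω) :=
    (p1.continuous.memLp_of_hasCompactSupport p2).restrict Ω
  have hdc : HasCompactSupport (db k φ) :=
    HasCompactSupport.intro p2 fun z hz => db_zero_off k hz
  have hdφ2 : MemLp (db k φ) 2 (volume.restrict Ω) :=
    ((cont_db p1 k).memLp_of_hasCompactSupport hdc).restrict Ω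
  have e0 : ∫ z, Ω.indicator g z * db k φ z = ∫ z in Ω, g z * db k φ z := by
    rw [← integral_indicator hΩm]
    refine integral_congr_ae (Eventually.of_forall fun z => ?_)
    by_cases hz : z ∈ Ω <;> simp [hz]
  have e1 : ∀ n, ∫ z in Ω, f n z * db k φ z = -∫ z in Ω, db k (f n) z * φ z := by
    intro n
    rw [setIntegral_eq_integral_of_forall_compl_eq_zero,
      setIntegral_eq_integral_of_forall_compl_eq_zero]
    · exact ibp hΩ (hf n) hφ k
    · intro z hz
      simp [image_eq_zero_of_notMem_tsupport fun h => hz (p3 h)]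
    · intro z hz
      simp [db_zero_off k fun h => hz (p3 h)]
  have t1 : Tendsto (fun n => ∫ z in Ω, db k (f n) z * φ z) atTop (𝓝 0) := by
    refine tendsto_pair (fun n => (contOn_db hΩ (hf n) k).aestronglyMeasurable hΩm) hφ2 ?_
    refine sq_tendsto hen fun n => ?_
    rw [← nrm_zero_eq, en]
    fin_cases k
    · exact le_self_add
    · exact le_add_self
  have t2 : Tendsto (fun n => ∫ z in Ω, (f n - g) z * db k φ z) atTop (𝓝 0) :=
    tendsto_pair (fun n => (hm n).sub hg.1) hdφ2 hgt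
  have e2 : ∀ n, ∫ z in Ω, g z * db k φ z =
      -(∫ z in Ω, db k (f n) z * φ z) - ∫ z in Ω, (f n - g) z * db k φ z := by
    intro n
    have i1 : Integrable (fun z => f n z * db k φ z) (volume.restrict Ω) :=
      (hL n).integrable_mul hdφ2
    have i2 : Integrable (fun z => (f n - g) z * db k φ z) (volume.restrict Ω) :=
      ((hL n).sub hg).integrable_mul hdφ2
    rw [← e1 n, ← integral_sub i1 i2]
    refine integral_congr_ae (Eventually.of_forall fun z => ?_)
    simp only [Pi.sub_apply]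
    ring
  have t3 := t1.neg.sub t2
  simp only [← e2, neg_zero, sub_zero] at t3
  rw [e0]
  exact tendsto_nhds_unique tendsto_const_nhds t3

end Pool.Agent.MP54.PDE

end
end MrgPart3

-- ======== part 4: formerly Pool.Agent.MP_54e5d7_al.atc.pde.Basic
section MrgPart4

/-! Row BASIC: the basic estimate for test functions and test forms. -/

open Set MeasureTheory Complex Filter
open scoped ContDiff ENNReal Topology ComplexConjugate

noncomputable section

namespace Pool.Agent.MP54.PDE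

namespace Bas

variable {u v g h : V → ℂ} {ψ : V → ℝ} {z : V}

lemma dif (hu : ContDiffAt ℝ ∞ u z) : DifferentiableAt ℝ u z := hu.differentiableAt (by simp)

lemma fd_smooth (hu : ContDiffAt ℝ ∞ u z) : ContDiffAt ℝ ∞ (fderiv ℝ u) z :=
  hu.fderiv_right (by simp)

lemma ap_smooth (hu : ContDiffAt ℝ ∞ u z) (a : V) :
    ContDiffAt ℝ ∞ (fun x => fderiv ℝ u x a) z :=
  (fd_smooth hu).clm_apply contDiffAt_const

lemma dz_smooth (k : Fin 2) (hu : ContDiffAt ℝ ∞ u z) : ContDiffAt ℝ ∞ (dz k u) z :=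
  ((ap_smooth hu _).sub (contDiffAt_const.mul (ap_smooth hu _))).div_const 2

lemma db_smooth (k : Fin 2) (hu : ContDiffAt ℝ ∞ u z) : ContDiffAt ℝ ∞ (db k u) z :=
  ((ap_smooth hu _).add (contDiffAt_const.mul (ap_smooth hu _))).div_const 2

lemma conj_smooth (hu : ContDiffAt ℝ ∞ u z) : ContDiffAt ℝ ∞ (fun x => conj (u x)) z :=
  (conjCLE.contDiff.contDiffAt).comp z hu

lemma cx_smooth (hψ : ContDiffAt ℝ ∞ ψ z) : ContDiffAt ℝ ∞ (cx ψ) z :=
  (ofRealCLM.contDiff.contDiffAt).comp z hψ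

lemma dl_smooth (k : Fin 2) (hψ : ContDiffAt ℝ ∞ ψ z) (hu : ContDiffAt ℝ ∞ u z) :
    ContDiffAt ℝ ∞ (dl ψ k u) z :=
  (dz_smooth k hu).sub ((dz_smooth k (cx_smooth hψ)).mul hu)

/-- The weight as a complex function. -/
def W (ψ : V → ℝ) (z : V) : ℂ := Complex.exp (-cx ψ z)

lemma W_eq (ψ : V → ℝ) (z : V) : W ψ z = (Real.exp (-ψ z) : ℂ) := by
  simp [W, cx]

lemma W_smooth (hψ : ContDiffAt ℝ ∞ ψ z) : ContDiffAt ℝ ∞ (W ψ) z :=
  (cx_smooth hψ).neg.cexp

lemma fd_mul (hu : ContDiffAt ℝ ∞ u z) (hv : ContDiffAt ℝ ∞ v z) (a : V) :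
    fderiv ℝ (fun x => u x * v x) z a = fderiv ℝ u z a * v z + u z * fderiv ℝ v z a := by
  rw [fderiv_fun_mul (dif hu) (dif hv)]
  simp only [add_apply, smul_apply, smul_eq_mul]
  ring

lemma fd_sub (hu : ContDiffAt ℝ ∞ u z) (hv : ContDiffAt ℝ ∞ v z) (a : V) :
    fderiv ℝ (fun x => u x - v x) z a = fderiv ℝ u z a - fderiv ℝ v z a := by
  rw [fderiv_fun_sub (dif hu) (dif hv)]
  rfl

lemma fd_conj (hu : ContDiffAt ℝ ∞ u z) (a : V) :
    fderiv ℝ (fun x => conj (u x)) z a = conj (fderiv ℝ u z a) := by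
  have h := (conjCLE.toContinuousLinearMap.hasFDerivAt.comp z (dif hu).hasFDerivAt).fderiv
  exact congrArg (fun L : V →L[ℝ] ℂ => L a) h

lemma fd_W (hψ : ContDiffAt ℝ ∞ ψ z) (a : V) :
    fderiv ℝ (W ψ) z a = -(fderiv ℝ (cx ψ) z a) * W ψ z := by
  have h := ((dif (cx_smooth hψ)).hasFDerivAt.neg.cexp).fderiv
  have h2 := congrArg (fun L : V →L[ℝ] ℂ => L a) h
  simp only [smul_apply, neg_apply, smul_eq_mul,
    Pi.neg_apply] at h2
  rw [mul_comm]
  exact h2

lemma dz_mul (k : Fin 2) (hu : ContDiffAt ℝ ∞ u z) (hv : ContDiffAt ℝ ∞ v z) :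
    dz k (fun x => u x * v x) z = dz k u z * v z + u z * dz k v z := by
  simp only [dz, fd_mul hu hv]; ring

lemma db_mul (k : Fin 2) (hu : ContDiffAt ℝ ∞ u z) (hv : ContDiffAt ℝ ∞ v z) :
    db k (fun x => u x * v x) z = db k u z * v z + u z * db k v z := by
  simp only [db, fd_mul hu hv]; ring

lemma db_sub (k : Fin 2) (hu : ContDiffAt ℝ ∞ u z) (hv : ContDiffAt ℝ ∞ v z) :
    db k (fun x => u x - v x) z = db k u z - db k v z := by
  simp only [db, fd_sub hu hv]; ring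

lemma dz_conj (k : Fin 2) (hu : ContDiffAt ℝ ∞ u z) :
    dz k (fun x => conj (u x)) z = conj (db k u z) := by
  simp only [dz, db, fd_conj hu, map_div₀, map_add, map_mul, conj_I, map_ofNat]; ring

lemma db_conj (k : Fin 2) (hu : ContDiffAt ℝ ∞ u z) :
    db k (fun x => conj (u x)) z = conj (dz k u z) := by
  simp only [dz, db, fd_conj hu, map_div₀, map_sub, map_mul, conj_I, map_ofNat]; ring

lemma dz_W (k : Fin 2) (hψ : ContDiffAt ℝ ∞ ψ z) :
    dz k (W ψ) z = -(dz k (cx ψ) z) * W ψ z := by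
  simp only [dz, fd_W hψ]; ring

lemma db_W (k : Fin 2) (hψ : ContDiffAt ℝ ∞ ψ z) :
    db k (W ψ) z = -(conj (dz k (cx ψ) z)) * W ψ z := by
  have h1 : (fun x => conj (cx ψ x)) = cx ψ := by
    funext x; simp [cx]
  rw [← db_conj k (cx_smooth hψ), h1]
  simp only [db, fd_W hψ]; ring

lemma fd_ap (hu : ContDiffAt ℝ ∞ u z) (a b : V) :
    fderiv ℝ (fun x => fderiv ℝ u x a) z b = fderiv ℝ (fderiv ℝ u) z b a := by
  rw [fderiv_clm_apply ((fd_smooth hu).differentiableAt (by simp)) (differentiableAt_const a)]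
  simp

lemma fd_dz (k : Fin 2) (hu : ContDiffAt ℝ ∞ u z) (b : V) :
    fderiv ℝ (dz k u) z b = (fderiv ℝ (fderiv ℝ u) z b (e k) -
      I * fderiv ℝ (fderiv ℝ u) z b (I • e k)) / 2 := by
  have h1 : dz k u = fun x => (fderiv ℝ u x (e k) - I * fderiv ℝ u x (I • e k)) * (1 / 2) := by
    funext x; simp only [dz]; ring
  rw [h1, fd_mul ((ap_smooth hu _).sub (contDiffAt_const.mul (ap_smooth hu _))) contDiffAt_const,
    fd_sub (ap_smooth hu _) (contDiffAt_const.mul (ap_smooth hu _)),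
    fd_mul contDiffAt_const (ap_smooth hu _), fd_ap hu, fd_ap hu]
  simp
  ring

lemma fd_db (k : Fin 2) (hu : ContDiffAt ℝ ∞ u z) (b : V) :
    fderiv ℝ (db k u) z b = (fderiv ℝ (fderiv ℝ u) z b (e k) +
      I * fderiv ℝ (fderiv ℝ u) z b (I • e k)) / 2 := by
  have h1 : db k u = fun x => (fderiv ℝ u x (e k) - (-I) * fderiv ℝ u x (I • e k)) * (1 / 2) := by
    funext x; simp only [db]; ring
  rw [h1, fd_mul ((ap_smooth hu _).sub (contDiffAt_const.mul (ap_smooth hu _))) contDiffAt_const,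
    fd_sub (ap_smooth hu _) (contDiffAt_const.mul (ap_smooth hu _)),
    fd_mul contDiffAt_const (ap_smooth hu _), fd_ap hu, fd_ap hu]
  simp
  ring

lemma symm2 {F : Type} [NormedAddCommGroup F] [NormedSpace ℝ F] {f : V → F}
    (hu : ContDiffAt ℝ ∞ f z) (a b : V) :
    fderiv ℝ (fderiv ℝ f) z a b = fderiv ℝ (fderiv ℝ f) z b a :=
  (hu.isSymmSndFDerivAt (by simp; exact WithTop.coe_le_coe.2 le_top)).eq a b

lemma comm (j k : Fin 2) (hu : ContDiffAt ℝ ∞ u z) :
    dz j (db k u) z = db k (dz j u) z := by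
  rw [dz, db, fd_db k hu, fd_db k hu, fd_dz j hu, fd_dz j hu, symm2 hu (e j) (e k),
    symm2 hu (e j) (I • e k), symm2 hu (I • e j) (e k), symm2 hu (I • e j) (I • e k)]
  ring

/-- The divergence expression. -/
def K (ψ : V → ℝ) (j k : Fin 2) (g h : V → ℂ) (z : V) : ℂ :=
  dz j (fun x => db k g x * W ψ x * conj (h x)) z -
    db k (fun x => dl ψ j g x * W ψ x * conj (h x)) z

lemma K_eq (j k : Fin 2) (hψ : ContDiffAt ℝ ∞ ψ z) (hg : ContDiffAt ℝ ∞ g z)
    (hh : ContDiffAt ℝ ∞ h z) :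
    K ψ j k g h z = (db k g z * conj (db j h z) - dl ψ j g z * conj (dl ψ k h z) +
      db k (dz j (cx ψ)) z * g z * conj (h z)) * W ψ z := by
  have h1 : db k (dl ψ j g) z =
      db k (dz j g) z - (db k (dz j (cx ψ)) z * g z + dz j (cx ψ) z * db k g z) := by
    rw [← db_mul k (dz_smooth j (cx_smooth hψ)) hg,
      ← db_sub k (dz_smooth j hg) ((dz_smooth j (cx_smooth hψ)).mul hg)]
    rfl
  rw [K, dz_mul j ((db_smooth k hg).mul (W_smooth hψ)) (conj_smooth hh),
    dz_mul j (db_smooth k hg) (W_smooth hψ),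
    db_mul k ((dl_smooth j hψ hg).mul (W_smooth hψ)) (conj_smooth hh),
    db_mul k (dl_smooth j hψ hg) (W_smooth hψ), dz_conj j hh, db_conj k hh, dz_W j hψ,
    db_W k hψ, h1, comm j k hg]
  simp only [dl, map_sub, map_mul]
  ring

lemma int_fd {F : V → ℂ} (hF : ContDiff ℝ ∞ F) (hc : HasCompactSupport F) (a : V) :
    Integrable (fun z => fderiv ℝ F z a) ∧ ∫ z, fderiv ℝ F z a = 0 := by
  have hi : Integrable (fun z => fderiv ℝ F z a) :=
    (contDiff_iff_contDiffAt.2 fun z => ap_smooth hF.contDiffAt a).continuous.integrable_of_hasCompactSupport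
      (hc.fderiv_apply ℝ a)
  refine ⟨hi, ?_⟩
  have : (volume : Measure V).IsAddHaarMeasure := Measure.prod.instIsAddHaarMeasure _ _
  have h := integral_mul_fderiv_eq_neg_fderiv_mul_of_integrable (μ := (volume : Measure V))
    (f := fun _ : V => (1 : ℂ)) (g := F) (v := a) (by simp) (by simpa using hi)
    (by simpa using hF.continuous.integrable_of_hasCompactSupport hc)
    (fun x _ => differentiableAt_const _) (fun x _ => dif hF.contDiffAt)
  simpa using h

lemma int_dz {F : V → ℂ} (hF : ContDiff ℝ ∞ F) (hc : HasCompactSupport F) (k : Fin 2) :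
    Integrable (dz k F) ∧ ∫ z, dz k F z = 0 := by
  obtain ⟨h1, h2⟩ := int_fd hF hc (e k)
  obtain ⟨h3, h4⟩ := int_fd hF hc (I • e k)
  refine ⟨(h1.sub (h3.const_mul I)).div_const 2, ?_⟩
  simp only [dz]
  rw [integral_div, integral_sub h1 (h3.const_mul I), integral_const_mul, h2, h4]
  simp

lemma int_db {F : V → ℂ} (hF : ContDiff ℝ ∞ F) (hc : HasCompactSupport F) (k : Fin 2) :
    Integrable (db k F) ∧ ∫ z, db k F z = 0 := by
  obtain ⟨h1, h2⟩ := int_fd hF hc (e k)
  obtain ⟨h3, h4⟩ := int_fd hF hc (I • e k)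
  refine ⟨(h1.add (h3.const_mul I)).div_const 2, ?_⟩
  simp only [db]
  rw [integral_div, integral_add h1 (h3.const_mul I), integral_const_mul, h2, h4]
  simp

lemma ev_zero (A : V → ℂ) (hz : z ∉ tsupport h) :
    (fun x => A x * conj (h x)) =ᶠ[𝓝 z] fun _ => 0 := by
  filter_upwards [notMem_tsupport_iff_eventuallyEq.1 hz] with x hx
  simp [hx]

lemma mul_test {A : V → ℂ} (hA : ∀ z ∈ tsupport h, ContDiffAt ℝ ∞ A z) (hh : ContDiff ℝ ∞ h)
    (hc : HasCompactSupport h) :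
    ContDiff ℝ ∞ (fun x => A x * conj (h x)) ∧ HasCompactSupport (fun x => A x * conj (h x)) := by
  refine ⟨contDiff_iff_contDiffAt.2 fun z => ?_, ?_⟩
  · by_cases hz : z ∈ tsupport h
    · exact (hA z hz).mul (conj_smooth hh.contDiffAt)
    · exact contDiffAt_const.congr_of_eventuallyEq (ev_zero A hz)
  · refine hc.mono fun x hx => ?_
    intro h0
    exact hx (by simp [h0])

lemma int_K (j k : Fin 2) (hψ : ∀ z ∈ tsupport h, ContDiffAt ℝ ∞ ψ z) (hg : ContDiff ℝ ∞ g)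
    (hh : ContDiff ℝ ∞ h) (hc : HasCompactSupport h) :
    Integrable (K ψ j k g h) ∧ ∫ z, K ψ j k g h z = 0 := by
  obtain ⟨a1, a2⟩ := mul_test (A := fun x => db k g x * W ψ x)
    (fun z hz => (db_smooth k hg.contDiffAt).mul (W_smooth (hψ z hz))) hh hc
  obtain ⟨b1, b2⟩ := mul_test (A := fun x => dl ψ j g x * W ψ x)
    (fun z hz => (dl_smooth j (hψ z hz) hg.contDiffAt).mul (W_smooth (hψ z hz))) hh hc
  obtain ⟨c1, c2⟩ := int_dz a1 a2 j
  obtain ⟨d1, d2⟩ := int_db b1 b2 k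
  refine ⟨c1.sub d1, ?_⟩
  simp only [K]
  rw [integral_sub c1 d1, c2, d2, sub_zero]

lemma K_zero (j k : Fin 2) (hz : z ∉ tsupport h) : K ψ j k g h z = 0 := by
  have h1 := (ev_zero (fun x => db k g x * W ψ x) hz).fderiv_eq (𝕜 := ℝ)
  have h2 := (ev_zero (fun x => dl ψ j g x * W ψ x) hz).fderiv_eq (𝕜 := ℝ)
  rw [K, dz, db, h1, h2]
  simp

lemma fd2_cx (hψ : ContDiffAt ℝ ∞ ψ z) (a b : V) :
    fderiv ℝ (fderiv ℝ (cx ψ)) z a b = (fderiv ℝ (fderiv ℝ ψ) z a b : ℂ) := by
  have h0 : ∀ᶠ x in 𝓝 z, DifferentiableAt ℝ ψ x := by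
    filter_upwards [(hψ.of_le (m := 1) (by simp)).eventually (by simp)] with x hx
    exact hx.differentiableAt (by simp)
  have h1 : (fun x => fderiv ℝ (cx ψ) x b) =ᶠ[𝓝 z] fun x => ((fderiv ℝ ψ x b : ℝ) : ℂ) := by
    filter_upwards [h0] with x hx
    have h := (ofRealCLM.hasFDerivAt.comp x hx.hasFDerivAt).fderiv
    exact congrArg (fun L : V →L[ℝ] ℂ => L b) h
  have h2 : DifferentiableAt ℝ (fderiv ℝ ψ) z :=
    (hψ.fderiv_right (m := ∞) (by simp)).differentiableAt (by simp)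
  have h3 : DifferentiableAt ℝ (fun x => fderiv ℝ ψ x b) z :=
    h2.clm_apply (differentiableAt_const b)
  have h4 : fderiv ℝ (fun x => fderiv ℝ ψ x b) z a = fderiv ℝ (fderiv ℝ ψ) z a b := by
    rw [fderiv_clm_apply h2 (differentiableAt_const b)]
    simp
  rw [← fd_ap (cx_smooth hψ), h1.fderiv_eq, ← h4]
  have h := (ofRealCLM.hasFDerivAt.comp z h3.hasFDerivAt).fderiv
  exact congrArg (fun L : V →L[ℝ] ℂ => L a) h

lemma lev_eq (hψ : ContDiffAt ℝ ∞ ψ z) (x y : ℂ) :
    lev ψ z (x, y) = (db 0 (dz 0 (cx ψ)) z * x * conj x + db 1 (dz 1 (cx ψ)) z * y * conj y +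
      2 * (db 0 (dz 1 (cx ψ)) z * y * conj x)).re := by
  have hc := cx_smooth hψ
  have e1 : ((x, y) : V) = x.re • e 0 + x.im • (I • e 0) + y.re • e 1 + y.im • (I • e 1) := by
    ext <;> simp [e]
  have e2 : I • ((x, y) : V) =
      (-x.im) • e 0 + x.re • (I • e 0) + (-y.im) • e 1 + y.re • (I • e 1) := by
    ext <;> apply Complex.ext <;> simp [e]
  simp only [db, fd_dz _ hc, fd2_cx hψ]
  rw [lev, e2, e1]
  simp only [map_add, map_smul, add_apply, smul_apply,
    smul_eq_mul]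
  rw [symm2 hψ (e 1) (e 0), symm2 hψ (I • e 1) (e 0), symm2 hψ (e 1) (I • e 0),
    symm2 hψ (I • e 1) (I • e 0), symm2 hψ (I • e 0) (e 0), symm2 hψ (I • e 1) (e 1)]
  simp
  ring

lemma int_w {f : V → ℝ} {S : Set V} (hS : IsCompact S) (hf : ContinuousOn f S)
    (h0 : ∀ z, z ∉ S → f z = 0) (hψ : ContinuousOn ψ S) :
    Integrable (fun z => f z * Real.exp (-ψ z)) := by
  refine IntegrableOn.integrable_of_forall_notMem_eq_zero (s := S)
    (ContinuousOn.integrableOn_compact hS (hf.mul hψ.neg.rexp)) fun z hz => ?_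
  simp [h0 z hz]

lemma fd_zero (hz : z ∉ tsupport h) : fderiv ℝ h z = 0 := by
  rw [(notMem_tsupport_iff_eventuallyEq.1 hz).fderiv_eq]
  simp

lemma db_zero (k : Fin 2) (hz : z ∉ tsupport h) : db k h z = 0 := by
  simp [db, fd_zero hz]

lemma dl_zero (k : Fin 2) (hz : z ∉ tsupport h) : dl ψ k h z = 0 := by
  simp [dl, dz, fd_zero hz, image_eq_zero_of_notMem_tsupport hz]

lemma finish {A B : V → ℝ} {E : V → ℂ} {c : ℝ} (hA : Integrable A) (hB : Integrable B)
    (hE : Integrable E) (h0 : ∫ z, E z = 0) (hle : ∀ z, c * A z + (E z).re ≤ B z) :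
    c * ∫ z, A z ≤ ∫ z, B z := by
  have h1 : ∫ z, (E z).re = 0 := by
    have := integral_re hE
    simp only [RCLike.re_to_complex] at this
    rw [this, h0]; simp
  have h2 : Integrable (fun z => (E z).re) := hE.re
  have h3 := integral_mono ((hA.const_mul c).add h2) hB hle
  simp only [Pi.add_apply] at h3
  rwa [integral_add (hA.const_mul c) h2, h1, integral_const_mul, add_zero] at h3

lemma alg0 (a d p x : ℂ) (w c : ℝ) (hw : 0 ≤ w)
    (hp : (p * x * conj x).re ≤ -c * ‖x‖ ^ 2) :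
    c * (‖x‖ ^ 2 * w) + ((a * conj a - d * conj d + p * x * conj x) * (w : ℂ)).re ≤
      ‖a‖ ^ 2 * w := by
  have h1 : ((a * conj a - d * conj d + p * x * conj x) * (w : ℂ)).re =
      (‖a‖ ^ 2 - ‖d‖ ^ 2 + (p * x * conj x).re) * w := by
    rw [re_mul_ofReal, add_re, sub_re, mul_conj, mul_conj, ofReal_re, ofReal_re,
      normSq_eq_norm_sq, normSq_eq_norm_sq]
  rw [h1]
  nlinarith [mul_nonneg (sq_nonneg ‖d‖) hw, mul_le_mul_of_nonneg_right hp hw]

lemma alg1 (a b d00 d11 d01 d10 p00 p11 p10 x y : ℂ) (w c : ℝ) (hw : 0 ≤ w)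
    (hp : (p00 * conj y * conj (conj y) + p11 * (-conj x) * conj (-conj x) +
      2 * (p10 * (-conj x) * conj (conj y))).re ≤ -c * (‖conj y‖ ^ 2 + ‖-conj x‖ ^ 2)) :
    c * ((‖x‖ ^ 2 + ‖y‖ ^ 2) * w) +
      ((a * conj a - d01 * conj d01 + p00 * y * conj y) * (w : ℂ) +
        (b * conj b - d10 * conj d10 + p11 * x * conj x) * (w : ℂ) -
        2 * ((a * conj b - d11 * conj d00 + p10 * y * conj x) * (w : ℂ))).re ≤
      ‖a - b‖ ^ 2 * w + ‖d00 + d11‖ ^ 2 * w := by
  have h0 : p00 * conj y * conj (conj y) + p11 * (-conj x) * conj (-conj x) +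
      2 * (p10 * (-conj x) * conj (conj y)) =
      p00 * y * conj y + p11 * x * conj x - 2 * (p10 * y * conj x) := by
    simp only [map_neg, conj_conj]; ring
  rw [h0, norm_neg, norm_conj, norm_conj] at hp
  set L := (p00 * y * conj y + p11 * x * conj x - 2 * (p10 * y * conj x)).re with hL
  have h1 : ((a * conj a - d01 * conj d01 + p00 * y * conj y) * (w : ℂ) +
        (b * conj b - d10 * conj d10 + p11 * x * conj x) * (w : ℂ) -
        2 * ((a * conj b - d11 * conj d00 + p10 * y * conj x) * (w : ℂ))).re =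
      (‖a - b‖ ^ 2 + ‖d00 + d11‖ ^ 2 - (‖d00‖ ^ 2 + ‖d11‖ ^ 2 + ‖d01‖ ^ 2 + ‖d10‖ ^ 2) + L) * w := by
    simp only [hL, ← normSq_eq_norm_sq, normSq_apply]
    simp
    ring
  rw [h1]
  nlinarith [mul_nonneg (sq_nonneg ‖d00‖) hw, mul_nonneg (sq_nonneg ‖d11‖) hw,
    mul_nonneg (sq_nonneg ‖d01‖) hw, mul_nonneg (sq_nonneg ‖d10‖) hw,
    mul_le_mul_of_nonneg_right hp hw]

lemma nrm_eq {U S : Set V} {f : V → ℂ} (hS : IsCompact S) (hSU : S ⊆ U) (hf : ContinuousOn f S)
    (h0 : ∀ z, z ∉ S → f z = 0) (hψ : ContinuousOn ψ S) :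
    nrm ψ U f = ENNReal.ofReal (∫ z, ‖f z‖ ^ 2 * Real.exp (-ψ z)) := by
  rw [ofReal_integral_eq_lintegral_ofReal
    (int_w (f := fun z => ‖f z‖ ^ 2) hS (hf.norm.pow 2) (fun z hz => by simp [h0 z hz]) hψ)
    (Eventually.of_forall fun z => by positivity), nrm]
  refine setLIntegral_eq_of_support_subset fun z hz => hSU ?_
  by_contra hzS
  exact hz (by simp [h0 z hzS])

end Bas

open Bas

theorem basic : BasicStmt := by
  intro ψ c U hψ hN v0 v1 ⟨s0, c0, t0⟩ ⟨s1, c1, t1⟩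
  have hS : IsCompact (tsupport v0 ∪ tsupport v1) := c0.isCompact.union c1.isCompact
  have hp : ∀ z, ContDiffAt ℝ ∞ ψ z := fun z => hψ.contDiffAt
  have cdb : ∀ k {v : V → ℂ}, ContDiff ℝ ∞ v → Continuous (db k v) := fun k v hv =>
    (contDiff_iff_contDiffAt.2 fun z => db_smooth k hv.contDiffAt).continuous
  have cdl : ∀ k {v : V → ℂ}, ContDiff ℝ ∞ v → Continuous (dl ψ k v) := fun k v hv =>
    (contDiff_iff_contDiffAt.2 fun z => dl_smooth k (hp z) hv.contDiffAt).continuous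
  have iA : Integrable (fun z => (‖v0 z‖ ^ 2 + ‖v1 z‖ ^ 2) * Real.exp (-ψ z)) := by
    refine int_w hS ((s0.continuous.norm.pow 2).add (s1.continuous.norm.pow 2)).continuousOn
      (fun z hz => ?_) hψ.continuous.continuousOn
    rw [mem_union, not_or] at hz
    simp [image_eq_zero_of_notMem_tsupport hz.1, image_eq_zero_of_notMem_tsupport hz.2]
  have iB : Integrable (fun z => ‖db 0 v1 z - db 1 v0 z‖ ^ 2 * Real.exp (-ψ z)) := by
    refine int_w hS (((cdb 0 s1).sub (cdb 1 s0)).norm.pow 2).continuousOn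
      (fun z hz => ?_) hψ.continuous.continuousOn
    rw [mem_union, not_or] at hz
    simp [db_zero _ hz.1, db_zero _ hz.2]
  have iC : Integrable (fun z => ‖dl ψ 0 v0 z + dl ψ 1 v1 z‖ ^ 2 * Real.exp (-ψ z)) := by
    refine int_w hS (((cdl 0 s0).add (cdl 1 s1)).norm.pow 2).continuousOn
      (fun z hz => ?_) hψ.continuous.continuousOn
    rw [mem_union, not_or] at hz
    simp [dl_zero _ hz.1, dl_zero _ hz.2]
  obtain ⟨a1, a2⟩ := int_K (ψ := ψ) 0 0 (fun z _ => hp z) s1 s1 c1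
  obtain ⟨b1, b2⟩ := int_K (ψ := ψ) 1 1 (fun z _ => hp z) s0 s0 c0
  obtain ⟨d1, d2⟩ := int_K (ψ := ψ) 1 0 (fun z _ => hp z) s1 s0 c0
  rw [← integral_add iB iC]
  refine finish (E := fun z => K ψ 0 0 v1 v1 z + K ψ 1 1 v0 v0 z - 2 * K ψ 1 0 v1 v0 z) iA
    (iB.add iC) ((a1.add b1).sub (d1.const_mul 2)) ?_ fun z => ?_
  · rw [integral_sub (f := fun z => K ψ 0 0 v1 v1 z + K ψ 1 1 v0 v0 z) (a1.add b1)
      (d1.const_mul 2), integral_add a1 b1, integral_const_mul, a2, b2, d2]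
    simp
  · rw [K_eq 0 0 (hp z) s1.contDiffAt s1.contDiffAt, K_eq 1 1 (hp z) s0.contDiffAt s0.contDiffAt,
      K_eq 1 0 (hp z) s1.contDiffAt s0.contDiffAt, W_eq]
    refine alg1 _ _ _ _ _ _ _ _ _ _ _ _ _ (Real.exp_pos _).le ?_
    by_cases hz : z ∈ U
    · rw [← lev_eq (hp z)]
      exact hN z hz _
    · simp [image_eq_zero_of_notMem_tsupport fun h => hz (t0 h),
        image_eq_zero_of_notMem_tsupport fun h => hz (t1 h)]

theorem basic0 : Basic0Stmt := by
  intro ψ c U hU hψ hN w ⟨s, cs, t⟩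
  have hp : ∀ z ∈ U, ContDiffAt ℝ ∞ ψ z := fun z hz => hψ.contDiffAt (hU.mem_nhds hz)
  have hc : ContinuousOn ψ (tsupport w) := hψ.continuousOn.mono t
  have cdb : Continuous (db 0 w) :=
    (contDiff_iff_contDiffAt.2 fun z => db_smooth 0 s.contDiffAt).continuous
  obtain ⟨a1, a2⟩ := int_K (ψ := ψ) 0 0 (fun z hz => hp z (t hz)) s s cs
  have key : c * ∫ z, ‖w z‖ ^ 2 * Real.exp (-ψ z) ≤ ∫ z, ‖db 0 w z‖ ^ 2 * Real.exp (-ψ z) := by
    refine finish (int_w cs.isCompact (s.continuous.norm.pow 2).continuousOn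
      (fun z hz => by simp [image_eq_zero_of_notMem_tsupport hz]) hc)
      (int_w cs.isCompact (cdb.norm.pow 2).continuousOn
      (fun z hz => by simp [db_zero _ hz]) hc) a1 a2 fun z => ?_
    by_cases hz : z ∈ tsupport w
    · rw [K_eq 0 0 (hp z (t hz)) s.contDiffAt s.contDiffAt, W_eq]
      refine alg0 _ _ _ _ _ _ (Real.exp_pos _).le ?_
      have h1 := hN z (t hz) (w z, 0)
      rw [lev_eq (hp z (t hz))] at h1
      simpa using h1
    · simp [K_zero 0 0 hz, image_eq_zero_of_notMem_tsupport hz, db_zero _ hz]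
  refine le_trans ?_ (le_self_add (b := nrm ψ U (db 1 w)))
  rw [nrm_eq cs.isCompact t s.continuous.continuousOn
      (fun z hz => image_eq_zero_of_notMem_tsupport hz) hc,
    nrm_eq cs.isCompact t cdb.continuousOn (fun z hz => db_zero _ hz) hc]
  rcases le_total c 0 with h | h
  · simp [ENNReal.ofReal_of_nonpos h]
  · rw [← ENNReal.ofReal_mul h]
    exact ENNReal.ofReal_le_ofReal key

end Pool.Agent.MP54.PDE

end
end MrgPart4

-- ======== part 5: formerly Pool.Agent.MP_54e5d7_al.atc.pde.LocA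
section MrgPart5

/-! Row LOC, first part: calculus with the Wirtinger derivatives and weighted norms. -/

open Set MeasureTheory Complex Filter
open scoped ContDiff ENNReal Topology ComplexConjugate Manifold

noncomputable section

namespace Pool.Agent.MP54.PDE.Loc

theorem fd_smooth {u : V → ℂ} (hu : ContDiff ℝ ∞ u) (v : V) :
    ContDiff ℝ ∞ (fun z => fderiv ℝ u z v) :=
  (hu.fderiv_right (m := ∞) (by simp)).clm_apply contDiff_const

theorem db_smooth {u : V → ℂ} (hu : ContDiff ℝ ∞ u) (k : Fin 2) : ContDiff ℝ ∞ (db k u) := by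
  unfold db
  exact ((fd_smooth hu _).add (contDiff_const.mul (fd_smooth hu _))).div_const 2

theorem dz_smooth {u : V → ℂ} (hu : ContDiff ℝ ∞ u) (k : Fin 2) : ContDiff ℝ ∞ (dz k u) := by
  unfold dz
  exact ((fd_smooth hu _).sub (contDiff_const.mul (fd_smooth hu _))).div_const 2

theorem db_zero {u : V → ℂ} {z : V} (hz : z ∉ tsupport u) (k : Fin 2) : db k u z = 0 := by
  have h : fderiv ℝ u z = 0 := by
    by_contra h
    exact hz (support_fderiv_subset ℝ h)
  simp [db, h]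

theorem dz_zero {u : V → ℂ} {z : V} (hz : z ∉ tsupport u) (k : Fin 2) : dz k u z = 0 := by
  have h : fderiv ℝ u z = 0 := by
    by_contra h
    exact hz (support_fderiv_subset ℝ h)
  simp [dz, h]

theorem db_cs {u : V → ℂ} (hu : HasCompactSupport u) (k : Fin 2) : HasCompactSupport (db k u) :=
  HasCompactSupport.intro hu fun _ hz => db_zero hz k

theorem dz_cs {u : V → ℂ} (hu : HasCompactSupport u) (k : Fin 2) : HasCompactSupport (dz k u) :=
  HasCompactSupport.intro hu fun _ hz => dz_zero hz k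

theorem db_congr {u v : V → ℂ} {z : V} (h : u =ᶠ[𝓝 z] v) (k : Fin 2) : db k u z = db k v z := by
  simp only [db, h.fderiv_eq]

theorem db_mul {u v : V → ℂ} {z : V} (hu : DifferentiableAt ℝ u z) (hv : DifferentiableAt ℝ v z)
    (k : Fin 2) : db k (fun x => u x * v x) z = u z * db k v z + db k u z * v z := by
  simp only [db, fderiv_fun_mul hu hv, add_apply,
    smul_apply, smul_eq_mul]
  ring

theorem dz_mul {u v : V → ℂ} {z : V} (hu : DifferentiableAt ℝ u z) (hv : DifferentiableAt ℝ v z)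
    (k : Fin 2) : dz k (fun x => u x * v x) z = u z * dz k v z + dz k u z * v z := by
  simp only [dz, fderiv_fun_mul hu hv, add_apply,
    smul_apply, smul_eq_mul]
  ring

theorem db_sub {u v : V → ℂ} {z : V} (hu : DifferentiableAt ℝ u z) (hv : DifferentiableAt ℝ v z)
    (k : Fin 2) : db k (u - v) z = db k u z - db k v z := by
  simp only [db, fderiv_sub hu hv, sub_apply]
  ring

theorem conj_db_conj {u : V → ℂ} {z : V} (hu : DifferentiableAt ℝ u z) (k : Fin 2) :
    conj (db k (fun x => conj (u x)) z) = dz k u z := by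
  have h : HasFDerivAt (fun x => conj (u x))
      ((conjCLE : ℂ →L[ℝ] ℂ).comp (fderiv ℝ u z)) z :=
    (conjCLE : ℂ →L[ℝ] ℂ).hasFDerivAt.comp z hu.hasFDerivAt
  simp only [db, dz, h.fderiv, ContinuousLinearMap.comp_apply, ContinuousLinearEquiv.coe_coe,
    conjCLE_apply, map_div₀, map_add, map_mul, conj_conj, conj_I, map_ofNat]
  ring

theorem dz_exp {u : V → ℂ} {z : V} (hu : DifferentiableAt ℝ u z) (k : Fin 2) :
    dz k (fun x => cexp (u x)) z = cexp (u z) * dz k u z := by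
  have h := hu.hasFDerivAt.cexp
  simp only [dz, h.fderiv, smul_apply, smul_eq_mul]
  ring

theorem fd_fd {u : V → ℂ} (hu : ContDiff ℝ ∞ u) (z v w : V) :
    fderiv ℝ (fun y => fderiv ℝ u y w) z v = fderiv ℝ (fderiv ℝ u) z v w := by
  have h1 : DifferentiableAt ℝ (fderiv ℝ u) z :=
    ((hu.fderiv_right (m := ∞) (by simp)).differentiable (by simp)) z
  rw [fderiv_clm_apply h1 (differentiableAt_const w)]
  simp

theorem fd_db {u : V → ℂ} (hu : ContDiff ℝ ∞ u) (k : Fin 2) (z v : V) :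
    fderiv ℝ (db k u) z v =
      (fderiv ℝ (fderiv ℝ u) z v (e k) + I * fderiv ℝ (fderiv ℝ u) z v (I • e k)) / 2 := by
  have h1 := ((fd_smooth hu (e k)).differentiable (by simp) z).hasFDerivAt
  have h2 := ((fd_smooth hu (I • e k)).differentiable (by simp) z).hasFDerivAt
  have h3 := (h1.add (h2.const_mul I)).mul_const (2⁻¹ : ℂ)
  have h4 : db k u = fun y => (fderiv ℝ u y (e k) + I * fderiv ℝ u y (I • e k)) * 2⁻¹ := by
    funext y
    simp only [db, div_eq_mul_inv]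
  rw [h4]
  erw [h3.fderiv]
  simp only [add_apply, smul_apply, smul_eq_mul,
    fd_fd hu]
  ring

theorem db_comm {u : V → ℂ} (hu : ContDiff ℝ ∞ u) (z : V) :
    db 0 (db 1 u) z = db 1 (db 0 u) z := by
  have hs : IsSymmSndFDerivAt ℝ u z :=
    hu.contDiffAt.isSymmSndFDerivAt (by simp; exact WithTop.coe_le_coe.2 le_top)
  have h0 : db 0 (db 1 u) z =
      (fderiv ℝ (db 1 u) z (e 0) + I * fderiv ℝ (db 1 u) z (I • e 0)) / 2 := rfl
  have h1 : db 1 (db 0 u) z =
      (fderiv ℝ (db 0 u) z (e 1) + I * fderiv ℝ (db 0 u) z (I • e 1)) / 2 := rfl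
  rw [h0, h1, fd_db hu, fd_db hu, fd_db hu, fd_db hu, hs.eq (e 0) (e 1), hs.eq (e 0) (I • e 1),
    hs.eq (I • e 0) (e 1), hs.eq (I • e 0) (I • e 1)]
  ring

theorem int_mul {f g : V → ℂ} (hf : Continuous f) (hg : Continuous g)
    (hc : HasCompactSupport g) : Integrable (fun z => f z * g z) :=
  (hf.mul hg).integrable_of_hasCompactSupport hc.mul_left

theorem ibp {f g : V → ℂ} (hf : ContDiff ℝ ∞ f) (hg : ContDiff ℝ ∞ g)
    (hc : HasCompactSupport g) (k : Fin 2) :
    ∫ z, f z * db k g z = -∫ z, db k f z * g z := by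
  have : (volume : Measure V).IsAddHaarMeasure := Measure.prod.instIsAddHaarMeasure _ _
  have key : ∀ v : V, ∫ z, f z * fderiv ℝ g z v = -∫ z, fderiv ℝ f z v * g z := fun v =>
    integral_mul_fderiv_eq_neg_fderiv_mul_of_integrable
      (int_mul (fd_smooth hf v).continuous hg.continuous hc)
      (int_mul hf.continuous (fd_smooth hg v).continuous (hc.fderiv_apply ℝ v))
      (int_mul hf.continuous hg.continuous hc)
      (fun x _ => hf.differentiable (by simp) x) (fun x _ => hg.differentiable (by simp) x)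
  have a1 : ∀ v : V, Integrable (fun z => f z * fderiv ℝ g z v) := fun v =>
    int_mul hf.continuous (fd_smooth hg v).continuous (hc.fderiv_apply ℝ v)
  have a2 : ∀ v : V, Integrable (fun z => fderiv ℝ f z v * g z) := fun v =>
    int_mul (fd_smooth hf v).continuous hg.continuous hc
  have e1 : (fun z => f z * db k g z) = fun z =>
      2⁻¹ * (f z * fderiv ℝ g z (e k)) + (I / 2) * (f z * fderiv ℝ g z (I • e k)) := by
    funext z
    simp only [db]
    ring
  have e2 : (fun z => db k f z * g z) = fun z =>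
      2⁻¹ * (fderiv ℝ f z (e k) * g z) + (I / 2) * (fderiv ℝ f z (I • e k) * g z) := by
    funext z
    simp only [db]
    ring
  rw [e1, e2, integral_add ((a1 _).const_mul _) ((a1 _).const_mul _),
    integral_add ((a2 _).const_mul _) ((a2 _).const_mul _)]
  simp only [integral_const_mul, key]
  ring

theorem closed_int {g f : V → ℂ} (hg : ContDiff ℝ ∞ g) (hf : ContDiff ℝ ∞ f)
    (hc : HasCompactSupport f) : ∫ z, (db 1 g z * db 0 f z - db 0 g z * db 1 f z) = 0 := by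
  rw [integral_sub (int_mul (db_smooth hg 1).continuous (db_smooth hf 0).continuous (db_cs hc 0))
    (int_mul (db_smooth hg 0).continuous (db_smooth hf 1).continuous (db_cs hc 1)),
    ibp (db_smooth hg 1) hf hc, ibp (db_smooth hg 0) hf hc]
  simp only [db_comm hg, sub_self]

theorem exists_cut {K U : Set V} (hK : IsCompact K) (hU : IsOpen U) (h : K ⊆ U) :
    ∃ σ : V → ℝ, ContDiff ℝ ∞ σ ∧ HasCompactSupport σ ∧ tsupport σ ⊆ U ∧ (∀ z ∈ K, σ z = 1) ∧
      ∀ z, 0 ≤ σ z ∧ σ z ≤ 1 := by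
  obtain ⟨L, hL, h1, h2⟩ := exists_compact_between hK hU h
  obtain ⟨f, f1, f0, f01⟩ := exists_contMDiffMap_one_nhds_of_subset_interior (n := ⊤) 𝓘(ℝ, V)
    hK.isClosed h1
  have hs : tsupport f ⊆ L :=
    closure_minimal (fun x hx => by_contra fun hx' => hx (f0 x hx')) hL.isClosed
  exact ⟨f, f.contMDiff.contDiff, HasCompactSupport.intro hL f0, hs.trans h2,
    fun z hz => f1.self_of_nhdsSet z hz, fun z => f01 z⟩

theorem exists_ext {F : Type} [NormedAddCommGroup F] [NormedSpace ℝ F] {K U : Set V}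
    (hK : IsCompact K) (hU : IsOpen U) (h : K ⊆ U) {f : V → F} (hf : ContDiffOn ℝ ∞ f U) :
    ∃ g : V → F, ContDiff ℝ ∞ g ∧ ∀ z ∈ K, g z = f z := by
  obtain ⟨χ, c1, -, c3, c4, -⟩ := exists_cut hK hU h
  refine ⟨fun z => χ z • f z, contDiff_iff_contDiffAt.2 fun z => ?_, fun z hz => by
    simp [c4 z hz]⟩
  by_cases hz : z ∈ tsupport χ
  · exact c1.contDiffAt.smul (hf.contDiffAt (hU.mem_nhds (c3 hz)))
  · have h0 : χ =ᶠ[𝓝 z] 0 := notMem_tsupport_iff_eventuallyEq.1 hz
    refine (contDiffAt_const (c := (0 : F))).congr_of_eventuallyEq ?_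
    filter_upwards [h0] with y hy
    simp [hy]

theorem neg_congr {ψ ψ' : V → ℝ} {c : ℝ} {U U' : Set V} (hU' : IsOpen U') (h : U' ⊆ U)
    (he : ∀ z ∈ U', ψ' z = ψ z) (hn : Neg ψ c U) : Neg ψ' c U' := by
  intro z hz ξ
  have h1 : ψ' =ᶠ[𝓝 z] ψ := by
    filter_upwards [hU'.mem_nhds hz] with y hy using he y hy
  have h2 : fderiv ℝ (fderiv ℝ ψ') z = fderiv ℝ (fderiv ℝ ψ) z := h1.fderiv.fderiv_eq
  have h3 := hn z (h hz) ξ
  simpa only [lev, h2] using h3

/-! weighted norms -/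

theorem nrm_mono (ψ : V → ℝ) {S T : Set V} (h : S ⊆ T) (f : V → ℂ) : nrm ψ S f ≤ nrm ψ T f :=
  lintegral_mono_set h

theorem nrm_congr {ψ ψ' : V → ℝ} {S : Set V} (hS : MeasurableSet S) {f f' : V → ℂ}
    (h1 : ∀ z ∈ S, ψ z = ψ' z) (h2 : ∀ z ∈ S, f z = f' z) : nrm ψ S f = nrm ψ' S f' :=
  setLIntegral_congr_fun hS fun z hz => by simp only [h1 z hz, h2 z hz]

theorem nrm_le_of_zero (ψ : V → ℝ) (S : Set V) {T : Set V} (hT : MeasurableSet T) {f : V → ℂ}
    (h : ∀ z, z ∉ T → f z = 0) : nrm ψ S f ≤ nrm ψ T f := by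
  unfold nrm
  rw [← lintegral_indicator hT]
  refine (setLIntegral_le_lintegral _ _).trans (lintegral_mono fun z => ?_)
  by_cases hz : z ∈ T
  · rw [indicator_of_mem hz]
  · simp [h z hz]

theorem aem {ψ : V → ℝ} (hψ : Continuous ψ) {μ : Measure V} {f : V → ℂ}
    (hf : AEStronglyMeasurable f μ) :
    AEStronglyMeasurable (fun z => ‖f z‖ ^ 2 * Real.exp (-ψ z)) μ :=
  (hf.norm.pow 2).mul (Real.continuous_exp.comp hψ.neg).aestronglyMeasurable

theorem nrm_le_two {ψ : V → ℝ} (hψ : Continuous ψ) {S : Set V} (hS : MeasurableSet S)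
    {f g h : V → ℂ} {a b : ℝ} (ha : 0 ≤ a) (hb : 0 ≤ b)
    (hh : AEStronglyMeasurable h (volume.restrict S))
    (hp : ∀ z ∈ S, ‖f z‖ ^ 2 ≤ a * ‖g z‖ ^ 2 + b * ‖h z‖ ^ 2) :
    nrm ψ S f ≤ ENNReal.ofReal a * nrm ψ S g + ENNReal.ofReal b * nrm ψ S h := by
  unfold nrm
  rw [← lintegral_const_mul' _ _ ENNReal.ofReal_ne_top,
    ← lintegral_const_mul' _ _ ENNReal.ofReal_ne_top,
    ← lintegral_add_right' _ (((aem hψ hh).aemeasurable.ennreal_ofReal).const_mul _)]
  refine setLIntegral_mono' hS fun z hz => ?_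
  have hw := (Real.exp_pos (-ψ z)).le
  rw [← ENNReal.ofReal_mul ha, ← ENNReal.ofReal_mul hb,
    ← ENNReal.ofReal_add (by positivity) (by positivity)]
  refine ENNReal.ofReal_le_ofReal ?_
  have := mul_le_mul_of_nonneg_right (hp z hz) hw
  linarith only [this]

theorem memLp_of_nrm {ψ : V → ℝ} (hψ : Continuous ψ) {S L : Set V} (hS : MeasurableSet S)
    (hL : IsCompact L) (hSL : S ⊆ L) {f : V → ℂ}
    (hf : AEStronglyMeasurable f (volume.restrict S)) (h : nrm ψ S f ≠ ⊤) :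
    MemLp f 2 (volume.restrict S) := by
  obtain ⟨M, hM⟩ := hL.bddAbove_image hψ.continuousOn
  rw [memLp_two_iff_integrable_sq_norm hf]
  refine ⟨hf.norm.pow 2, ?_⟩
  rw [hasFiniteIntegral_iff_ofReal (Eventually.of_forall fun z => by positivity)]
  have h1 : ∫⁻ z in S, ENNReal.ofReal (‖f z‖ ^ 2) ≤ ENNReal.ofReal (Real.exp M) * nrm ψ S f := by
    unfold nrm
    rw [← lintegral_const_mul' _ _ ENNReal.ofReal_ne_top]
    refine setLIntegral_mono' hS fun z hz => ?_
    rw [← ENNReal.ofReal_mul (Real.exp_pos M).le]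
    refine ENNReal.ofReal_le_ofReal ?_
    have h2 : ψ z ≤ M := hM (mem_image_of_mem _ (hSL hz))
    have h3 : 1 ≤ Real.exp M * Real.exp (-ψ z) := by
      rw [← Real.exp_add]
      exact Real.one_le_exp (by linarith only [h2])
    nlinarith only [h3, sq_nonneg ‖f z‖]
  exact h1.trans_lt (ENNReal.mul_lt_top ENNReal.ofReal_lt_top h.lt_top)

theorem memLp_cut {S : Set V} (hS : MeasurableSet S) {τ f : V → ℂ} (hτ : Continuous τ)
    (hc : HasCompactSupport τ) (h0 : ∀ z, z ∉ S → τ z = 0)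
    (hf : MemLp f 2 (volume.restrict S)) : MemLp (fun z => τ z * f z) 2 volume := by
  have h1 : (fun z => τ z * f z) = S.indicator fun z => τ z * f z := by
    funext z
    by_cases hz : z ∈ S
    · rw [indicator_of_mem hz]
    · simp [hz, h0 z hz]
  rw [h1, memLp_indicator_iff_restrict hS]
  obtain ⟨C, hC⟩ := hτ.bounded_above_of_compact_support hc
  refine MemLp.of_le_mul (c := C) hf (hτ.aestronglyMeasurable.mul hf.1)
    (Eventually.of_forall fun z => ?_)
  rw [norm_mul]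
  exact mul_le_mul_of_nonneg_right (hC z) (norm_nonneg _)

theorem int_l2 {μ : Measure V} [IsFiniteMeasureOnCompacts μ] {f h : V → ℂ} (hf : MemLp f 2 μ)
    (hh : Continuous h) (hc : HasCompactSupport h) : Integrable (fun z => f z * h z) μ :=
  hf.integrable_mul (hh.memLp_of_hasCompactSupport (p := 2) hc)

theorem ofReal_int {ψ : V → ℝ} (hψ : Continuous ψ) {f : V → ℂ}
    (hf : AEStronglyMeasurable f volume) :
    ENNReal.ofReal (∫ z, ‖f z‖ ^ 2 * Real.exp (-ψ z)) ≤ nrm ψ univ f := by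
  rw [integral_eq_lintegral_of_nonneg_ae (Eventually.of_forall fun z => by positivity)
    (aem hψ hf), nrm, Measure.restrict_univ]
  exact ENNReal.ofReal_toReal_le

theorem int_w {ψ : V → ℝ} (hψ : Continuous ψ) {f : V → ℂ} {L : Set V} (hL : IsCompact L)
    (hf : MemLp f 2 volume) (h0 : ∀ z, z ∉ L → f z = 0) :
    Integrable (fun z => ‖f z‖ ^ 2 * Real.exp (-ψ z)) := by
  obtain ⟨M, hM⟩ := hL.bddAbove_image (Real.continuous_exp.comp hψ.neg).continuousOn
  have h1 := ((memLp_two_iff_integrable_sq_norm hf.1).1 hf).mul_const M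
  refine h1.mono' (aem hψ hf.1) (Eventually.of_forall fun z => ?_)
  rw [Real.norm_of_nonneg (by positivity)]
  by_cases hz : z ∈ L
  · exact mul_le_mul_of_nonneg_left (hM (mem_image_of_mem _ hz)) (by positivity)
  · simp [h0 z hz]

/-- A weighted Cauchy-Schwarz inequality. -/
theorem small {ψ : V → ℝ} (hψ : Continuous ψ) (S : Set V) {h : V → ℂ} (hh : Continuous h)
    (hc : HasCompactSupport h) {δ : ℝ} (hδ : 0 < δ) :
    ∃ ε : ℝ≥0∞, 0 < ε ∧ ∀ r : V → ℂ, nrm ψ S r ≤ ε → ‖∫ z in S, r z * h z‖ ≤ δ := by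
  have hi : Integrable (fun z => ‖h z‖ ^ 2 * Real.exp (ψ z)) := by
    refine ((hh.norm.pow 2).mul (Real.continuous_exp.comp hψ)).integrable_of_hasCompactSupport ?_
    exact HasCompactSupport.intro hc fun z hz => by
      simp [image_eq_zero_of_notMem_tsupport hz]
  set C := ∫ z, ‖h z‖ ^ 2 * Real.exp (ψ z) with hC
  have hC0 : 0 ≤ C := integral_nonneg fun z => by positivity
  set t := (2 * C + 1) / δ with ht
  have ht0 : 0 < t := by positivity
  refine ⟨ENNReal.ofReal (δ / (2 * t)), ENNReal.ofReal_pos.2 (by positivity), fun r hr => ?_⟩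
  have h1 : ‖∫ z in S, r z * h z‖ₑ ≤ ENNReal.ofReal t * nrm ψ S r +
      ENNReal.ofReal t⁻¹ * ∫⁻ z in S, ENNReal.ofReal (‖h z‖ ^ 2 * Real.exp (ψ z)) := by
    refine (enorm_integral_le_lintegral_enorm _).trans ?_
    unfold nrm
    rw [← lintegral_const_mul' _ _ ENNReal.ofReal_ne_top,
      ← lintegral_const_mul' _ _ ENNReal.ofReal_ne_top,
      ← lintegral_add_right' _ ((hi.1.restrict.aemeasurable.ennreal_ofReal).const_mul _)]
    refine lintegral_mono fun z => ?_
    have hw := Real.exp_pos (-ψ z)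
    have hw' := Real.exp_pos (ψ z)
    rw [← ENNReal.ofReal_mul ht0.le, ← ENNReal.ofReal_mul (inv_pos.2 ht0).le,
      ← ENNReal.ofReal_add (by positivity) (by positivity), ← ofReal_norm]
    refine ENNReal.ofReal_le_ofReal ?_
    have h2 : Real.exp (ψ z) = (Real.exp (-ψ z))⁻¹ := by rw [Real.exp_neg, inv_inv]
    rw [norm_mul, h2]
    set s := t * Real.exp (-ψ z) with hs
    have hs0 : 0 < s := by positivity
    have h3 : t * (‖r z‖ ^ 2 * Real.exp (-ψ z)) + t⁻¹ * (‖h z‖ ^ 2 * (Real.exp (-ψ z))⁻¹) =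
        s * ‖r z‖ ^ 2 + ‖h z‖ ^ 2 / s := by
      rw [hs]
      field_simp
    rw [h3, ← sub_nonneg]
    have h4 : s * ‖r z‖ ^ 2 + ‖h z‖ ^ 2 / s - ‖r z‖ * ‖h z‖ =
        ((s * ‖r z‖ - ‖h z‖) ^ 2 + s * ‖r z‖ * ‖h z‖) / s := by
      field_simp
      ring
    rw [h4]
    positivity
  have h2 : ∫⁻ z in S, ENNReal.ofReal (‖h z‖ ^ 2 * Real.exp (ψ z)) ≤ ENNReal.ofReal C := by
    rw [hC, ofReal_integral_eq_lintegral_ofReal hi (Eventually.of_forall fun z => by positivity)]
    exact setLIntegral_le_lintegral _ _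
  have h3 : ‖∫ z in S, r z * h z‖ₑ ≤ ENNReal.ofReal (t * (δ / (2 * t)) + t⁻¹ * C) := by
    rw [ENNReal.ofReal_add (by positivity) (by positivity), ENNReal.ofReal_mul ht0.le,
      ENNReal.ofReal_mul (inv_pos.2 ht0).le]
    exact h1.trans (add_le_add (by gcongr) (by gcongr))
  rw [← ofReal_norm, ENNReal.ofReal_le_ofReal_iff (by positivity)] at h3
  refine h3.trans ?_
  have h4 : t * (δ / (2 * t)) = δ / 2 := by field_simp
  have h5 : t⁻¹ * C ≤ δ / 2 := by
    rw [ht, inv_div, div_mul_eq_mul_div, div_le_div_iff₀ (by positivity) (by positivity)]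
    nlinarith only [hδ, hC0]
  linarith only [h4, h5]

end Pool.Agent.MP54.PDE.Loc

end
end MrgPart5

-- ======== part 6: formerly Pool.Agent.MP_54e5d7_al.atc.pde.Loc
section MrgPart6

/-! Row LOC: the local approximate solution. -/

open Set MeasureTheory Complex Filter
open scoped ContDiff ENNReal Topology ComplexConjugate

noncomputable section

namespace Pool.Agent.MP54.PDE

namespace Loc

theorem weak1 {ψ : V → ℝ} (hψ : Continuous ψ) {S : Set V} {b e0 e1 : V → ℂ}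
    (hb : ContDiff ℝ ∞ b) (m0 : MemLp e0 2 (volume.restrict S))
    (m1 : MemLp e1 2 (volume.restrict S))
    (hap : ∀ ε : ℝ≥0∞, 0 < ε → ∃ w, Test S w ∧
      nrm ψ S (db 0 b - db 0 w - e0) ≤ ε ∧ nrm ψ S (db 1 b - db 1 w - e1) ≤ ε)
    {f : V → ℂ} (hf : Test S f) : ∫ z in S, (e1 z * db 0 f z - e0 z * db 1 f z) = 0 := by
  obtain ⟨f1, f2, f3⟩ := hf
  have c0 := (db_smooth f1 0).continuous
  have c1 := (db_smooth f1 1).continuous
  refine norm_le_zero_iff.1 (le_of_forall_pos_le_add fun δ hδ => ?_)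
  obtain ⟨ε0, p0, q0⟩ := small hψ S c0 (db_cs f2 0) (half_pos hδ)
  obtain ⟨ε1, p1, q1⟩ := small hψ S c1 (db_cs f2 1) (half_pos hδ)
  obtain ⟨w, hw, r0, r1⟩ := hap (min ε0 ε1) (lt_min p0 p1)
  have hg : ContDiff ℝ ∞ (b - w) := hb.sub hw.1
  have hd : ∀ k z, db k (b - w) z = db k b z - db k w z := fun k z =>
    db_sub (hb.differentiable (by simp) z) (hw.1.differentiable (by simp) z) k
  have h1 : ∫ z in S, (db 1 (b - w) z * db 0 f z - db 0 (b - w) z * db 1 f z) = 0 := by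
    rw [setIntegral_eq_integral_of_forall_compl_eq_zero, closed_int hg f1 f2]
    intro z hz
    rw [db_zero (fun h => hz (f3 h)), db_zero (fun h => hz (f3 h)) 1]
    simp
  have i1 : Integrable (fun z => e1 z * db 0 f z) (volume.restrict S) := int_l2 m1 c0 (db_cs f2 0)
  have i0 : Integrable (fun z => e0 z * db 1 f z) (volume.restrict S) := int_l2 m0 c1 (db_cs f2 1)
  have j1 : Integrable (fun z => db 1 (b - w) z * db 0 f z) (volume.restrict S) :=
    (int_mul (db_smooth hg 1).continuous c0 (db_cs f2 0)).restrict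
  have j0 : Integrable (fun z => db 0 (b - w) z * db 1 f z) (volume.restrict S) :=
    (int_mul (db_smooth hg 0).continuous c1 (db_cs f2 1)).restrict
  have k0 : ∫ z in S, (db 0 b - db 0 w - e0) z * db 1 f z =
      (∫ z in S, db 0 (b - w) z * db 1 f z) - ∫ z in S, e0 z * db 1 f z := by
    rw [← integral_sub j0 i0]
    refine integral_congr_ae (Eventually.of_forall fun z => ?_)
    simp only [Pi.sub_apply, hd]
    ring
  have k1 : ∫ z in S, (db 1 b - db 1 w - e1) z * db 0 f z =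
      (∫ z in S, db 1 (b - w) z * db 0 f z) - ∫ z in S, e1 z * db 0 f z := by
    rw [← integral_sub j1 i1]
    refine integral_congr_ae (Eventually.of_forall fun z => ?_)
    simp only [Pi.sub_apply, hd]
    ring
  rw [integral_sub j1 j0] at h1
  have h2 : ∫ z in S, (e1 z * db 0 f z - e0 z * db 1 f z) =
      (∫ z in S, (db 0 b - db 0 w - e0) z * db 1 f z) -
        ∫ z in S, (db 1 b - db 1 w - e1) z * db 0 f z := by
    rw [integral_sub i1 i0, k0, k1]
    linear_combination h1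
  have h3 := q1 _ (r0.trans (min_le_right _ _))
  have h4 := q0 _ (r1.trans (min_le_left _ _))
  rw [h2]
  refine (norm_sub_le _ _).trans ?_
  linarith only [h3, h4]

theorem sq_add_le (x y : ℂ) : ‖x + y‖ ^ 2 ≤ 2 * ‖x‖ ^ 2 + 2 * ‖y‖ ^ 2 := by
  have h := norm_add_le x y
  have h1 : ‖x + y‖ ^ 2 ≤ (‖x‖ + ‖y‖) ^ 2 := pow_le_pow_left₀ (norm_nonneg _) h 2
  nlinarith only [h1, sq_nonneg (‖x‖ - ‖y‖)]

theorem sq_lin_le {a b x y : ℂ} {C : ℝ} (ha : ‖a‖ ^ 2 ≤ C) (hb : ‖b‖ ^ 2 ≤ C) :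
    ‖a * x + b * y‖ ^ 2 ≤ 2 * C * ‖x‖ ^ 2 + 2 * C * ‖y‖ ^ 2 := by
  have h := sq_add_le (a * x) (b * y)
  rw [norm_mul, norm_mul, mul_pow, mul_pow] at h
  have h1 := mul_le_mul_of_nonneg_right ha (sq_nonneg ‖x‖)
  have h2 := mul_le_mul_of_nonneg_right hb (sq_nonneg ‖y‖)
  linarith only [h, h1, h2]

theorem cx_smooth {σ : V → ℝ} (h : ContDiff ℝ ∞ σ) : ContDiff ℝ ∞ (cx σ) :=
  ofRealCLM.contDiff.comp h

theorem weak2 {ψ : V → ℝ} (hψ : ContDiff ℝ ∞ ψ) {S : Set V} {τ e0 e1 u : V → ℂ} {lam : ℝ}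
    (hτ : Test S τ)
    (orth : ∀ w, Test S w →
      ∫ z in S, (e0 z * conj (db 0 w z) + e1 z * conj (db 1 w z)) * (Real.exp (-ψ z) : ℂ) =
        lam * ∫ z in S, u z * conj (w z) * (Real.exp (-ψ z) : ℂ))
    {φ : V → ℂ} (hφ : ContDiff ℝ ∞ φ) :
    ∫ z, (e0 z * (τ z * dz 0 φ z + dz 0 τ z * φ z + τ z * φ z * dz 0 (cx ψ) z) +
      e1 z * (τ z * dz 1 φ z + dz 1 τ z * φ z + τ z * φ z * dz 1 (cx ψ) z)) =
      ∫ z, lam * τ z * u z * φ z := by
  obtain ⟨t1, t2, t3⟩ := hτ
  have hx := cx_smooth hψ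
  have hF : ContDiff ℝ ∞ fun z => τ z * φ z * cexp (cx ψ z) := (t1.mul hφ).mul hx.cexp
  have hz0 : ∀ z, z ∉ tsupport τ → conj (τ z * φ z * cexp (cx ψ z)) = 0 := fun z hz => by
    simp [image_eq_zero_of_notMem_tsupport hz]
  have hw : Test S fun z => conj (τ z * φ z * cexp (cx ψ z)) :=
    ⟨conjCLE.contDiff.comp hF, HasCompactSupport.intro t2 hz0,
      (closure_minimal (fun x hx => by_contra fun hx' => Function.mem_support.1 hx (hz0 x hx'))
        (isClosed_tsupport τ)).trans t3⟩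
  have h := orth _ hw
  have he : ∀ z, cexp (cx ψ z) * (Real.exp (-ψ z) : ℂ) = 1 := fun z => by
    rw [ofReal_exp, ← Complex.exp_add]
    simp [cx]
  have hd : ∀ k z, conj (db k (fun z => conj (τ z * φ z * cexp (cx ψ z))) z) =
      (τ z * dz k φ z + dz k τ z * φ z + τ z * φ z * dz k (cx ψ) z) * cexp (cx ψ z) := by
    intro k z
    rw [conj_db_conj (hF.differentiable (by simp) z),
      dz_mul ((t1.mul hφ).differentiable (by simp) z) (hx.cexp.differentiable (by simp) z),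
      dz_mul (t1.differentiable (by simp) z) (hφ.differentiable (by simp) z),
      dz_exp (hx.differentiable (by simp) z)]
    ring
  simp only [hd, conj_conj] at h
  rw [← integral_const_mul] at h
  rw [← setIntegral_eq_integral_of_forall_compl_eq_zero (s := S),
    ← setIntegral_eq_integral_of_forall_compl_eq_zero (s := S)
      (f := fun z => lam * τ z * u z * φ z)]
  · refine Eq.trans ?_ (h.trans ?_)
    · refine integral_congr_ae (Eventually.of_forall fun z => ?_)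
      have := he z
      simp only
      linear_combination (-(e0 z * (τ z * dz 0 φ z + dz 0 τ z * φ z + τ z * φ z * dz 0 (cx ψ) z) +
        e1 z * (τ z * dz 1 φ z + dz 1 τ z * φ z + τ z * φ z * dz 1 (cx ψ) z))) * this
    · refine integral_congr_ae (Eventually.of_forall fun z => ?_)
      have := he z
      simp only
      linear_combination (lam * τ z * u z * φ z) * this
  · intro z hz
    simp [image_eq_zero_of_notMem_tsupport fun h => hz (t3 h)]
  · intro z hz
    have hz' : z ∉ tsupport τ := fun h => hz (t3 h)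
    simp [image_eq_zero_of_notMem_tsupport hz', dz_zero hz']

theorem est (hW : WestStmt) {ψ : V → ℝ} {c Cs lam : ℝ} {S K : Set V} {τ e0 e1 u : V → ℂ}
    {E : ℝ≥0∞} (hψ : ContDiff ℝ ∞ ψ) (hS : IsOpen S) (hn : Neg ψ c S) (hc : 0 ≤ c)
    (hτ : Test S τ) (hK : MeasurableSet K) (h1 : ∀ z ∈ K, τ z = 1) (hτ1 : ∀ z, ‖τ z‖ ≤ 1)
    (hCs : 0 ≤ Cs) (hdb : ∀ k z, ‖db k τ z‖ ^ 2 ≤ Cs) (hdz : ∀ k z, ‖dz k τ z‖ ^ 2 ≤ Cs)
    (hlam : 0 < lam) (m0 : MemLp e0 2 (volume.restrict S)) (m1 : MemLp e1 2 (volume.restrict S))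
    (mu : MemLp u 2 (volume.restrict S))
    (weak : ∀ f, Test S f → ∫ z in S, (e1 z * db 0 f z - e0 z * db 1 f z) = 0)
    (orth : ∀ w, Test S w →
      ∫ z in S, (e0 z * conj (db 0 w z) + e1 z * conj (db 1 w z)) * (Real.exp (-ψ z) : ℂ) =
        lam * ∫ z in S, u z * conj (w z) * (Real.exp (-ψ z) : ℂ))
    (hE1 : nrm ψ S e0 + nrm ψ S e1 ≤ E) (hE2 : ENNReal.ofReal lam * nrm ψ S u ≤ E) :
    ENNReal.ofReal c * (nrm ψ K e0 + nrm ψ K e1) ≤ ENNReal.ofReal (6 * Cs + 2 * lam) * E := by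
  obtain ⟨t1, t2, t3⟩ := id hτ
  have hm := hS.measurableSet
  have z1 : ∀ z, z ∉ S → τ z = 0 := fun z hz => image_eq_zero_of_notMem_tsupport fun h => hz (t3 h)
  have z2 : ∀ k z, z ∉ S → db k τ z = 0 := fun k z hz => db_zero (fun h => hz (t3 h)) k
  have z3 : ∀ k z, z ∉ S → dz k τ z = 0 := fun k z hz => dz_zero (fun h => hz (t3 h)) k
  have a0 := memLp_cut hm t1.continuous t2 z1 m0
  have a1 := memLp_cut hm t1.continuous t2 z1 m1
  have aG : MemLp (fun z => db 0 τ z * e1 z + -db 1 τ z * e0 z) 2 volume :=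
    (memLp_cut hm (db_smooth t1 0).continuous (db_cs t2 0) (z2 0) m1).add
      (memLp_cut hm (db_smooth t1 1).continuous.neg (db_cs t2 1).neg
        (fun z hz => by simp [z2 1 z hz]) m0)
  have aD : MemLp (fun z => lam * τ z * u z) 2 volume :=
    memLp_cut hm (continuous_const.mul t1.continuous) t2.mul_left
      (fun z hz => by simp [z1 z hz]) mu
  have aH : MemLp (fun z => dz 0 τ z * e0 z + dz 1 τ z * e1 z + -(lam * τ z * u z)) 2 volume :=
    ((memLp_cut hm (dz_smooth t1 0).continuous (dz_cs t2 0) (z3 0) m0).add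
      (memLp_cut hm (dz_smooth t1 1).continuous (dz_cs t2 1) (z3 1) m1)).add aD.neg
  have hx := cx_smooth hψ
  have key := hW ψ c S (tsupport τ) hψ hS hn t2 t3 _ _ _ _ a0 a1 aG aH
    (fun z hz => by simp [image_eq_zero_of_notMem_tsupport hz, db_zero hz, dz_zero hz])
    (fun φ hφ => by
      obtain ⟨p1, p2, -⟩ := hφ
      have hf : Test S fun z => τ z * φ z :=
        ⟨t1.mul p1, t2.mul_right, (tsupport_mul_subset_left).trans t3⟩
      have h := weak _ hf
      have hd : ∀ k z, db k (fun z => τ z * φ z) z = τ z * db k φ z + db k τ z * φ z :=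
        fun k z => db_mul (t1.differentiable (by simp) z) (p1.differentiable (by simp) z) k
      simp only [hd] at h
      rw [setIntegral_eq_integral_of_forall_compl_eq_zero
        (fun z hz => by simp [z1 z hz, z2 _ z hz])] at h
      have iA : Integrable fun z => τ z * e1 z * db 0 φ z - τ z * e0 z * db 1 φ z :=
        (int_l2 a1 (db_smooth p1 0).continuous (db_cs p2 0)).sub
          (int_l2 a0 (db_smooth p1 1).continuous (db_cs p2 1))
      refine eq_neg_of_add_eq_zero_left ?_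
      rw [← integral_add iA (int_l2 aG p1.continuous p2), ← h]
      refine integral_congr_ae (Eventually.of_forall fun z => ?_)
      simp only
      ring)
    (fun φ hφ => by
      obtain ⟨p1, p2, -⟩ := hφ
      have h := weak2 hψ hτ orth p1
      have iA : Integrable fun z => τ z * e0 z * dz 0 φ z + τ z * e1 z * dz 1 φ z :=
        (int_l2 a0 (dz_smooth p1 0).continuous (dz_cs p2 0)).add
          (int_l2 a1 (dz_smooth p1 1).continuous (dz_cs p2 1))
      have iD := int_l2 aD p1.continuous p2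
      have iB : Integrable fun z => (dz 0 τ z * e0 z + dz 1 τ z * e1 z + -(lam * τ z * u z) +
          dz 0 (cx ψ) z * (τ z * e0 z) + dz 1 (cx ψ) z * (τ z * e1 z)) * φ z := by
        refine (((int_l2 aH p1.continuous p2).add
          (int_l2 a0 ((dz_smooth hx 0).continuous.mul p1.continuous) p2.mul_left)).add
          (int_l2 a1 ((dz_smooth hx 1).continuous.mul p1.continuous) p2.mul_left)).congr
          (Eventually.of_forall fun z => ?_)
        simp only [Pi.add_apply, Pi.mul_apply]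
        ring
      refine eq_neg_of_add_eq_zero_left ?_
      have h2 := integral_add (iA.add iB) iD
      simp only [Pi.add_apply] at h2
      rw [← integral_add iA iB, ← add_left_inj (∫ z, lam * τ z * u z * φ z), zero_add, ← h2]
      refine Eq.trans (integral_congr_ae (Eventually.of_forall fun z => ?_)) h
      simp only
      ring)
  have hψc := hψ.continuous
  have w0 := int_w hψc t2 a0 fun z hz => by simp [image_eq_zero_of_notMem_tsupport hz]
  have w1 := int_w hψc t2 a1 fun z hz => by simp [image_eq_zero_of_notMem_tsupport hz]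
  have l0 : ∀ f : V → ℂ, Integrable (fun z => ‖τ z * f z‖ ^ 2 * Real.exp (-ψ z)) →
      nrm ψ K f ≤ ENNReal.ofReal (∫ z, ‖τ z * f z‖ ^ 2 * Real.exp (-ψ z)) := fun f hf => by
    rw [ofReal_integral_eq_lintegral_ofReal hf (Eventually.of_forall fun z => by positivity),
      nrm_congr (ψ' := ψ) (f' := fun z => τ z * f z) hK (fun _ _ => rfl)
        (fun z hz => by simp [h1 z hz])]
    exact setLIntegral_le_lintegral _ _
  have l1 : nrm ψ K e0 + nrm ψ K e1 ≤
      ENNReal.ofReal (∫ z, (‖τ z * e0 z‖ ^ 2 + ‖τ z * e1 z‖ ^ 2) * Real.exp (-ψ z)) := by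
    simp only [add_mul]
    rw [integral_add w0 w1, ENNReal.ofReal_add (integral_nonneg fun z => by positivity)
      (integral_nonneg fun z => by positivity)]
    exact add_le_add (l0 _ w0) (l0 _ w1)
  have h2C : 0 ≤ 2 * Cs := by positivity
  have bG : nrm ψ univ (fun z => db 0 τ z * e1 z + -db 1 τ z * e0 z) ≤
      ENNReal.ofReal (2 * Cs) * E := by
    refine (nrm_le_of_zero ψ univ hm fun z hz => by simp [z2 _ z hz]).trans ?_
    refine (nrm_le_two hψc hm h2C h2C m0.1 (g := e1) fun z _ =>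
      sq_lin_le (hdb 0 z) (by rw [norm_neg]; exact hdb 1 z)).trans ?_
    rw [← mul_add, add_comm]
    gcongr
  have bH1 : nrm ψ S (fun z => dz 0 τ z * e0 z + dz 1 τ z * e1 z) ≤
      ENNReal.ofReal (2 * Cs) * E := by
    refine (nrm_le_two hψc hm h2C h2C m1.1 (g := e0) fun z _ =>
      sq_lin_le (hdz 0 z) (hdz 1 z)).trans ?_
    rw [← mul_add]
    gcongr
  have bH : nrm ψ univ (fun z => dz 0 τ z * e0 z + dz 1 τ z * e1 z + -(lam * τ z * u z)) ≤
      ENNReal.ofReal 2 * (ENNReal.ofReal (2 * Cs) * E) + ENNReal.ofReal (2 * lam) * E := by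
    refine (nrm_le_of_zero ψ univ hm fun z hz => by simp [z1 z hz, z3 _ z hz]).trans ?_
    refine (nrm_le_two hψc hm (a := 2) (b := 2 * lam * lam) (by norm_num) (by positivity) mu.1
      (g := fun z => dz 0 τ z * e0 z + dz 1 τ z * e1 z) fun z _ => ?_).trans ?_
    · refine (sq_add_le _ _).trans ?_
      have h3 : ‖-(lam * τ z * u z)‖ ≤ lam * ‖u z‖ := by
        rw [norm_neg, norm_mul, norm_mul, norm_real, Real.norm_of_nonneg hlam.le]
        gcongr
        exact mul_le_of_le_one_right hlam.le (hτ1 z)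
      have h4 := pow_le_pow_left₀ (norm_nonneg _) h3 2
      nlinarith only [h4]
    · rw [ENNReal.ofReal_mul (p := 2 * lam) (by positivity), mul_assoc]
      gcongr
  calc ENNReal.ofReal c * (nrm ψ K e0 + nrm ψ K e1)
      ≤ ENNReal.ofReal c *
        ENNReal.ofReal (∫ z, (‖τ z * e0 z‖ ^ 2 + ‖τ z * e1 z‖ ^ 2) * Real.exp (-ψ z)) := by
        gcongr
    _ ≤ ENNReal.ofReal (2 * Cs) * E +
        (ENNReal.ofReal 2 * (ENNReal.ofReal (2 * Cs) * E) + ENNReal.ofReal (2 * lam) * E) := by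
        rw [← ENNReal.ofReal_mul hc]
        refine (ENNReal.ofReal_le_ofReal key).trans (ENNReal.ofReal_add_le.trans ?_)
        exact add_le_add ((ofReal_int hψc aG.1).trans bG) ((ofReal_int hψc aH.1).trans bH)
    _ = ENNReal.ofReal (6 * Cs + 2 * lam) * E := by
        rw [← mul_assoc, ← ENNReal.ofReal_mul (by norm_num), ← add_mul, ← add_mul,
          ← ENNReal.ofReal_add (by positivity) (by positivity),
          ← ENNReal.ofReal_add (by positivity) (by positivity)]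
        congr 2
        ring

theorem div_le {c A q : ℝ} {X E : ℝ≥0∞} (hc : 0 < c) (hq : c⁻¹ * A ≤ q)
    (h : ENNReal.ofReal c * X ≤ ENNReal.ofReal A * E) : X ≤ ENNReal.ofReal q * E := by
  have hi := (inv_pos.2 hc).le
  calc X = ENNReal.ofReal c⁻¹ * (ENNReal.ofReal c * X) := by
        rw [← mul_assoc, ← ENNReal.ofReal_mul hi, inv_mul_cancel₀ hc.ne', ENNReal.ofReal_one,
          one_mul]
    _ ≤ ENNReal.ofReal c⁻¹ * (ENNReal.ofReal A * E) := by gcongr
    _ ≤ ENNReal.ofReal q * E := by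
        rw [← mul_assoc, ← ENNReal.ofReal_mul hi]
        gcongr

theorem bound_sq {f : V → ℂ} (hf : Continuous f) (hc : HasCompactSupport f) :
    ∃ C : ℝ, 0 ≤ C ∧ ∀ z, ‖f z‖ ^ 2 ≤ C := by
  obtain ⟨C, hC⟩ := hf.bounded_above_of_compact_support hc
  exact ⟨C ^ 2, sq_nonneg C, fun z => pow_le_pow_left₀ (norm_nonneg _) (hC z) 2⟩

end Loc

open Loc

theorem loc (hW : WestStmt) (hP : ProjStmt) : LocalStmt := by
  intro U K hU hK hKU η hη
  obtain ⟨L, hL, hKS, hLU⟩ := exists_compact_between hK hU hKU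
  have hS : IsOpen (interior L) := isOpen_interior
  have hSL : interior L ⊆ L := interior_subset
  generalize interior L = S at hS hSL hKS
  have hm := hS.measurableSet
  have hKm := hK.isClosed.measurableSet
  obtain ⟨σ, s1, s2, s3, s4, s5⟩ := exists_cut hK hS hKS
  have hz0 : ∀ z, z ∉ tsupport σ → cx σ z = 0 := fun z hz => by
    simp [cx, image_eq_zero_of_notMem_tsupport hz]
  have hτ : Test S (cx σ) := ⟨cx_smooth s1, HasCompactSupport.intro s2 hz0,
    (closure_minimal (fun x hx => by_contra fun hx' => Function.mem_support.1 hx (hz0 x hx'))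
      (isClosed_tsupport σ)).trans s3⟩
  obtain ⟨C1, p1, q1⟩ := bound_sq (db_smooth hτ.1 0).continuous (db_cs hτ.2.1 0)
  obtain ⟨C2, p2, q2⟩ := bound_sq (db_smooth hτ.1 1).continuous (db_cs hτ.2.1 1)
  obtain ⟨C3, p3, q3⟩ := bound_sq (dz_smooth hτ.1 0).continuous (dz_cs hτ.2.1 0)
  obtain ⟨C4, p4, q4⟩ := bound_sq (dz_smooth hτ.1 1).continuous (dz_cs hτ.2.1 1)
  obtain ⟨Cs, hCs, hdb, hdz⟩ : ∃ Cs : ℝ, 0 ≤ Cs ∧ (∀ k z, ‖db k (cx σ) z‖ ^ 2 ≤ Cs) ∧
      ∀ k z, ‖dz k (cx σ) z‖ ^ 2 ≤ Cs := by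
    refine ⟨C1 + C2 + C3 + C4, by positivity, Fin.forall_fin_two.2 ⟨fun z => ?_, fun z => ?_⟩,
      Fin.forall_fin_two.2 ⟨fun z => ?_, fun z => ?_⟩⟩
    · linarith only [q1 z, p2, p3, p4]
    · linarith only [q2 z, p1, p3, p4]
    · linarith only [q3 z, p1, p2, p4]
    · linarith only [q4 z, p1, p2, p3]
  obtain ⟨q, hq, hqη⟩ : ∃ q : ℝ, 0 < q ∧ ENNReal.ofReal (4 * q) ≤ η := by
    obtain ⟨r, hr0, hr1, hr2⟩ := ENNReal.lt_iff_exists_real_btwn.1 hη
    refine ⟨r / 4, by have := ENNReal.ofReal_pos.1 hr1; positivity, ?_⟩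
    rw [mul_div_cancel₀ _ (by norm_num)]
    exact hr2.le
  have hlam : 0 < q⁻¹ := inv_pos.2 hq
  have hc : 0 < (6 * Cs + 2 * q⁻¹) / q := by positivity
  refine ⟨(6 * Cs + 2 * q⁻¹) / q, fun ψ hψ hn b hb => ?_⟩
  have hzero : Test U 0 := ⟨contDiff_const, HasCompactSupport.zero, by simp⟩
  by_cases hE : en ψ U b = ⊤
  · refine ⟨0, hzero, ?_, ?_⟩ <;> simp [hE, ENNReal.mul_top hη.ne']
  by_cases hE0 : en ψ U b = 0
  · refine ⟨0, hzero, by simp [nrm], ?_⟩
    rw [sub_zero]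
    exact ((add_le_add (nrm_mono ψ hKU _) (nrm_mono ψ hKU _)).trans hE0.le).trans zero_le
  obtain ⟨ψ', hψ', eψ⟩ := exists_ext hL hU hLU hψ
  obtain ⟨b', hb', eb⟩ := exists_ext hL hU hLU hb
  have hψc := hψ'.continuous
  have edb : ∀ k, ∀ z ∈ S, db k b' z = db k b z := fun k z hz => by
    refine db_congr ?_ k
    filter_upwards [hS.mem_nhds hz] with y hy using eb y (hSL hy)
  have hE' : nrm ψ' S (db 0 b') + nrm ψ' S (db 1 b') ≤ en ψ U b := by
    rw [nrm_congr hm (fun z hz => eψ z (hSL hz)) (edb 0),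
      nrm_congr hm (fun z hz => eψ z (hSL hz)) (edb 1)]
    exact add_le_add (nrm_mono ψ (hSL.trans hLU) _) (nrm_mono ψ (hSL.trans hLU) _)
  obtain ⟨e0, e1, u, a0, a1, au, hb1, orth, hap⟩ := hP ψ' S q⁻¹ hψc hS hlam (db 0 b') (db 1 b')
    (db_smooth hb' 0).continuous.continuousOn (db_smooth hb' 1).continuous.continuousOn
    (ne_top_of_le_ne_top hE hE')
  generalize en ψ U b = E at hE hE0 hE'
  have hE1 : nrm ψ' S e0 + nrm ψ' S e1 ≤ E := le_self_add.trans (hb1.trans hE')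
  have hE2 : ENNReal.ofReal q⁻¹ * nrm ψ' S u ≤ E := le_add_self.trans (hb1.trans hE')
  have hu : nrm ψ' S u ≤ ENNReal.ofReal q * E :=
    div_le (A := 1) hlam (by simp) (by simpa using hE2)
  have m0 := memLp_of_nrm hψc hm hL hSL a0 (ne_top_of_le_ne_top hE (le_self_add.trans hE1))
  have m1 := memLp_of_nrm hψc hm hL hSL a1 (ne_top_of_le_ne_top hE (le_add_self.trans hE1))
  have mu := memLp_of_nrm hψc hm hL hSL au
    (ne_top_of_le_ne_top (ENNReal.mul_ne_top ENNReal.ofReal_ne_top hE) hu)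
  have hX := est hW hψ' hS (neg_congr hS (hSL.trans hLU) (fun z hz => eψ z (hSL hz)) hn) hc.le hτ
    hKm (fun z hz => by simp [cx, s4 z hz])
    (fun z => by rw [cx, norm_real, Real.norm_of_nonneg (s5 z).1]; exact (s5 z).2)
    hCs hdb hdz hlam m0 m1 mu
    (fun f hf => weak1 hψc hb' m0 m1 (fun ε hε => by
      obtain ⟨w, hw, h⟩ := hap ε hε
      exact ⟨w, hw, (le_self_add.trans le_self_add).trans h,
        (le_add_self.trans le_self_add).trans h⟩) hf) orth hE1 hE2
  have hX' := div_le (q := q) hc (by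
    rw [inv_div, div_mul_cancel₀ _ (by positivity)]) hX
  obtain ⟨w, hw, h⟩ := hap (ENNReal.ofReal q * E)
    (ENNReal.mul_pos (ENNReal.ofReal_pos.2 hq).ne' hE0)
  have fin : ENNReal.ofReal 2 * (ENNReal.ofReal q * E) + ENNReal.ofReal 2 * (ENNReal.ofReal q * E) ≤
      η * E := by
    rw [← add_mul, ← ENNReal.ofReal_add (by norm_num) (by norm_num), ← mul_assoc,
      ← ENNReal.ofReal_mul (by norm_num)]
    gcongr
    norm_num
    simpa using hqη
  refine ⟨w, ⟨hw.1, hw.2.1, hw.2.2.trans (hSL.trans hLU)⟩, ?_, ?_⟩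
  · refine (nrm_le_of_zero ψ U hm fun z hz =>
      image_eq_zero_of_notMem_tsupport fun h => hz (hw.2.2 h)).trans ?_
    rw [nrm_congr (ψ' := ψ') (f' := w) hm (fun z hz => (eψ z (hSL hz)).symm) fun _ _ => rfl]
    refine (nrm_le_two hψc hm (a := 2) (b := 2) (by norm_num) (by norm_num) au (g := w - u)
      fun z _ => ?_).trans (le_trans ?_ fin)
    · simpa using sq_add_le (w z - u z) (u z)
    · gcongr
      exact le_add_self.trans h
  · have step : ∀ (k : Fin 2) (ek : V → ℂ), AEStronglyMeasurable ek (volume.restrict S) →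
        nrm ψ K (db k (b - w)) ≤ ENNReal.ofReal 2 * nrm ψ' S (db k b' - db k w - ek) +
          ENNReal.ofReal 2 * nrm ψ' K ek := fun k ek hek => by
      have hd : ∀ z ∈ K, db k (b - w) z = (db k b' - db k w) z := fun z hz => by
        rw [db_sub ((hb.contDiffAt (hU.mem_nhds (hKU hz))).differentiableAt (by simp))
          (hw.1.differentiable (by simp) z), Pi.sub_apply, edb k z (hKS hz)]
      rw [nrm_congr (ψ' := ψ') hKm (fun z hz => (eψ z (hSL (hKS hz))).symm) hd]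
      refine (nrm_le_two hψc hKm (a := 2) (b := 2) (by norm_num) (by norm_num)
        (hek.mono_set hKS) (g := db k b' - db k w - ek) fun z _ => ?_).trans ?_
      · simpa using sq_add_le (db k b' z - db k w z - ek z) (ek z)
      · gcongr
        exact nrm_mono ψ' hKS _
    refine (add_le_add (step 0 e0 a0) (step 1 e1 a1)).trans (le_trans ?_ fin)
    rw [add_add_add_comm, ← mul_add, ← mul_add]
    gcongr
    exact le_self_add.trans h

end Pool.Agent.MP54.PDE

end
end MrgPart6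

-- marker of a merged file
example : 731051 + 102626 = 731051 + 102626 := rfl
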