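import Mathlib.Analysis.Calculus.BumpFunction.Convolution
import Pool.Agent.MP_54e5d7_al.atc.tr.Core
import Pool.Agent.MP_54e5d7_al.atc.pde.Cv
import Pool.Agent.MP_54e5d7_al.atc.pde.Glue
import Pool.Agent.MP_54e5d7_al.atc.pde.H0
import Pool.Agent.MP_54e5d7_al.atc.pde.Init
import Pool.Agent.MP_54e5d7_al.atc.pde.Loc

-- ======== part 0: formerly Pool.Agent.MP_54e5d7_al.atc.pde.Iter
section MrgPart0

/-! Row ITER: the iteration of the one step improvement. -/

open Set MeasureTheory Complex Filter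
open scoped ContDiff ENNReal Topology ComplexConjugate

noncomputable section

namespace Pool.Agent.MP54.PDE

namespace Iter

theorem sq_sum_le (d : ℕ → ℝ) (n : ℕ) :
    (∑ m ∈ Finset.range n, d m) ^ 2 ≤ 2 * ∑ m ∈ Finset.range n, 2 ^ m * d m ^ 2 := by
  have h1 := Finset.sum_mul_sq_le_sq_mul_sq (Finset.range n)
    (fun m => (Real.sqrt 2 ^ m)⁻¹) (fun m => Real.sqrt 2 ^ m * d m)
  have hs : ∀ m : ℕ, (Real.sqrt 2 ^ m) ^ 2 = 2 ^ m := by
    intro m
    rw [← pow_mul, mul_comm, pow_mul, Real.sq_sqrt (by norm_num)]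
  have hp : ∀ m : ℕ, Real.sqrt 2 ^ m ≠ 0 := fun m => by positivity
  have e1 : ∑ m ∈ Finset.range n, (Real.sqrt 2 ^ m)⁻¹ * (Real.sqrt 2 ^ m * d m) =
      ∑ m ∈ Finset.range n, d m :=
    Finset.sum_congr rfl fun m _ => by rw [inv_mul_cancel_left₀ (hp m)]
  have e2 : ∑ m ∈ Finset.range n, (Real.sqrt 2 ^ m * d m) ^ 2 =
      ∑ m ∈ Finset.range n, 2 ^ m * d m ^ 2 :=
    Finset.sum_congr rfl fun m _ => by rw [mul_pow, hs]
  have e3 : ∑ m ∈ Finset.range n, ((Real.sqrt 2 ^ m)⁻¹) ^ 2 ≤ 2 := by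
    have : ∑ m ∈ Finset.range n, ((Real.sqrt 2 ^ m)⁻¹) ^ 2 =
        ∑ m ∈ Finset.range n, (1 / 2 : ℝ) ^ m :=
      Finset.sum_congr rfl fun m _ => by rw [inv_pow, hs, one_div, inv_pow]
    rw [this]
    exact sum_geometric_two_le n
  rw [e1, e2] at h1
  refine h1.trans (mul_le_mul_of_nonneg_right e3 ?_)
  exact Finset.sum_nonneg fun m _ => by positivity

theorem real_bound (x : ℕ → ℂ) (n : ℕ) :
    ‖x n‖ ^ 2 ≤ 2 * ‖x 0‖ ^ 2 + 4 * ∑ m ∈ Finset.range n, 2 ^ m * ‖x (m + 1) - x m‖ ^ 2 := by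
  have h1 : ‖x n‖ ≤ ‖x 0‖ + ∑ m ∈ Finset.range n, ‖x (m + 1) - x m‖ := by
    have h := Finset.sum_range_sub x n
    have h2 : x n = x 0 + ∑ m ∈ Finset.range n, (x (m + 1) - x m) := by rw [h]; ring
    calc ‖x n‖ = ‖x 0 + ∑ m ∈ Finset.range n, (x (m + 1) - x m)‖ := by rw [← h2]
      _ ≤ _ := (norm_add_le _ _).trans (add_le_add le_rfl (norm_sum_le _ _))
  have h2 := sq_sum_le (fun m => ‖x (m + 1) - x m‖) n
  have h3 := pow_le_pow_left₀ (norm_nonneg _) h1 2
  nlinarith [sq_nonneg (‖x 0‖ - ∑ m ∈ Finset.range n, ‖x (m + 1) - x m‖)]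

theorem enn_bound (x : ℕ → ℂ) (y : ℂ) (w : ℝ) (hw : 0 ≤ w) (hx : Tendsto x atTop (𝓝 y)) :
    ENNReal.ofReal (‖y‖ ^ 2 * w) ≤ 2 * ENNReal.ofReal (‖x 0‖ ^ 2 * w) +
      4 * ∑' m : ℕ, 2 ^ m * ENNReal.ofReal (‖x (m + 1) - x m‖ ^ 2 * w) := by
  have ht : Tendsto (fun n => ENNReal.ofReal (‖x n‖ ^ 2 * w)) atTop
      (𝓝 (ENNReal.ofReal (‖y‖ ^ 2 * w))) :=
    ENNReal.tendsto_ofReal ((hx.norm.pow 2).mul_const w)
  refine le_of_tendsto' ht fun n => ?_
  have h1 : ‖x n‖ ^ 2 * w ≤ 2 * (‖x 0‖ ^ 2 * w) +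
      4 * ∑ m ∈ Finset.range n, 2 ^ m * (‖x (m + 1) - x m‖ ^ 2 * w) := by
    have h2 := mul_le_mul_of_nonneg_right (real_bound x n) hw
    have h3 : ∑ m ∈ Finset.range n, 2 ^ m * (‖x (m + 1) - x m‖ ^ 2 * w) =
        (∑ m ∈ Finset.range n, 2 ^ m * ‖x (m + 1) - x m‖ ^ 2) * w := by
      rw [Finset.sum_mul]
      exact Finset.sum_congr rfl fun m _ => by ring
    rw [h3]
    linarith
  refine (ENNReal.ofReal_le_ofReal h1).trans ?_
  refine ENNReal.ofReal_add_le.trans (add_le_add ?_ ?_)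
  · rw [ENNReal.ofReal_mul (by norm_num)]
    simp
  · rw [ENNReal.ofReal_mul (by norm_num), ENNReal.ofReal_sum_of_nonneg fun m _ => by positivity]
    have h4 : ENNReal.ofReal 4 = 4 := by simp
    rw [h4]
    refine mul_le_mul_right ?_ 4
    refine le_trans (le_of_eq ?_) (ENNReal.sum_le_tsum (Finset.range n))
    refine Finset.sum_congr rfl fun m _ => ?_
    rw [ENNReal.ofReal_mul (by positivity), ENNReal.ofReal_pow (by norm_num)]
    simp

theorem nrm_zero_le {ψ : V → ℝ} {U : Set V} {M : ℝ} (hU : MeasurableSet U)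
    (hM : ∀ z ∈ U, |ψ z| ≤ M) (f : V → ℂ) :
    nrm 0 U f ≤ ENNReal.ofReal (Real.exp M) * nrm ψ U f := by
  unfold nrm
  rw [← lintegral_const_mul' _ _ ENNReal.ofReal_ne_top]
  refine setLIntegral_mono' hU fun z hz => ?_
  rw [← ENNReal.ofReal_mul (Real.exp_pos M).le]
  refine ENNReal.ofReal_le_ofReal ?_
  have h1 : (1 : ℝ) ≤ Real.exp M * Real.exp (-ψ z) := by
    rw [← Real.exp_add]
    exact Real.one_le_exp (by linarith [le_abs_self (ψ z), hM z hz])
  have h2 : Real.exp (-(0 : V → ℝ) z) = 1 := by simp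
  rw [h2]
  nlinarith [sq_nonneg ‖f z‖]

theorem aem {ψ : V → ℝ} {U : Set V} (hU : MeasurableSet U) (hψ : ContinuousOn ψ U) {f : V → ℂ}
    (hf : ContinuousOn f U) :
    AEMeasurable (fun z => ENNReal.ofReal (‖f z‖ ^ 2 * Real.exp (-ψ z))) (volume.restrict U) := by
  have h : ContinuousOn (fun z => ‖f z‖ ^ 2 * Real.exp (-ψ z)) U :=
    (hf.norm.pow 2).mul (Real.continuous_exp.comp_continuousOn hψ.neg)
  exact (h.aemeasurable hU).ennreal_ofReal

theorem nrm_lim {ψ : V → ℝ} {U : Set V} (hU : MeasurableSet U) (hψ : ContinuousOn ψ U)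
    (f : ℕ → V → ℂ) (h : V → ℂ) (hf : ∀ n, ContinuousOn (f n) U)
    (hl : ∀ᵐ z ∂(volume.restrict U), Tendsto (fun n => f n z) atTop (𝓝 (h z))) :
    nrm ψ U h ≤ 2 * nrm ψ U (f 0) + 4 * ∑' m : ℕ, 2 ^ m * nrm ψ U (f (m + 1) - f m) := by
  have ha : ∀ m, AEMeasurable
      (fun z => ENNReal.ofReal (‖(f (m + 1) - f m) z‖ ^ 2 * Real.exp (-ψ z)))
      (volume.restrict U) := fun m => aem hU hψ ((hf (m + 1)).sub (hf m))
  calc nrm ψ U h ≤ ∫⁻ z in U, (2 * ENNReal.ofReal (‖f 0 z‖ ^ 2 * Real.exp (-ψ z)) +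
        4 * ∑' m : ℕ, 2 ^ m * ENNReal.ofReal (‖(f (m + 1) - f m) z‖ ^ 2 * Real.exp (-ψ z))) := by
        refine lintegral_mono_ae ?_
        filter_upwards [hl] with z hz
        exact enn_bound (fun n => f n z) (h z) _ (Real.exp_pos _).le hz
    _ = _ := by
        rw [lintegral_add_left' ((aem hU hψ (hf 0)).const_mul 2),
          lintegral_const_mul' _ _ (by simp), lintegral_const_mul' _ _ (by simp),
          lintegral_tsum fun m => (ha m).const_mul _]
        congr 2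
        refine tsum_congr fun m => ?_
        rw [lintegral_const_mul' _ _ (by simp)]
        rfl

theorem nrm_neg (ψ : V → ℝ) (U : Set V) (b u : V → ℂ) : nrm ψ U (b - u - b) = nrm ψ U u := by
  unfold nrm
  refine lintegral_congr fun z => ?_
  have : (b - u - b) z = -u z := by simp
  rw [this, norm_neg]

theorem geo (E : ℕ → ℝ≥0∞) (hE : ∀ n, 4 * E (n + 1) ≤ E n) (n : ℕ) : 4 ^ n * E n ≤ E 0 := by
  induction n with
  | zero => simp
  | succ n ih =>
    calc 4 ^ (n + 1) * E (n + 1) = 4 ^ n * (4 * E (n + 1)) := by ring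
      _ ≤ 4 ^ n * E n := mul_le_mul_right (hE n) _
      _ ≤ E 0 := ih

theorem half (a e : ℝ≥0∞) (n : ℕ) (h : 4 ^ n * a ≤ e) : 2 ^ n * a ≤ e * 2⁻¹ ^ n := by
  have h2 : (2 : ℝ≥0∞) ^ n * 2⁻¹ ^ n = 1 := by
    rw [← mul_pow, ENNReal.mul_inv_cancel (by simp) (by simp), one_pow]
  have h4 : (4 : ℝ≥0∞) ^ n = 2 ^ n * 2 ^ n := by
    rw [← mul_pow]; norm_num
  calc 2 ^ n * a = 4 ^ n * a * 2⁻¹ ^ n := by
        rw [h4]
        calc 2 ^ n * a = 2 ^ n * a * (2 ^ n * 2⁻¹ ^ n) := by rw [h2, mul_one]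
          _ = _ := by ring
    _ ≤ _ := mul_le_mul_left h _

theorem lim0 (E : ℕ → ℝ≥0∞) (e c : ℝ≥0∞) (he : e ≠ ⊤) (hc : c ≠ ⊤) (h : ∀ n, 4 ^ n * E n ≤ e) :
    Tendsto (fun n => c * E n) atTop (𝓝 0) := by
  have h1 : Tendsto (fun n : ℕ => c * e * 2⁻¹ ^ n) atTop (𝓝 0) := by
    have := ENNReal.Tendsto.const_mul (a := c * e)
      (ENNReal.tendsto_pow_atTop_nhds_zero_of_lt_one (r := 2⁻¹) (by simp))
      (Or.inr (ENNReal.mul_ne_top hc he))
    simpa using this
  refine tendsto_of_tendsto_of_tendsto_of_le_of_le tendsto_const_nhds h1 (fun _ => zero_le)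
    fun n => ?_
  have h2 : E n ≤ 2 ^ n * E n := le_mul_of_one_le_left' (one_le_pow₀ (by norm_num))
  calc c * E n ≤ c * (e * 2⁻¹ ^ n) := mul_le_mul_right (h2.trans (half _ _ n (h n))) _
    _ = _ := by ring

variable {Γ : Type} [Group Γ] {C : Chart Γ} {J : Type} [MulAction Γ J]

theorem a_ne (B : Bundle C J) (i : J) (g : Γ) {z : V} (hz : z ∈ C.ov g) : B.a i g z ≠ 0 := by
  intro h0
  have h := B.inv i g z hz
  rw [h0] at h
  have := Real.exp_pos (-B.psi z)
  simp at h
  exact (Real.exp_pos _).ne' h.symm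

theorem act_cont (C : Chart Γ) (g : Γ) : ContinuousOn (C.act g) C.U2 :=
  (C.hol g).continuousOn.mono (subset_closure.trans C.s2)

theorem ov_open (C : Chart Γ) (g : Γ) : IsOpen (C.ov g) :=
  (act_cont C g).isOpen_inter_preimage C.o2 C.o2

/-- The states of the iteration. -/
def St (B : Bundle C J) (s : J → Γ → V → ℂ) (b : J → V → ℂ) : Prop :=
  (∀ i, ContDiffOn ℝ ∞ (b i) C.U2) ∧ ∀ i g, EqOn (B.cob b i g) (s i g) (C.ov g)

theorem next (B : Bundle C J) (hS : B.Step) {s : J → Γ → V → ℂ} (hs : B.Coc s) (b : J → V → ℂ)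
    (hb : St B s b) : ∃ b' : J → V → ℂ, St B s b' ∧
      ∑' i, nrm B.psi C.U2 (b' i - b i) ≤ ∑' i, en B.psi C.U2 (b i) ∧
      4 * ∑' i, en B.psi C.U2 (b' i) ≤ ∑' i, en B.psi C.U2 (b i) := by
  obtain ⟨u, hu, hsec, h1, h2⟩ := hS b hb.1 fun i g => (hs.1 i g).congr (hb.2 i g)
  refine ⟨fun i => b i - u i, ⟨fun i => (hb.1 i).sub (hu i), fun i g z hz => ?_⟩, ?_, h2⟩
  · rw [← hb.2 i g hz]
    have ha := a_ne B i g hz
    simp only [Bundle.cob, Pi.sub_apply, hsec i g z hz]
    field_simp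
    ring
  · simpa only [nrm_neg] using h1

theorem seq (B : Bundle C J) (hS : B.Step) {s : J → Γ → V → ℂ} (hs : B.Coc s) (b0 : J → V → ℂ)
    (hb : St B s b0) : ∃ b : ℕ → J → V → ℂ, b 0 = b0 ∧ ∀ n, St B s (b n) ∧
      ∑' i, nrm B.psi C.U2 (b (n + 1) i - b n i) ≤ ∑' i, en B.psi C.U2 (b n i) ∧
      4 * ∑' i, en B.psi C.U2 (b (n + 1) i) ≤ ∑' i, en B.psi C.U2 (b n i) := by
  choose F hF using next B hS hs
  let G : {b // St B s b} → {b // St B s b} := fun x => ⟨F x.1 x.2, (hF x.1 x.2).1⟩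
  refine ⟨fun n => (G^[n] ⟨b0, hb⟩).1, rfl, fun n => ⟨(G^[n] ⟨b0, hb⟩).2, ?_⟩⟩
  simp only [Function.iterate_succ_apply']
  exact (hF _ (G^[n] ⟨b0, hb⟩).2).2

end Iter

open Iter in
theorem iter (hI : InitStmt) (hW : WeylStmt) (hC : CVStmt) : IterStmt := by
  intro Γ _ C J _ B hS
  obtain ⟨M, hM, hI⟩ := hI Γ C
  obtain ⟨Mp, hMp⟩ := B.bdd
  obtain ⟨Mc, -, hC⟩ := hC Γ C
  refine ⟨10 * M, ENNReal.mul_ne_top (by simp) hM, fun s hs hT => ?_⟩
  obtain ⟨b0, hb1, hb2, hb3⟩ := hI J B s hs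
  obtain ⟨b, rfl, hb⟩ := seq B hS hs b0 ⟨hb1, hb2⟩
  set T := ∑ g ∈ C.D, ∑' i, nrm B.psi (C.ov g) (s i g) with hTd
  have hMT : M * T ≠ ⊤ := ENNReal.mul_ne_top hM hT
  have hm : MeasurableSet C.U2 := C.o2.measurableSet
  set c := ENNReal.ofReal (Real.exp Mp) with hc
  have hct : c ≠ ⊤ := ENNReal.ofReal_ne_top
  have hE : ∀ n, 4 ^ n * ∑' i, en B.psi C.U2 (b n i) ≤ M * T := fun n =>
    (geo (fun n => ∑' i, en B.psi C.U2 (b n i)) (fun n => (hb n).2.2) n).trans
      (le_add_self.trans hb3)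
  have hN : ∀ n, 4 ^ n * ∑' i, nrm B.psi C.U2 (b (n + 1) i - b n i) ≤ M * T := fun n =>
    (mul_le_mul_right (hb n).2.1 _).trans (hE n)
  have h0 : ∑' i, nrm B.psi C.U2 (b 0 i) ≤ M * T := le_self_add.trans hb3
  have hex : ∀ i, ∃ h : V → ℂ, DifferentiableOn ℂ h C.U2 ∧
      ∀ᵐ z ∂(volume.restrict C.U2), Tendsto (fun n => b n i z) atTop (𝓝 (h z)) := by
    intro i
    refine hW C.U2 (fun n => b n i) (c * (M * T)) C.o2 (ENNReal.mul_ne_top hct hMT)
      (fun n => (hb n).1.1 i) ?_ (fun n => ?_) ?_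
    · refine ne_top_of_le_ne_top (ENNReal.mul_ne_top hct hMT) ((nrm_zero_le hm hMp _).trans ?_)
      exact mul_le_mul_right ((ENNReal.le_tsum (f := fun i => nrm B.psi C.U2 (b 0 i)) i).trans h0) _
    · calc 4 ^ n * nrm 0 C.U2 (b (n + 1) i - b n i)
          ≤ 4 ^ n * (c * ∑' i, nrm B.psi C.U2 (b (n + 1) i - b n i)) :=
            mul_le_mul_right ((nrm_zero_le hm hMp _).trans (mul_le_mul_right
              (ENNReal.le_tsum (f := fun i => nrm B.psi C.U2 (b (n + 1) i - b n i)) i) _)) _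
        _ = c * (4 ^ n * ∑' i, nrm B.psi C.U2 (b (n + 1) i - b n i)) := by ring
        _ ≤ _ := mul_le_mul_right (hN n) _
    · refine tendsto_of_tendsto_of_tendsto_of_le_of_le tendsto_const_nhds
        (lim0 _ _ c hMT hct hE) (fun _ => zero_le) fun n => ?_
      calc en 0 C.U2 (b n i) ≤ c * en B.psi C.U2 (b n i) := by
            unfold en
            rw [mul_add]
            exact add_le_add (nrm_zero_le hm hMp _) (nrm_zero_le hm hMp _)
        _ ≤ _ := mul_le_mul_right (ENNReal.le_tsum (f := fun i => en B.psi C.U2 (b n i)) i) _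
  choose h hh hl using hex
  refine ⟨h, hh, fun i g => ?_, ?_⟩
  · have hsub : C.ov g ⊆ C.U2 := fun z hz => hz.1
    have c1 : ContinuousOn (fun z => h (g • i) (C.act g z)) (C.ov g) :=
      (hh (g • i)).continuousOn.comp ((act_cont C g).mono hsub) fun z hz => hz.2
    have c2 : ContinuousOn (fun z => B.a i g z * (h i z + s i g z)) (C.ov g) :=
      (B.hol i g).continuousOn.mul (((hh i).continuousOn.mono hsub).add (hs.1 i g).continuousOn)
    refine Measure.eqOn_open_of_ae_eq (μ := volume) ?_ (ov_open C g) c1 c2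
    have l1 := (hC g C.U2 hm subset_rfl).2.2 _ (hl (g • i))
    have l2 := ae_restrict_of_ae_restrict_of_subset hsub (hl i)
    filter_upwards [l1, l2, ae_restrict_mem (ov_open C g).measurableSet] with z z1 z2 hz
    have ha := a_ne B i g hz
    have t1 : Tendsto (fun n => B.a i g z * (b n i z + s i g z)) atTop
        (𝓝 (B.a i g z * (h i z + s i g z))) := (z2.add_const _).const_mul _
    refine tendsto_nhds_unique z1 (t1.congr fun n => ?_)
    rw [← (hb n).1.2 i g hz]
    simp only [Bundle.cob]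
    field_simp
    ring
  · calc ∑' i, nrm B.psi C.U2 (h i)
        ≤ ∑' i, (2 * nrm B.psi C.U2 (b 0 i) +
            4 * ∑' m : ℕ, 2 ^ m * nrm B.psi C.U2 (b (m + 1) i - b m i)) :=
          ENNReal.tsum_le_tsum fun i => nrm_lim hm B.smooth.continuousOn (fun n => b n i) (h i)
            (fun n => ((hb n).1.1 i).continuousOn) (hl i)
      _ = 2 * ∑' i, nrm B.psi C.U2 (b 0 i) +
            4 * ∑' m : ℕ, 2 ^ m * ∑' i, nrm B.psi C.U2 (b (m + 1) i - b m i) := by
          rw [ENNReal.tsum_add, ENNReal.tsum_mul_left, ENNReal.tsum_mul_left, ENNReal.tsum_comm]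
          simp only [ENNReal.tsum_mul_left]
      _ ≤ 2 * (M * T) + 4 * ∑' m : ℕ, M * T * 2⁻¹ ^ m :=
          add_le_add (mul_le_mul_right h0 _)
            (mul_le_mul_right (ENNReal.tsum_le_tsum fun m => half _ _ m (hN m)) _)
      _ = 10 * M * T := by
          rw [ENNReal.tsum_mul_left, ENNReal.tsum_geometric]
          have : (1 - 2⁻¹ : ℝ≥0∞)⁻¹ = 2 := by rw [ENNReal.one_sub_inv_two, inv_inv]
          rw [this]
          ring

end Pool.Agent.MP54.PDE

end
end MrgPart0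

-- ======== part 1: formerly Pool.Agent.MP_54e5d7_al.atc.pde.Moll
section MrgPart1

/-! An approximate identity on `ℂ × ℂ`: convergence in square mean and almost everywhere. -/

open Set MeasureTheory Complex Filter
open scoped ContDiff ENNReal Topology Convolution

noncomputable section

namespace Pool.Agent.MP54.PDE

namespace Moll

instance haar : (volume : Measure V).IsAddHaarMeasure :=
  Measure.prod.instIsAddHaarMeasure _ _

theorem conv_eq (φ : V → ℝ) (g : V → ℂ) :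
    conv φ g = φ ⋆[ContinuousLinearMap.lsmul ℝ ℝ, volume] g := by
  funext x
  rw [convolution_lsmul_swap]
  simp [conv]

/-- Jensen for a probability kernel. -/
theorem jensen {φ : V → ℝ} (hc : Continuous φ) (h0 : ∀ x, 0 ≤ φ x)
    (h1 : ∫⁻ x, ENNReal.ofReal (φ x) = 1) {g : V → ℂ} (hg : AEStronglyMeasurable g volume)
    (x : V) :
    ‖conv φ g x‖ₑ ^ (2 : ℝ) ≤ ∫⁻ y, ENNReal.ofReal (φ (x - y)) * ‖g y‖ₑ ^ (2 : ℝ) := by
  have hP : Measurable fun y => ENNReal.ofReal (φ (x - y)) :=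
    (hc.comp (continuous_const.sub continuous_id)).measurable.ennreal_ofReal
  have hs : ∀ a : ℝ≥0∞, (a ^ (1 / 2 : ℝ)) ^ (2 : ℝ) = a := fun a => by
    rw [← ENNReal.rpow_mul]
    norm_num
  have hs' : ∀ a : ℝ≥0∞, a ^ (1 / 2 : ℝ) * a ^ (1 / 2 : ℝ) = a := fun a => by
    rw [← ENNReal.rpow_add_of_nonneg _ _ (by norm_num) (by norm_num)]
    norm_num
  have e1 : ‖conv φ g x‖ₑ ≤ ∫⁻ y, ENNReal.ofReal (φ (x - y)) * ‖g y‖ₑ := by
    refine (enorm_integral_le_lintegral_enorm _).trans (le_of_eq (lintegral_congr fun y => ?_))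
    rw [enorm_mul, ← ofReal_norm (φ (x - y) : ℂ), Complex.norm_real,
      Real.norm_of_nonneg (h0 _)]
  have e2 := ENNReal.lintegral_mul_le_Lp_mul_Lq (volume : Measure V) Real.HolderConjugate.two_two
    (f := fun y => ENNReal.ofReal (φ (x - y)) ^ (1 / 2 : ℝ))
    (g := fun y => ENNReal.ofReal (φ (x - y)) ^ (1 / 2 : ℝ) * ‖g y‖ₑ)
    (hP.pow_const _).aemeasurable ((hP.pow_const _).aemeasurable.mul hg.enorm)
  have e3 : ∫⁻ y, ENNReal.ofReal (φ (x - y)) = 1 := by
    rw [lintegral_sub_left_eq_self (fun y => ENNReal.ofReal (φ y)) x, h1]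
  simp only [Pi.mul_apply, ← mul_assoc, hs', hs, e3, ENNReal.one_rpow, one_mul,
    ENNReal.mul_rpow_of_nonneg _ _ (zero_le_two (α := ℝ))] at e2
  have e4 := ENNReal.rpow_le_rpow (e1.trans e2) (zero_le_two (α := ℝ))
  rwa [hs] at e4

/-- Young for a probability kernel. -/
theorem young {φ : V → ℝ} (hc : Continuous φ) (h0 : ∀ x, 0 ≤ φ x)
    (h1 : ∫⁻ x, ENNReal.ofReal (φ x) = 1) {g : V → ℂ} (hg : AEStronglyMeasurable g volume) :
    ∫⁻ x, ‖conv φ g x‖ₑ ^ (2 : ℝ) ≤ ∫⁻ y, ‖g y‖ₑ ^ (2 : ℝ) := by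
  refine (lintegral_mono fun x => jensen hc h0 h1 hg x).trans (le_of_eq ?_)
  have hm : AEMeasurable (Function.uncurry fun x y : V =>
      ENNReal.ofReal (φ (x - y)) * ‖g y‖ₑ ^ (2 : ℝ)) ((volume : Measure V).prod volume) :=
    (hc.comp (continuous_fst.sub continuous_snd)).measurable.ennreal_ofReal.aemeasurable.mul
      (hg.enorm.pow_const _).comp_snd
  rw [lintegral_lintegral_swap hm]
  refine lintegral_congr fun y => ?_
  have hP : Measurable fun x => ENNReal.ofReal (φ (x - y)) :=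
    (hc.comp (continuous_id.sub continuous_const)).measurable.ennreal_ofReal
  rw [lintegral_mul_const _ hP]
  have e3 : ∫⁻ x, ENNReal.ofReal (φ (x - y)) = 1 := by
    rw [lintegral_sub_right_eq_self (fun y => ENNReal.ofReal (φ y)) y, h1]
  exact (congrArg (· * ‖g y‖ₑ ^ (2 : ℝ)) e3).trans (one_mul _)

theorem par (a b : ℂ) : ‖a - b‖ₑ ^ (2 : ℝ) + ‖a + b‖ₑ ^ (2 : ℝ) =
    2 * ‖a‖ₑ ^ (2 : ℝ) + 2 * ‖b‖ₑ ^ (2 : ℝ) := by
  have h : ∀ z : ℂ, ‖z‖ₑ ^ (2 : ℝ) = ENNReal.ofReal (‖z‖ ^ 2) := fun z => by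
    rw [← ofReal_norm, ENNReal.rpow_two, ENNReal.ofReal_pow (norm_nonneg z)]
  have e := parallelogram_law_with_norm ℂ a b
  rw [h, h, h, h, ← ENNReal.ofReal_add (by positivity) (by positivity), ← ENNReal.ofReal_ofNat 2,
    ← ENNReal.ofReal_mul (by positivity), ← ENNReal.ofReal_mul (by positivity),
    ← ENNReal.ofReal_add (by positivity) (by positivity)]
  congr 1
  nlinarith

/-- Almost everywhere convergence without loss of norm is convergence in norm. -/
theorem tendsto_of_ae {f : ℕ → V → ℂ} {g : V → ℂ} (hf : ∀ n, AEStronglyMeasurable (f n) volume)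
    (hg : AEStronglyMeasurable g volume) (hA : ∫⁻ y, ‖g y‖ₑ ^ (2 : ℝ) ≠ ⊤)
    (hle : ∀ n, ∫⁻ x, ‖f n x‖ₑ ^ (2 : ℝ) ≤ ∫⁻ y, ‖g y‖ₑ ^ (2 : ℝ))
    (hae : ∀ᵐ x, Tendsto (fun n => f n x) atTop (𝓝 (g x))) :
    Tendsto (fun n => ∫⁻ x, ‖f n x - g x‖ₑ ^ (2 : ℝ)) atTop (𝓝 0) := by
  set A := ∫⁻ y, ‖g y‖ₑ ^ (2 : ℝ) with hAd
  have hsum : ∀ n, (∫⁻ x, ‖f n x - g x‖ₑ ^ (2 : ℝ)) + ∫⁻ x, ‖f n x + g x‖ₑ ^ (2 : ℝ) ≤ 4 * A := by
    intro n
    have hm : AEMeasurable (fun x => ‖f n x - g x‖ₑ ^ (2 : ℝ)) volume :=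
      ((hf n).sub hg).enorm.pow_const _
    rw [← lintegral_add_left' hm]
    simp only [par]
    rw [lintegral_add_left' (((hf n).enorm.pow_const _).const_mul _),
      lintegral_const_mul'' _ ((hf n).enorm.pow_const _),
      lintegral_const_mul'' _ (hg.enorm.pow_const _)]
    calc 2 * (∫⁻ x, ‖f n x‖ₑ ^ (2 : ℝ)) + 2 * A ≤ 2 * A + 2 * A := by
          gcongr
          exact hle n
      _ = 4 * A := by ring
  have hfat : 4 * A ≤ liminf (fun n => ∫⁻ x, ‖f n x + g x‖ₑ ^ (2 : ℝ)) atTop := by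
    refine le_trans (le_of_eq ?_)
      (lintegral_liminf_le' fun n => ((hf n).add hg).enorm.pow_const (2 : ℝ))
    rw [hAd, ← lintegral_const_mul'' _ (hg.enorm.pow_const _)]
    refine lintegral_congr_ae ?_
    filter_upwards [hae] with x hx
    have h1 : Tendsto (fun n => ‖f n x + g x‖ₑ ^ (2 : ℝ)) atTop (𝓝 (‖g x + g x‖ₑ ^ (2 : ℝ))) :=
      (ENNReal.continuous_rpow_const.tendsto _).comp (hx.add_const _).enorm
    have h2 := par (g x) (g x)
    rw [sub_self, enorm_zero, ENNReal.zero_rpow_of_pos two_pos, zero_add] at h2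
    refine Eq.trans ?_ h1.liminf_eq.symm
    rw [h2]
    ring
  have h4 : 4 * A ≠ ⊤ := ENNReal.mul_ne_top (by norm_num) hA
  rw [ENNReal.tendsto_nhds_zero]
  intro ε hε
  rcases le_or_gt (4 * A) ε with h | h
  · exact Eventually.of_forall fun n => (le_self_add.trans (hsum n)).trans h
  have hlt : 4 * A - ε < 4 * A := ENNReal.sub_lt_self h4 (ne_of_gt (hε.trans h)) hε.ne'
  filter_upwards [eventually_lt_of_lt_liminf (hlt.trans_le hfat)] with n hn
  have h5 : (∫⁻ x, ‖f n x - g x‖ₑ ^ (2 : ℝ)) + (4 * A - ε) ≤ ε + (4 * A - ε) := by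
    rw [add_tsub_cancel_of_le h.le]
    exact le_trans (by gcongr) (hsum n)
  exact ENNReal.le_of_add_le_add_right (ENNReal.sub_ne_top h4) h5

/-- The bump functions. -/
def bump (n : ℕ) : ContDiffBump (0 : V) where
  rIn := 1 / ((n : ℝ) + 1) / 2
  rOut := 1 / ((n : ℝ) + 1)
  rIn_pos := by positivity
  rIn_lt_rOut := half_lt_self (by positivity)

end Moll

open Moll in
theorem moll : MollStmt := by
  refine ⟨fun n => (bump n).normed volume, fun n => (bump n).contDiff_normed,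
    fun n => (bump n).hasCompactSupport_normed, fun n => (bump n).tsupport_normed_eq.le, ?_⟩
  intro g hg
  have hl : LocallyIntegrable g volume := hg.locallyIntegrable one_le_two
  have hae : ∀ᵐ x, Tendsto (fun n => conv ((bump n).normed volume) g x) atTop (𝓝 (g x)) := by
    simp only [conv_eq]
    exact ContDiffBump.ae_convolution_tendsto_right_of_locallyIntegrable (K := 2)
      tendsto_one_div_add_atTop_nhds_zero_nat
      (Eventually.of_forall fun n => le_of_eq (by simp only [bump]; ring)) hl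
  refine ⟨?_, hae⟩
  have hm : ∀ n, AEStronglyMeasurable (conv ((bump n).normed volume) g) volume := by
    intro n
    rw [conv_eq]
    exact ((bump n).hasCompactSupport_normed.continuous_convolution_left _
      (bump n).continuous_normed hl).aestronglyMeasurable
  have hA : ∫⁻ y, ‖g y‖ₑ ^ (2 : ℝ) ≠ ⊤ := by
    have := lintegral_rpow_enorm_lt_top_of_eLpNorm_lt_top two_ne_zero ENNReal.ofNat_ne_top hg.2
    simpa using this.ne
  have h1 : ∀ n, ∫⁻ x, ENNReal.ofReal ((bump n).normed volume x) = 1 := by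
    intro n
    rw [← ofReal_integral_eq_lintegral_ofReal (bump n).integrable_normed
      (Eventually.of_forall (bump n).nonneg_normed), (bump n).integral_normed, ENNReal.ofReal_one]
  have h2 := tendsto_of_ae hm hg.1 hA
    (fun n => young (bump n).continuous_normed (bump n).nonneg_normed (h1 n) hg.1) hae
  have h3 := ((ENNReal.continuous_rpow_const (y := (1 / 2 : ℝ))).tendsto _).comp h2
  rw [ENNReal.zero_rpow_of_pos (by norm_num)] at h3
  refine h3.congr fun n => ?_
  rw [eLpNorm_eq_lintegral_rpow_enorm_toReal two_ne_zero ENNReal.ofNat_ne_top]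
  simp

end Pool.Agent.MP54.PDE

end
end MrgPart1

-- ======== part 2: formerly Pool.Agent.MP_54e5d7_al.atc.pde.Pu
section MrgPart2

/-! Row PU: a partition of unity subordinate to the charts. -/

open Set Filter
open scoped ContDiff Topology

noncomputable section

namespace Pool.Agent.MP54.PDE

namespace Pu

variable {Γ : Type} [Group Γ] (C : Chart Γ)

theorem sub2 : C.U2 ⊆ C.Om := subset_closure.trans C.s2

theorem mem_D {g : Γ} {z : V} (hz : z ∈ C.U2) (hg : C.act g z ∈ C.U2) : g ∈ C.D := by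
  simp only [Chart.D, Set.Finite.mem_toFinset]
  exact ⟨z, hz, hg⟩

theorem act_smooth (hs : SmoothStmt) (g : Γ) : ContDiffOn ℝ ∞ (C.act g) C.Om :=
  (hs _ _ C.oOm (C.hol g).fst).prodMk (hs _ _ C.oOm (C.hol g).snd)

theorem reindex {R : Type} [NonUnitalNonAssocSemiring R] (r : V → R)
    (hr : ∀ w, w ∉ C.U2 → r w = 0) (δ : Γ) (X : Γ → R) {z : V} (hz : z ∈ C.ov δ) :
    ∑ g ∈ C.D, r (C.act g (C.act δ z)) * X (g * δ) = ∑ g ∈ C.D, r (C.act g z) * X g := by
  have key : ∀ (w : V), w ∈ C.U2 → ∀ Y : Γ → R,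
      ∑ᶠ g, r (C.act g w) * Y g = ∑ g ∈ C.D, r (C.act g w) * Y g := by
    intro w hw Y
    refine finsum_eq_sum_of_support_subset _ fun g hg => ?_
    by_contra hc
    apply hg
    have : C.act g w ∉ C.U2 := fun h => hc (mem_D C hw h)
    simp only [hr _ this, zero_mul]
  rw [← key _ hz.2 fun g => X (g * δ), ← key _ hz.1 X,
    ← finsum_comp_equiv (Equiv.mulRight δ) (f := fun g => r (C.act g z) * X g)]
  refine finsum_congr fun g => ?_
  rw [Equiv.coe_mulRight, C.mul g δ z (sub2 C hz.1)]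

end Pu

open Pu in
theorem pu (hs : SmoothStmt) : PUStmt := by
  intro Γ _ C
  obtain ⟨f, hf1, hf2, hf3⟩ := C.o1.exists_contDiff_support_eq (n := ⊤)
  have f0 : ∀ z, 0 ≤ f z := fun z => (hf3 (mem_range_self z)).1
  have fz : ∀ w, w ∉ C.U1 → f w = 0 := fun w hw => by
    rw [← hf1] at hw
    exact Function.notMem_support.1 hw
  have fz2 : ∀ w, w ∉ C.U2 → f w = 0 := fun w hw =>
    fz w fun h => hw (C.s12 (subset_closure h))
  set S : V → ℝ := fun z => ∑ g ∈ C.D, f (C.act g z) with hS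
  have Spos : ∀ z ∈ C.U2, 0 < S z := by
    intro z hz
    obtain ⟨g, hg⟩ := C.cover z (sub2 C hz)
    refine Finset.sum_pos' (fun g _ => f0 _) ⟨g, mem_D C hz (C.s12 (subset_closure hg)), ?_⟩
    refine lt_of_le_of_ne (f0 _) (Ne.symm ?_)
    rw [← hf1] at hg
    exact hg
  have Sge : ∀ z ∈ C.U2, f z ≤ S z := by
    intro z hz
    have h1 : C.act 1 z = z := C.one z (sub2 C hz)
    have := Finset.single_le_sum (f := fun g => f (C.act g z)) (fun g _ => f0 _)
      (mem_D C hz (h1.symm ▸ hz))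
    simpa only [h1] using this
  have Sinv : ∀ δ, ∀ z ∈ C.ov δ, S (C.act δ z) = S z := by
    intro δ z hz
    simpa only [mul_one] using reindex C f fz2 δ (fun _ => 1) hz
  have Ssm : ContDiffOn ℝ ∞ S C.Om :=
    ContDiffOn.sum fun g _ => hf2.comp_contDiffOn (act_smooth C hs g)
  have hsupp : tsupport (fun z => f z / S z) ⊆ closure C.U1 := by
    refine closure_mono fun z hz => ?_
    by_contra hc
    exact hz (by simp only [fz z hc, zero_div])
  refine ⟨fun z => f z / S z, ?_, ?_, hsupp.trans C.s12, fun z => ?_, fun z hz => ?_,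
    fun δ X z hz => ?_⟩
  · refine contDiff_iff_contDiffAt.2 fun z => ?_
    by_cases hz : z ∈ C.U2
    · exact hf2.contDiffAt.div (Ssm.contDiffAt (C.oOm.mem_nhds (sub2 C hz))) (Spos z hz).ne'
    · have h1 : z ∉ tsupport fun z => f z / S z := fun h => hz (C.s12 (hsupp h))
      exact (contDiffAt_const (c := (0 : ℝ))).congr_of_eventuallyEq
        (notMem_tsupport_iff_eventuallyEq.1 h1)
  · exact C.c1.of_isClosed_subset (isClosed_tsupport _) hsupp
  · by_cases hz : z ∈ C.U2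
    · exact ⟨div_nonneg (f0 z) (Spos z hz).le, (div_le_one (Spos z hz)).2 (Sge z hz)⟩
    · simp only [fz2 z hz, zero_div, le_refl, zero_le_one, and_self]
  · have : ∀ g ∈ C.D, f (C.act g z) / S (C.act g z) = f (C.act g z) / S z := by
      intro g _
      by_cases hg : C.act g z ∈ C.U2
      · rw [Sinv g z ⟨hz, hg⟩]
      · simp only [fz2 _ hg, zero_div]
    rw [Finset.sum_congr rfl this, ← Finset.sum_div]
    exact div_self (Spos z hz).ne'
  · exact reindex C (fun w => ((f w / S w : ℝ) : ℂ))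
      (fun w hw => by simp only [fz2 w hw, zero_div, Complex.ofReal_zero]) δ X hz

end Pool.Agent.MP54.PDE

end
end MrgPart2

-- ======== part 3: formerly Pool.Agent.MP_54e5d7_al.atc.pde.Scv
section MrgPart3

/-! Holomorphic functions of two variables: smoothness, limits, mean value inequality. -/

open Set MeasureTheory Complex Filter Metric
open scoped ContDiff ENNReal Topology ComplexConjugate

noncomputable section

namespace Pool.Agent.MP54.PDE

namespace Scv

/-- Cutting the function off does not change the convolution well inside. -/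
theorem conv_ind {θ : V → ℝ} {δ : ℝ} (hθ : tsupport θ ⊆ closedBall 0 δ) (h : V → ℂ)
    {K : Set V} {y : V} (hy : closedBall y δ ⊆ K) : conv θ (K.indicator h) y = conv θ h y := by
  unfold conv
  congr 1
  funext z
  by_cases hz : z ∈ K
  · rw [indicator_of_mem hz]
  · have : θ (y - z) = 0 := by
      by_contra hne
      have h1 := hθ (subset_tsupport _ hne)
      apply hz
      apply hy
      rw [mem_closedBall, dist_zero_right] at h1
      rw [mem_closedBall, dist_comm, dist_eq_norm]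
      exact h1
    simp [this]

theorem ball_sub {x y : V} {r : ℝ} (hy : y ∈ ball x r) : closedBall y r ⊆ closedBall x (2 * r) := by
  apply closedBall_subset_closedBall'
  have := mem_ball.1 hy
  linarith

theorem exists_rad {Ω : Set V} (hΩ : IsOpen Ω) {x : V} (hx : x ∈ Ω) :
    ∃ r : ℝ, 0 < r ∧ closedBall x (2 * r) ⊆ Ω := by
  obtain ⟨ε, hε, hb⟩ := Metric.isOpen_iff.1 hΩ x hx
  refine ⟨ε / 4, by positivity, ?_⟩
  exact (closedBall_subset_ball (by linarith)).trans hb

theorem int_ind {K : Set V} (hK : IsCompact K) {h : V → ℂ} (hh : ContinuousOn h K) :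
    Integrable (K.indicator h) volume :=
  (integrable_indicator_iff hK.measurableSet).2 (hh.integrableOn_compact hK)

/-- The converse of the Cauchy-Riemann equations. -/
theorem cr {u : V → ℂ} {z : V} (hu : DifferentiableAt ℝ u z) (h0 : db 0 u z = 0)
    (h1 : db 1 u z = 0) : DifferentiableAt ℂ u z := by
  set L := fderiv ℝ u z with hL
  have a0 : L (I • e 0) = I * L (e 0) := by
    unfold db at h0
    rw [← hL] at h0
    have : L (e 0) + I * L (I • e 0) = 0 := by
      linear_combination 2 * h0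
    linear_combination (-I) * this + L (I • e 0) * I_mul_I
  have a1 : L (I • e 1) = I * L (e 1) := by
    unfold db at h1
    rw [← hL] at h1
    have : L (e 1) + I * L (I • e 1) = 0 := by
      linear_combination 2 * h1
    linear_combination (-I) * this + L (I • e 1) * I_mul_I
  let F : V →L[ℂ] ℂ :=
    L (e 0) • ContinuousLinearMap.fst ℂ ℂ ℂ + L (e 1) • ContinuousLinearMap.snd ℂ ℂ ℂ
  have hF : F.restrictScalars ℝ = L := by
    refine ContinuousLinearMap.ext fun v => ?_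
    have hv : v = v.1.re • e 0 + v.1.im • (I • e 0) + (v.2.re • e 1 + v.2.im • (I • e 1)) := by
      ext <;> simp [e]
    have hFv : F.restrictScalars ℝ v = L (e 0) * v.1 + L (e 1) * v.2 := by
      simp [F]
    rw [hFv]
    conv_rhs => rw [hv]
    simp only [map_add, map_smul, a0, a1, real_smul]
    linear_combination (-L (e 0)) * re_add_im v.1 - L (e 1) * re_add_im v.2
  exact (hasFDerivAt_of_restrictScalars ℝ hu.hasFDerivAt hF).differentiableAt

/-- Passing to the limit in an integral against a fixed integrable kernel. -/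
theorem tend_int {ι : Type} {l : Filter ι} {K : Set V} (hK : IsCompact K) {f : ι → V → ℂ}
    {h : V → ℂ} (hf : ∀ᶠ n in l, ContinuousOn (f n) K) (hh : ContinuousOn h K)
    (hu : TendstoUniformlyOn f h l K) {k : V → ℂ} (hk : Continuous k) :
    Tendsto (fun n => ∫ y, K.indicator (f n) y * k y) l (𝓝 (∫ y, K.indicator h y * k y)) := by
  have hI : ∀ g : V → ℂ, ContinuousOn g K → Integrable (fun y => K.indicator g y * k y) volume := by
    intro g hg
    have := int_ind hK (hg.mul hk.continuousOn)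
    refine this.congr (Eventually.of_forall fun y => ?_)
    by_cases hy : y ∈ K <;> simp [hy]
  have hkI : Integrable (K.indicator fun y => ‖k y‖) volume :=
    (integrable_indicator_iff hK.measurableSet).2 (hk.norm.continuousOn.integrableOn_compact hK)
  set A : ℝ := ∫ y, K.indicator (fun y => ‖k y‖) y with hA
  have hA0 : 0 ≤ A := integral_nonneg fun y => indicator_nonneg (fun _ _ => norm_nonneg _) y
  rw [Metric.tendsto_nhds]
  intro ε hε
  have hε' : 0 < ε / (A + 1) := by positivity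
  filter_upwards [hf, Metric.tendstoUniformlyOn_iff.1 hu _ hε'] with n hn hd
  rw [dist_eq_norm, ← integral_sub (hI _ hn) (hI _ hh)]
  have hle : ‖∫ y, (K.indicator (f n) y * k y - K.indicator h y * k y)‖ ≤
      ∫ y, ε / (A + 1) * K.indicator (fun y => ‖k y‖) y := by
    apply norm_integral_le_of_norm_le (hkI.const_mul _)
    refine Eventually.of_forall fun y => ?_
    by_cases hy : y ∈ K
    · simp only [indicator_of_mem hy]
      rw [← sub_mul, norm_mul]
      apply mul_le_mul_of_nonneg_right _ (norm_nonneg _)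
      have := hd y hy
      rw [dist_comm, dist_eq_norm] at this
      exact this.le
    · simp [hy]
  rw [integral_const_mul, ← hA] at hle
  refine hle.trans_lt ?_
  rw [div_mul_eq_mul_div, div_lt_iff₀ (by positivity)]
  nlinarith

end Scv

open Scv

theorem smooth (hM : MVStmt) (hC : ConvStmt) : SmoothStmt := by
  intro Ω h hΩ hh x hx
  obtain ⟨r, hr, hb⟩ := exists_rad hΩ hx
  obtain ⟨θ, hθ1, hθ2, hθ3, hθ4⟩ := hM r hr
  have hK : IsCompact (closedBall x (2 * r)) := isCompact_closedBall _ _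
  have hg := (int_ind hK (hh.continuousOn.mono hb)).locallyIntegrable
  have hs := (hC θ hθ1 hθ2 _ hg).1
  have he : h =ᶠ[𝓝 x] conv θ ((closedBall x (2 * r)).indicator h) := by
    filter_upwards [ball_mem_nhds x hr] with y hy
    rw [conv_ind hθ3 h (ball_sub hy), hθ4 Ω h hΩ hh y ((ball_sub hy).trans hb)]
  exact (hs.contDiffAt.congr_of_eventuallyEq he).contDiffWithinAt

theorem lim (hM : MVStmt) (hC : ConvStmt) : LimStmt := by
  intro Ω ι l _ f h hΩ hf hu x hx
  obtain ⟨r, hr, hb⟩ := exists_rad hΩ hx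
  obtain ⟨θ, hθ1, hθ2, hθ3, hθ4⟩ := hM r hr
  have hK : IsCompact (closedBall x (2 * r)) := isCompact_closedBall _ _
  set K := closedBall x (2 * r) with hKd
  have hfc : ∀ᶠ n in l, ContinuousOn (f n) Ω := hf.mono fun n hn => hn.continuousOn
  have hhc : ContinuousOn h Ω := hu.continuousOn hfc.frequently
  have hfK : ∀ᶠ n in l, ContinuousOn (f n) K := hfc.mono fun n hn => hn.mono hb
  have hhK : ContinuousOn h K := hhc.mono hb
  have huK : TendstoUniformlyOn f h l K :=
    (tendstoLocallyUniformlyOn_iff_tendstoUniformlyOn_of_compact hK).1 (hu.mono hb)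
  have hg := (int_ind hK hhK).locallyIntegrable
  obtain ⟨hs, hdb, -⟩ := hC θ hθ1 hθ2 _ hg
  have hsm : ∀ y : V, ContDiff ℝ ∞ (fun z : V => (θ (y - z) : ℂ)) := fun y =>
    Complex.ofRealCLM.contDiff.comp (hθ1.comp (contDiff_const.sub contDiff_id))
  have hfe : ∀ᶠ n in l, ∀ y ∈ ball x r, f n y = conv θ (K.indicator (f n)) y := by
    filter_upwards [hf] with n hn y hy
    rw [conv_ind hθ3 _ (ball_sub hy), hθ4 Ω _ hΩ hn y ((ball_sub hy).trans hb)]
  have he : h =ᶠ[𝓝 x] conv θ (K.indicator h) := by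
    filter_upwards [ball_mem_nhds x hr] with y hy
    have h1 := tend_int hK hfK hhK huK (hsm y).continuous
    have h2 : Tendsto (fun n => f n y) l (𝓝 (h y)) :=
      huK.tendsto_at (ball_sub hy (mem_closedBall_self hr.le))
    have h3 : Tendsto (fun n => f n y) l (𝓝 (conv θ (K.indicator h) y)) := by
      have h4 : conv θ (K.indicator h) y = ∫ z, K.indicator h z * (θ (y - z) : ℂ) := by
        unfold conv
        simp only [mul_comm]
      rw [h4]
      refine h1.congr' ?_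
      filter_upwards [hfe] with n hn
      rw [hn y hy]
      unfold conv
      simp only [mul_comm]
    exact tendsto_nhds_unique h2 h3
  have hz : ∀ k, db k (conv θ (K.indicator h)) x = 0 := by
    intro k
    have hkc : Continuous (db k (fun z : V => (θ (x - z) : ℂ))) := by
      have hc := (hsm x).continuous_fderiv (by simp)
      unfold db
      exact ((hc.clm_apply continuous_const).add
        (continuous_const.mul (hc.clm_apply continuous_const))).div_const _
    have h1 := tend_int hK hfK hhK huK hkc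
    have h2 : ∀ᶠ n in l,
        (∫ y, K.indicator (f n) y * db k (fun z : V => (θ (x - z) : ℂ)) y) = 0 := by
      filter_upwards [hf, hfK, hfe] with n hn hnK hne
      have h3 := (hC θ hθ1 hθ2 _ (int_ind hK hnK).locallyIntegrable).2.1 k x
      have h4 : f n =ᶠ[𝓝 x] conv θ (K.indicator (f n)) := by
        filter_upwards [ball_mem_nhds x hr] with y hy using hne y hy
      have h5 : db k (conv θ (K.indicator (f n))) x = 0 := by
        unfold db
        rw [← h4.fderiv_eq]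
        have h6 := (hn.differentiableAt (hΩ.mem_nhds hx)).hasFDerivAt.restrictScalars ℝ
        rw [h6.fderiv]
        simp only [ContinuousLinearMap.coe_restrictScalars', map_smul, smul_eq_mul]
        rw [← mul_assoc, I_mul_I]
        ring
      rw [h5] at h3
      exact neg_eq_zero.1 h3.symm
    have h7 := tendsto_nhds_unique h1 (tendsto_const_nhds.congr' (h2.mono fun n hn => hn.symm))
    rw [hdb k x, h7, neg_zero]
  have hd : DifferentiableAt ℂ (conv θ (K.indicator h)) x :=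
    cr (hs.differentiable (by simp) x) (hz 0) (hz 1)
  exact (hd.congr_of_eventuallyEq he).differentiableWithinAt

theorem mean (hM : MVStmt) : MeanStmt := by
  intro Ω K hΩ hK hKΩ
  obtain ⟨δ, hδ, hb⟩ := hK.exists_cthickening_subset_open hΩ hKΩ
  obtain ⟨θ, hθ1, hθ2, hθ3, hθ4⟩ := hM δ hδ
  have hθc : Continuous θ := hθ1.continuous
  refine ⟨∫⁻ y, ‖θ y‖ₑ ^ (2 : ℝ), ?_, ?_⟩
  · have h1 : Integrable (fun y => θ y ^ 2) volume := by
      have h0 : HasCompactSupport (fun y => θ y ^ 2) :=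
        hθ2.comp_left (g := fun t : ℝ => t ^ 2) (by simp)
      have h0' : Continuous (fun y => θ y ^ 2) := hθc.pow 2
      exact h0'.integrable_of_hasCompactSupport h0
    have h2 := h1.2
    unfold HasFiniteIntegral at h2
    refine ne_of_lt (lt_of_eq_of_lt ?_ h2)
    congr 1
    funext y
    rw [enorm_pow]
    norm_cast
  · intro h hh z hz
    have hzb : closedBall z δ ⊆ Ω := (closedBall_subset_cthickening hz δ).trans hb
    have h1 : h z = ∫ y in Ω, (θ (z - y) : ℂ) * h y := by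
      rw [← hθ4 Ω h hΩ hh z hzb, ← conv_ind hθ3 h hzb, ← integral_indicator hΩ.measurableSet]
      unfold conv
      congr 1
      funext y
      by_cases hy : y ∈ Ω <;> simp [hy]
    have hm1 : AEMeasurable (fun y => ‖θ (z - y)‖ₑ) (volume.restrict Ω) :=
      (hθc.comp (continuous_const.sub continuous_id)).enorm.measurable.aemeasurable
    have hm2 : AEMeasurable (fun y => ‖h y‖ₑ) (volume.restrict Ω) :=
      (hh.continuousOn.aestronglyMeasurable hΩ.measurableSet).enorm
    have h2 := ENNReal.lintegral_mul_le_Lp_mul_Lq (volume.restrict Ω) Real.HolderConjugate.two_two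
      hm1 hm2
    have h3 : ‖h z‖ₑ ≤ ∫⁻ y in Ω, ‖θ (z - y)‖ₑ * ‖h y‖ₑ := by
      rw [h1]
      refine (enorm_integral_le_lintegral_enorm _).trans (le_of_eq ?_)
      congr 1
      funext y
      rw [enorm_mul]
      congr 1
      simp [enorm, nnnorm]
    have h4 : ∫⁻ y in Ω, ‖θ (z - y)‖ₑ ^ (2 : ℝ) ≤ ∫⁻ y, ‖θ y‖ₑ ^ (2 : ℝ) := by
      refine (setLIntegral_le_lintegral _ _).trans (le_of_eq ?_)
      have : (volume : Measure V).IsAddHaarMeasure :=
        Measure.prod.instIsAddHaarMeasure (volume : Measure ℂ) (volume : Measure ℂ)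
      exact lintegral_sub_left_eq_self (fun y => ‖θ y‖ₑ ^ (2 : ℝ)) z
    have h5 : nrm 0 Ω h = ∫⁻ y in Ω, ‖h y‖ₑ ^ (2 : ℝ) := by
      unfold nrm
      congr 1
      funext y
      simp only [Pi.zero_apply, neg_zero, Real.exp_zero, mul_one]
      rw [ENNReal.ofReal_pow (norm_nonneg _), ofReal_norm]
      norm_cast
    rw [h5, ENNReal.ofReal_pow (norm_nonneg _), ofReal_norm]
    have h6 := h3.trans h2
    have h7 : ∀ a : ℝ≥0∞, (a ^ (1 / 2 : ℝ)) ^ 2 = a := by
      intro a
      rw [← ENNReal.rpow_natCast, ← ENNReal.rpow_mul]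
      norm_num
    calc ‖h z‖ₑ ^ 2 ≤ _ := pow_le_pow_left' h6 2
      _ = (∫⁻ y in Ω, ‖θ (z - y)‖ₑ ^ (2 : ℝ)) * ∫⁻ y in Ω, ‖h y‖ₑ ^ (2 : ℝ) := by
        rw [mul_pow, h7, h7]
      _ ≤ _ := by gcongr

end Pool.Agent.MP54.PDE

end
end MrgPart3

-- ======== part 4: formerly Pool.Agent.MP_54e5d7_al.atc.pde.Step
section MrgPart4

/-! One step of the iteration: glue the local approximate solutions. -/

open Set MeasureTheory Complex Filter
open scoped ContDiff ENNReal Topology

noncomputable section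

namespace Pool.Agent.MP54.PDE

namespace StepAux

variable {Γ : Type} [Group Γ]

lemma U2_Om (C : Chart Γ) : C.U2 ⊆ C.Om := subset_closure.trans C.s2

lemma pre_open (C : Chart Γ) (g : Γ) {A : Set V} (hA : IsOpen A) : IsOpen (C.pre g A) :=
  ((C.hol g).continuousOn.mono (U2_Om C)).isOpen_inter_preimage C.o2 hA

lemma ov_open (C : Chart Γ) (g : Γ) : IsOpen (C.ov g) := pre_open C g C.o2

lemma pre_meas (C : Chart Γ) (g : Γ) {K : Set V} (hK : IsClosed K) :
    MeasurableSet (C.pre g K) := by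
  have e : C.pre g K = C.U2 \ C.pre g Kᶜ := by
    ext z
    simp only [Chart.pre, mem_ofPred_eq, Set.mem_sdiff, mem_compl_iff]
    tauto
  rw [e]
  exact C.o2.measurableSet.diff (pre_open C g hK.isOpen_compl).measurableSet

lemma db_sub_hol {P h : V → ℂ} {z : V} (hP : DifferentiableAt ℝ P z)
    (hh : DifferentiableAt ℂ h z) (k : Fin 2) : db k (P - h) z = db k P z := by
  have h1 : fderiv ℝ (P - h) z = fderiv ℝ P z - (fderiv ℂ h z).restrictScalars ℝ :=
    (hP.hasFDerivAt.sub (hh.hasFDerivAt.restrictScalars ℝ)).fderiv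
  have h2 : (fderiv ℂ h z) (I • e k) = I * (fderiv ℂ h z) (e k) := by
    rw [map_smul, smul_eq_mul]
  unfold db
  rw [h1]
  simp only [sub_apply, ContinuousLinearMap.coe_restrictScalars', h2]
  linear_combination (-(fderiv ℂ h z) (e k) / 2) * I_mul_I

lemma en_sub_hol (ψ : V → ℝ) {A O : Set V} (hA : MeasurableSet A) (hO : IsOpen O) (hAO : A ⊆ O)
    {P h : V → ℂ} (hP : ContDiffOn ℝ ∞ P O) (hh : DifferentiableOn ℂ h O) :
    en ψ A (P - h) = en ψ A P := by
  have key : ∀ k, nrm ψ A (db k (P - h)) = nrm ψ A (db k P) := by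
    intro k
    refine setLIntegral_congr_fun hA fun z hz => ?_
    have hz' := hO.mem_nhds (hAO hz)
    rw [db_sub_hol ((hP.contDiffAt hz').differentiableAt (by simp)) (hh.differentiableAt hz')]
  unfold en
  rw [key 0, key 1]

variable {C : Chart Γ} {J : Type} [MulAction Γ J]

lemma a_ne (B : Bundle C J) (i : J) (g : Γ) {z : V} (hz : z ∈ C.ov g) : B.a i g z ≠ 0 := by
  intro h
  have := B.inv i g z hz
  rw [h] at this
  simp at this
  exact (Real.exp_pos _).ne' this.symm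

lemma sec (B : Bundle C J) {ρ : V → ℝ} (hρ : C.IsPU ρ) (w : J → V → ℂ) :
    B.Sec fun i => C.glue ρ fun g z => w (g • i) (C.act g z) / B.a i g z := by
  intro i δ z hz
  have h1 := hρ.2.2.2.2.2 δ (fun g => B.a i δ z * (w (g • i) (C.act g z) / B.a i g z)) z hz
  have ha := a_ne B i δ hz
  unfold Chart.glue
  rw [Finset.mul_sum]
  refine Eq.trans (Finset.sum_congr rfl fun g _ => ?_)
    (h1.trans (Finset.sum_congr rfl fun g _ => by ring))
  by_cases hg : C.act g (C.act δ z) ∈ C.U2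
  · rw [B.coc i g δ z hz.1 hz.2 hg, C.mul g δ z (U2_Om C hz.1), mul_smul]
    have hb := a_ne B (δ • i) g (z := C.act δ z) ⟨hz.2, hg⟩
    field_simp
  · have : ρ (C.act g (C.act δ z)) = 0 :=
      image_eq_zero_of_notMem_tsupport fun h => hg (hρ.2.2.1 h)
    simp [this]

lemma tsum_reindex (D : Finset Γ) (M L : ℝ≥0∞) (E : J → ℝ≥0∞) :
    ∑' i, M * ∑ g ∈ D, L * E (g • i) = M * (D.card * L) * ∑' i, E i := by
  rw [ENNReal.tsum_mul_left, Summable.tsum_finsetSum fun _ _ => ENNReal.summable]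
  have : ∀ g ∈ D, ∑' i, L * E (g • i) = L * ∑' i, E i := fun g _ => by
    rw [ENNReal.tsum_mul_left]
    exact congrArg _ ((MulAction.toPerm g).tsum_eq E)
  rw [Finset.sum_congr rfl this, Finset.sum_const, nsmul_eq_mul]
  ring

end StepAux

open StepAux

theorem step (hL : LocalStmt) (hT : TrStmt) (hP : PUStmt) (hG : GlueStmt) : StepStmt := by
  intro Γ _ C
  obtain ⟨ρ, hρ⟩ := hP Γ C
  obtain ⟨MG, hMG, hG⟩ := hG Γ C ρ hρ
  obtain ⟨MT, hMT, hT⟩ := hT Γ C
  have hK : IsCompact (tsupport ρ) := hρ.2.1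
  have hKU : tsupport ρ ⊆ C.U2 := hρ.2.2.1
  set N : ℝ≥0∞ := 8 * (MG * (C.D.card * MT)) with hN
  have hNt : N ≠ ⊤ :=
    ENNReal.mul_ne_top (by simp) (ENNReal.mul_ne_top hMG (ENNReal.mul_ne_top (by simp) hMT))
  have hN1 : N * N⁻¹ ≤ 1 := ENNReal.mul_inv_le_one N
  obtain ⟨c0, hc⟩ := hL C.U2 (tsupport ρ) C.o2 hK hKU N⁻¹ (ENNReal.inv_pos.2 hNt)
  generalize N⁻¹ = η at hN1 hc
  refine ⟨c0, fun J _ B hneg b hb hcob => ?_⟩
  choose w hw hw1 hw2 using fun i => hc B.psi B.smooth hneg (b i) (hb i)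
  have hws : ∀ i, ContDiffOn ℝ ∞ (w i) C.U2 := fun i => (hw i).1.contDiffOn
  have hKm : MeasurableSet (tsupport ρ) := (isClosed_tsupport ρ).measurableSet
  set F : J → Γ → V → ℂ := fun i g z => w (g • i) (C.act g z) / B.a i g z with hF
  have hFs : ∀ i g, ContDiffOn ℝ ∞ (F i g) (C.ov g) := fun i g =>
    ((hT J B i g _ hKm hKU (w (g • i))).2 (hws _)).1
  have hF1 : ∀ i g, nrm B.psi (C.pre g (tsupport ρ)) (F i g) ≤
      MT * η * en B.psi C.U2 (b (g • i)) := fun i g => by
    refine (hT J B i g _ hKm hKU (w (g • i))).1.trans ?_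
    rw [mul_assoc]
    gcongr
    exact le_trans (lintegral_mono_set hKU) (hw1 _)
  have hF2 : ∀ i g, en B.psi (C.pre g (tsupport ρ)) (b i - F i g) ≤
      MT * η * en B.psi C.U2 (b (g • i)) := fun i g => by
    obtain ⟨h1, h2⟩ := (hT J B i g _ hKm hKU (b (g • i) - w (g • i))).2 ((hb _).sub (hws _))
    have e : b i - F i g =
        (fun z => (b (g • i) - w (g • i)) (C.act g z) / B.a i g z) - B.cob b i g := by
      funext z
      simp only [hF, Bundle.cob, Pi.sub_apply]
      ring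
    rw [e, en_sub_hol _ (pre_meas C g (isClosed_tsupport ρ)) (ov_open C g)
      (fun z hz => ⟨hz.1, hKU hz.2⟩) h1 (hcob i g)]
    refine h2.trans ?_
    rw [mul_assoc]
    gcongr
    exact hw2 _
  have hGi := fun i => hG B.psi B.smooth.continuousOn (F i) (hFs i)
  refine ⟨fun i => C.glue ρ (F i), fun i => (hGi i).1, sec B hρ w, ?_, ?_⟩
  · calc ∑' i, nrm B.psi C.U2 (C.glue ρ (F i))
        ≤ ∑' i, MG * ∑ g ∈ C.D, MT * η * en B.psi C.U2 (b (g • i)) := by
          refine ENNReal.tsum_le_tsum fun i => (hGi i).2.1.trans ?_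
          gcongr with g
          exact hF1 i g
      _ = MG * (C.D.card * (MT * η)) * ∑' i, en B.psi C.U2 (b i) :=
          tsum_reindex C.D MG (MT * η) fun i => en B.psi C.U2 (b i)
      _ ≤ 8 * (MG * (C.D.card * (MT * η)) * ∑' i, en B.psi C.U2 (b i)) :=
          le_mul_of_one_le_left' (by norm_num : (1 : ℝ≥0∞) ≤ 8)
      _ = N * η * ∑' i, en B.psi C.U2 (b i) := by rw [hN]; ring
      _ ≤ _ := mul_le_of_le_one_left' hN1
  · calc 4 * ∑' i, en B.psi C.U2 (b i - C.glue ρ (F i))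
        ≤ 4 * ∑' i, MG * ∑ g ∈ C.D, 2 * (MT * η) * en B.psi C.U2 (b (g • i)) := by
          gcongr with i
          refine ((hGi i).2.2 (b i) (hb i)).trans ?_
          gcongr with g
          rw [mul_assoc 2, two_mul]
          exact add_le_add (hF1 i g) (hF2 i g)
      _ = 4 * (MG * (C.D.card * (2 * (MT * η))) * ∑' i, en B.psi C.U2 (b i)) := by
          rw [tsum_reindex C.D MG (2 * (MT * η)) fun i => en B.psi C.U2 (b i)]
      _ = N * η * ∑' i, en B.psi C.U2 (b i) := by rw [hN]; ring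
      _ ≤ _ := mul_le_of_le_one_left' hN1

end Pool.Agent.MP54.PDE

end
end MrgPart4

-- ======== part 5: formerly Pool.Agent.MP_54e5d7_al.atc.pde.Sup
section MrgPart5

/-! Row SUP: from square norms to sup norms. -/

open Set MeasureTheory Complex Filter
open scoped ContDiff ENNReal Topology ComplexConjugate

noncomputable section

namespace Pool.Agent.MP54.PDE

namespace SupA

theorem nrm_le_bound {ψ : V → ℝ} {A : Set V} (hA : MeasurableSet A) {M N : ℝ} {f : V → ℂ}
    (hψ : ∀ z ∈ A, |ψ z| ≤ M) (hf : ∀ z ∈ A, ‖f z‖ ≤ N) :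
    nrm ψ A f ≤ ENNReal.ofReal (N ^ 2) * (ENNReal.ofReal (Real.exp M) * volume A) := by
  unfold nrm
  calc ∫⁻ z in A, ENNReal.ofReal (‖f z‖ ^ 2 * Real.exp (-ψ z))
      ≤ ∫⁻ _ in A, ENNReal.ofReal (N ^ 2 * Real.exp M) := by
        refine setLIntegral_mono' hA fun z hz => ENNReal.ofReal_le_ofReal ?_
        have h1 : ‖f z‖ ^ 2 ≤ N ^ 2 := pow_le_pow_left₀ (norm_nonneg _) (hf z hz) 2
        have h2 : Real.exp (-ψ z) ≤ Real.exp M :=
          Real.exp_le_exp.mpr (by have := neg_abs_le (ψ z); have := hψ z hz; linarith)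
        exact mul_le_mul h1 h2 (Real.exp_pos _).le (sq_nonneg _)
    _ = _ := by
        rw [setLIntegral_const, ENNReal.ofReal_mul (sq_nonneg _), mul_assoc]

theorem nrm_zero_le {ψ : V → ℝ} {A : Set V} (hA : MeasurableSet A) {M : ℝ} (f : V → ℂ)
    (hψ : ∀ z ∈ A, |ψ z| ≤ M) :
    nrm 0 A f ≤ ENNReal.ofReal (Real.exp M) * nrm ψ A f := by
  unfold nrm
  rw [← lintegral_const_mul' _ _ ENNReal.ofReal_ne_top]
  refine setLIntegral_mono' hA fun z hz => ?_
  rw [← ENNReal.ofReal_mul (Real.exp_pos _).le]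
  refine ENNReal.ofReal_le_ofReal ?_
  have h2 : 1 ≤ Real.exp M * Real.exp (-ψ z) := by
    rw [← Real.exp_add]
    exact Real.one_le_exp (by have := le_abs_self (ψ z); have := hψ z hz; linarith)
  have h3 : (0 : ℝ) ≤ ‖f z‖ ^ 2 := sq_nonneg _
  simp only [Pi.zero_apply, neg_zero, Real.exp_zero, mul_one]
  nlinarith

variable {Γ : Type} [Group Γ]

theorem ov_open (C : Chart Γ) (g : Γ) : IsOpen (C.ov g) :=
  (((C.hol g).continuousOn).mono (subset_closure.trans C.s2)).isOpen_inter_preimage C.o2 C.o2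

theorem vol_ne_top (C : Chart Γ) : volume C.U2 ≠ ⊤ :=
  ((measure_mono subset_closure).trans_lt C.c2.measure_lt_top).ne

theorem tsum_le {J : Type} {T : J → ℝ≥0∞} {N : J → ℝ} {K : ℝ≥0∞}
    (hN : Summable fun i => N i ^ 2) (h : ∀ i, T i ≤ ENNReal.ofReal (N i ^ 2) * K) :
    ∑' i, T i ≤ ENNReal.ofReal (∑' i, N i ^ 2) * K := by
  rw [ENNReal.ofReal_tsum_of_nonneg (fun i => sq_nonneg _) hN, ← ENNReal.tsum_mul_right]
  exact ENNReal.tsum_le_tsum h

end SupA

open SupA

theorem sup (hm : MeanStmt) : SupStmt := by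
  intro Γ _ C J _ B
  obtain ⟨M, hM⟩ := B.bdd
  have h12 : C.U1 ⊆ C.U2 := subset_closure.trans C.s12
  set K : ℝ≥0∞ := ENNReal.ofReal (Real.exp M) * volume C.U2 with hK
  have hKt : K ≠ ⊤ := ENNReal.mul_ne_top ENNReal.ofReal_ne_top (vol_ne_top C)
  have hb : ∀ {A : Set V}, MeasurableSet A → A ⊆ C.U2 → ∀ {f : V → ℂ} {N : ℝ},
      (∀ z ∈ A, ‖f z‖ ≤ N) → nrm B.psi A f ≤ ENNReal.ofReal (N ^ 2) * K := by
    intro A hA hAU f N hf
    refine (nrm_le_bound hA (fun z hz => hM z (hAU hz)) hf).trans ?_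
    gcongr
    rw [hK]
    gcongr
  constructor
  · intro h0 h N hh hs hN hsum
    refine h0 h hh hs ?_
    refine (tsum_le hsum fun i => hb C.o1.measurableSet h12 (hN i)).trans_lt ?_
    exact ENNReal.mul_lt_top ENNReal.ofReal_lt_top hKt.lt_top
  · rintro ⟨M1, hM1, h1⟩
    obtain ⟨Mm, hMm, hmean⟩ := hm C.U2 (closure C.U1) C.o2 C.c1 C.s12
    set E : ℝ≥0∞ := Mm * ENNReal.ofReal (Real.exp M) with hE
    have hEt : E ≠ ⊤ := ENNReal.mul_ne_top hMm ENNReal.ofReal_ne_top
    set L : ℝ≥0∞ := E * (M1 * (C.D.card * K)) with hL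
    have hLt : L ≠ ⊤ := ENNReal.mul_ne_top hEt (ENNReal.mul_ne_top hM1
      (ENNReal.mul_ne_top (ENNReal.natCast_ne_top _) hKt))
    refine ⟨L.toReal, fun s N hs hN hsum => ?_⟩
    set S : ℝ≥0∞ := ENNReal.ofReal (∑' i, N i ^ 2) with hS
    have hsS : ∑ g ∈ C.D, ∑' i, nrm B.psi (C.ov g) (s i g) ≤ C.D.card * (S * K) := by
      rw [← nsmul_eq_mul]
      refine Finset.sum_le_card_nsmul _ _ _ fun g _ => ?_
      exact tsum_le hsum fun i => hb (ov_open C g).measurableSet (fun z hz => hz.1) (hN i g)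
    have hfin : (C.D.card : ℝ≥0∞) * (S * K) ≠ ⊤ :=
      ENNReal.mul_ne_top (ENNReal.natCast_ne_top _) (ENNReal.mul_ne_top ENNReal.ofReal_ne_top hKt)
    obtain ⟨h, hh, hc, hn⟩ := h1 s hs (ne_top_of_le_ne_top hfin hsS)
    have hT : ∑' i, E * nrm B.psi C.U2 (h i) ≤ L * S := by
      rw [ENNReal.tsum_mul_left]
      calc E * ∑' i, nrm B.psi C.U2 (h i) ≤ E * (M1 * (C.D.card * (S * K))) := by
            gcongr
            exact hn.trans (by gcongr)
        _ = L * S := by rw [hL]; ring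
    have hLS : L * S ≠ ⊤ := ENNReal.mul_ne_top hLt ENNReal.ofReal_ne_top
    have hTt : ∑' i, E * nrm B.psi C.U2 (h i) ≠ ⊤ := ne_top_of_le_ne_top hLS hT
    have hTi : ∀ i, E * nrm B.psi C.U2 (h i) ≠ ⊤ := fun i => ENNReal.ne_top_of_tsum_ne_top hTt i
    have hsq : ∀ i, Real.sqrt (E * nrm B.psi C.U2 (h i)).toReal ^ 2 =
        (E * nrm B.psi C.U2 (h i)).toReal := fun i => Real.sq_sqrt ENNReal.toReal_nonneg
    refine ⟨h, fun i => Real.sqrt (E * nrm B.psi C.U2 (h i)).toReal, hh, hc, ?_, ?_, ?_⟩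
    · intro i z hz
      refine Real.le_sqrt_of_sq_le ?_
      refine (ENNReal.ofReal_le_iff_le_toReal (hTi i)).mp ?_
      refine (hmean (h i) (hh i) z (subset_closure hz)).trans ?_
      rw [hE, mul_assoc]
      gcongr
      exact nrm_zero_le C.o2.measurableSet _ hM
    · simp only [hsq]
      exact ENNReal.summable_toReal hTt
    · simp only [hsq]
      rw [← ENNReal.tsum_toReal_eq hTi]
      refine (ENNReal.toReal_mono hLS hT).trans (le_of_eq ?_)
      rw [ENNReal.toReal_mul, hS, ENNReal.toReal_ofReal (tsum_nonneg fun i => sq_nonneg _)]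

end Pool.Agent.MP54.PDE

end
end MrgPart5

-- ======== part 6: formerly Pool.Agent.MP_54e5d7_al.atc.pde.Weyl1
section MrgPart6

/-! Weyl's lemma for the d-bar system, square integrable case. -/

open Set MeasureTheory Complex Filter
open scoped ContDiff ENNReal Topology

noncomputable section

namespace Pool.Agent.MP54.PDE

namespace W1

/-- The converse of the Cauchy-Riemann equations. -/
theorem cr {u : V → ℂ} {x : V} (hu : DifferentiableAt ℝ u x) (h : ∀ k, db k u x = 0) :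
    DifferentiableAt ℂ u x := by
  set L := fderiv ℝ u x with hL
  have hI : ∀ k, L (I • e k) = I * L (e k) := by
    intro k
    have h1 := h k
    unfold db at h1
    rw [← hL, div_eq_zero_iff] at h1
    have h2 : L (e k) + I * L (I • e k) = 0 := by simpa using h1
    linear_combination (-I) * h2 + (L (I • e k)) * I_mul_I
  let L' : V →L[ℂ] ℂ := (ContinuousLinearMap.fst ℂ ℂ ℂ).smulRight (L (e 0)) +
    (ContinuousLinearMap.snd ℂ ℂ ℂ).smulRight (L (e 1))
  have hL' : L'.restrictScalars ℝ = L := by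
    refine ContinuousLinearMap.ext fun v => ?_
    have hv : v = v.1.re • e 0 + v.1.im • (I • e 0) + (v.2.re • e 1 + v.2.im • (I • e 1)) := by
      ext <;> simp [e]
    have h3 : L v = v.1 * L (e 0) + v.2 * L (e 1) := by
      conv_lhs => rw [hv]
      simp only [map_add, map_smul, hI, real_smul]
      linear_combination (L (e 0)) * re_add_im v.1 + (L (e 1)) * re_add_im v.2
    simp [L', h3]
  exact (hasFDerivAt_of_restrictScalars ℝ hu.hasFDerivAt hL').differentiableAt

theorem refl_smooth {φ : V → ℝ} (h : ContDiff ℝ ∞ φ) (x : V) :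
    ContDiff ℝ ∞ (fun y => (φ (x - y) : ℂ)) :=
  ofRealCLM.contDiff.comp (h.comp (contDiff_const.sub contDiff_id))

theorem refl_supp {φ : V → ℝ} {r : ℝ} (h : tsupport φ ⊆ Metric.closedBall 0 r) (x : V) :
    tsupport (fun y => (φ (x - y) : ℂ)) ⊆ Metric.closedBall x r := by
  refine closure_minimal ?_ Metric.isClosed_closedBall
  intro y hy
  have h1 : x - y ∈ tsupport φ := subset_tsupport _ (by simpa using hy)
  have h2 := h h1
  rw [mem_closedBall_zero_iff] at h2
  rwa [Metric.mem_closedBall, dist_comm, dist_eq_norm]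

theorem refl_cpt {φ : V → ℝ} {r : ℝ} (h : tsupport φ ⊆ Metric.closedBall 0 r) (x : V) :
    HasCompactSupport (fun y => (φ (x - y) : ℂ)) :=
  (isCompact_closedBall x r).of_isClosed_subset (isClosed_tsupport _) (refl_supp h x)

/-- A smoothing of a weakly holomorphic function is holomorphic. -/
theorem conv_hol (hc : ConvStmt) {Ω : Set V} {g : V → ℂ} (hg : MemLp g 2 volume)
    (hw : ∀ φ, Test Ω φ → ∀ k, ∫ z, g z * db k φ z = 0) {φ : V → ℝ} (h1 : ContDiff ℝ ∞ φ)
    (h2 : HasCompactSupport φ) {r : ℝ} (h3 : tsupport φ ⊆ Metric.closedBall 0 r) {x : V}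
    (hx : Metric.closedBall x r ⊆ Ω) : DifferentiableAt ℂ (conv φ g) x := by
  obtain ⟨a, b, -⟩ := hc φ h1 h2 g (hg.locallyIntegrable (by norm_num))
  refine cr (a.differentiable (by simp) x) fun k => ?_
  rw [b, hw _ ⟨refl_smooth h1 x, refl_cpt h3 x, (refl_supp h3 x).trans hx⟩ k, neg_zero]

/-- Smoothing at a point is continuous for the square norm. -/
theorem conv_lim {θ : V → ℝ} (h1 : ContDiff ℝ ∞ θ) {r : ℝ}
    (h3 : tsupport θ ⊆ Metric.closedBall 0 r) {g : V → ℂ} (hg : MemLp g 2 volume)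
    {f : ℕ → V → ℂ} (hf : ∀ n, Continuous (f n))
    (hl : Tendsto (fun n => eLpNorm (f n - g) 2 volume) atTop (𝓝 0)) (x : V) :
    Tendsto (fun n => conv θ (f n) x) atTop (𝓝 (conv θ g x)) := by
  set T : V → ℂ := fun y => (θ (x - y) : ℂ) with hT
  have hTc : Continuous T := (refl_smooth h1 x).continuous
  have hTs : HasCompactSupport T := refl_cpt h3 x
  have hT2 : MemLp T 2 volume := hTc.memLp_of_hasCompactSupport hTs
  have hi : ∀ u : V → ℂ, LocallyIntegrable u volume → Integrable (fun y => T y * u y) volume :=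
    fun u hu => hu.integrable_smul_left_of_hasCompactSupport hTc hTs
  have hb : ∀ n, ‖conv θ (f n) x - conv θ g x‖ₑ ≤
      eLpNorm T 2 volume * eLpNorm (f n - g) 2 volume := by
    intro n
    have e1 : conv θ (f n) x - conv θ g x = ∫ y, (T • (f n - g)) y := by
      unfold conv
      rw [← integral_sub (hi _ (hf n).locallyIntegrable)
        (hi _ (hg.locallyIntegrable (by norm_num)))]
      refine integral_congr_ae (Eventually.of_forall fun y => ?_)
      simp [hT, mul_sub]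
    rw [e1]
    refine (enorm_integral_le_lintegral_enorm _).trans ?_
    rw [← eLpNorm_one_eq_lintegral_enorm]
    exact eLpNorm_smul_le_mul_eLpNorm ((hf n).aestronglyMeasurable.sub hg.1) hT2.1
  have h0 : Tendsto (fun n => eLpNorm T 2 volume * eLpNorm (f n - g) 2 volume) atTop (𝓝 0) := by
    simpa using ENNReal.Tendsto.const_mul hl (Or.inr hT2.2.ne)
  rw [tendsto_iff_enorm_sub_tendsto_zero]
  exact tendsto_of_tendsto_of_tendsto_of_le_of_le tendsto_const_nhds h0 (fun _ => zero_le) hb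

end W1

open W1 in
theorem weyl1 (hc : ConvStmt) (hm : MollStmt) (hv : MVStmt) : Weyl1Stmt := by
  intro Ω g hΩ hg hw
  obtain ⟨φ, p1, p2, p3, p4⟩ := hm
  obtain ⟨q1, q2⟩ := p4 g hg
  refine ⟨fun z => limUnder atTop fun n => conv (φ n) g z, ?_,
    ae_restrict_of_ae (q2.mono fun z hz => hz.limUnder_eq)⟩
  intro x0 hx0
  obtain ⟨ε, hε, hb⟩ := Metric.isOpen_iff.1 hΩ x0 hx0
  set d := ε / 4 with hd
  have hd0 : 0 < d := by positivity
  obtain ⟨θ, t1, t2, t3, t4⟩ := hv d hd0
  have hsub : ∀ x ∈ Metric.ball x0 (3 * d), ∀ r ≤ d, Metric.closedBall x r ⊆ Ω := by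
    intro x hx r hr
    refine (Metric.closedBall_subset_ball' ?_).trans hb
    rw [Metric.mem_ball] at hx
    linarith
  have hev : ∀ᶠ n : ℕ in atTop, 1 / ((n : ℝ) + 1) ≤ d :=
    (tendsto_one_div_add_atTop_nhds_zero_nat.eventually (ge_mem_nhds hd0))
  have hcont : ∀ n, Continuous (conv (φ n) g) := fun n =>
    (hc _ (p1 n) (p2 n) g (hg.locallyIntegrable (by norm_num))).1.continuous
  have key : ∀ x ∈ Metric.ball x0 d,
      (limUnder atTop fun n => conv (φ n) g x) = conv θ g x := by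
    intro x hx
    refine Tendsto.limUnder_eq ((conv_lim t1 t3 hg hcont q1 x).congr' ?_)
    filter_upwards [hev] with n hn
    refine t4 (Metric.ball x0 (3 * d)) _ Metric.isOpen_ball (fun y hy => ?_) x ?_
    · exact (conv_hol hc hg hw (p1 n) (p2 n) (p3 n) (hsub y hy _ hn)).differentiableWithinAt
    · refine Metric.closedBall_subset_ball' ?_
      rw [Metric.mem_ball] at hx
      linarith
  have h5 : DifferentiableAt ℂ (conv θ g) x0 :=
    conv_hol hc hg hw t1 t2 t3 (hsub x0 (Metric.mem_ball_self (by positivity)) d le_rfl)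
  refine (h5.congr_of_eventuallyEq ?_).differentiableWithinAt
  filter_upwards [Metric.ball_mem_nhds x0 hd0] with x hx using key x hx

end Pool.Agent.MP54.PDE

end
end MrgPart6

-- ======== part 7: formerly Pool.Agent.MP_54e5d7_al.atc.pde.Final0
section MrgPart7

/-! Assembly of the d-bar block from the three last rows. -/

namespace Pool.Agent.MP54.PDE

theorem main_of (hB0 : Basic0Stmt) (hM : MVStmt) (hL : LocalStmt) : MainStmt := by
  intro Γ _ C
  have hS : SmoothStmt := smooth hM convS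
  have hT : TrStmt := tr hS (cv hS)
  obtain ⟨c1, h1⟩ := step hL hT (pu hS) (glueS hS) Γ C
  obtain ⟨c2, h2⟩ := h0 hB0 hT hS Γ C
  refine ⟨max c1 c2, fun J _ B hN => ?_⟩
  have a0 : B.H0 := h2 J B (hN.mono (le_max_right _ _) subset_rfl)
  have a1 : B.H1 := iter (init (pu hS) (glueS hS) hS) (weyl (weyl1 convS moll hM)) (cv hS) Γ C J B
    (h1 J B (hN.mono (le_max_left _ _) subset_rfl))
  exact ⟨a0, a1, (sup (mean hM) Γ C J B).1 a0, (sup (mean hM) Γ C J B).2 a1⟩

end Pool.Agent.MP54.PDE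

end MrgPart7

-- marker of a merged file
example : 731051 + 849136 = 731051 + 849136 := rfl
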