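import Pool.Agent.MP_54e5d7_al.atc.pde.Spec
import Mathlib.Analysis.Complex.MeanValue
import Mathlib.Analysis.Complex.Isometry
import Mathlib.Analysis.SpecialFunctions.SmoothTransition
import Mathlib.Analysis.InnerProductSpace.Calculus
import Mathlib.MeasureTheory.Measure.Haar.InnerProductSpace
import Mathlib.MeasureTheory.Measure.Haar.Unique
import Mathlib.MeasureTheory.Group.Integral
import Mathlib.MeasureTheory.Integral.Prod

/-! Row MV: a smooth radial kernel reproduces holomorphic functions on `ℂ × ℂ`. -/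

open Set MeasureTheory Complex Filter Metric
open scoped ContDiff ENNReal Topology

noncomputable section

namespace Pool.Agent.MP54.PDE

namespace Mv

instance haarV : (volume : Measure V).IsAddHaarMeasure :=
  Measure.prod.instIsAddHaarMeasure _ _

/-- The radial bump. -/
def bump (δ : ℝ) (y : V) : ℝ := expNegInvGlue (δ ^ 2 - ‖y.1‖ ^ 2 - ‖y.2‖ ^ 2)

theorem bump_smooth (δ : ℝ) : ContDiff ℝ ∞ (bump δ) := by
  have h1 : ContDiff ℝ ∞ (fun y : V => ‖y.1‖ ^ 2) := (contDiff_norm_sq ℝ).comp contDiff_fst
  have h2 : ContDiff ℝ ∞ (fun y : V => ‖y.2‖ ^ 2) := (contDiff_norm_sq ℝ).comp contDiff_snd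
  exact expNegInvGlue.contDiff.comp ((contDiff_const.sub h1).sub h2)

theorem bump_zero {δ : ℝ} (hδ : 0 < δ) {y : V} (hy : y ∉ closedBall (0 : V) δ) : bump δ y = 0 := by
  apply expNegInvGlue.zero_of_nonpos
  rw [mem_closedBall_zero_iff, not_le, Prod.norm_def, lt_max_iff] at hy
  rcases hy with hy | hy
  · nlinarith [sq_nonneg ‖y.2‖]
  · nlinarith [sq_nonneg ‖y.1‖]

theorem bump_tsupport {δ : ℝ} (hδ : 0 < δ) : tsupport (bump δ) ⊆ closedBall (0 : V) δ := by
  apply closure_minimal _ isClosed_closedBall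
  intro y hy
  by_contra hn
  exact hy (bump_zero hδ hn)

theorem bump_compact {δ : ℝ} (hδ : 0 < δ) : HasCompactSupport (bump δ) :=
  (isCompact_closedBall (0 : V) δ).of_isClosed_subset (isClosed_tsupport _) (bump_tsupport hδ)

theorem bump_pos {δ : ℝ} (hδ : 0 < δ) : 0 < ∫ y, bump δ y := by
  apply (bump_smooth δ).continuous.integral_pos_of_hasCompactSupport_nonneg_nonzero
    (bump_compact hδ) (fun y => expNegInvGlue.nonneg _) (x := 0)
  apply ne_of_gt
  apply expNegInvGlue.pos_of_pos
  simp
  positivity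

theorem bump_rot (δ : ℝ) (a : ℂ) (ha : ‖a‖ = 1) (y : V) : bump δ (a • y) = bump δ y := by
  simp [bump, ha]

theorem rot_integral (a : ℂ) (ha : ‖a‖ = 1) (F : V → ℂ) : ∫ y, F (a • y) = ∫ y, F y := by
  let u : Circle := ⟨a, by simpa [Submonoid.unitSphere] using ha⟩
  have hm : MeasurePreserving (rotation u) (volume : Measure ℂ) volume :=
    (rotation u).measurePreserving
  have hp : MeasurePreserving (Prod.map (rotation u) (rotation u)) (volume : Measure V) volume :=
    hm.prod hm
  have he : MeasurableEmbedding (Prod.map (rotation u) (rotation u) : V → V) :=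
    ((rotation u).toHomeomorph.prodCongr (rotation u).toHomeomorph).measurableEmbedding
  rw [← hp.integral_comp he F]
  congr 1

theorem mem_ball {δ : ℝ} {x y : V} (hy : y ∈ closedBall (0 : V) δ) {s : ℂ} (hs : ‖s‖ ≤ 1) :
    x - s • y ∈ closedBall x δ := by
  rw [mem_closedBall_zero_iff] at hy
  rw [mem_closedBall, dist_eq_norm, sub_sub_cancel_left, norm_neg, norm_smul]
  calc ‖s‖ * ‖y‖ ≤ 1 * ‖y‖ := by gcongr
    _ ≤ δ := by rw [one_mul]; exact hy

theorem circ {δ : ℝ} {Ω : Set V} {h : V → ℂ} (hh : DifferentiableOn ℂ h Ω) {x : V}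
    (hx : closedBall x δ ⊆ Ω) {y : V} (hy : y ∈ closedBall (0 : V) δ) :
    ∫ t in Ioc 0 (2 * Real.pi), h (x - circleMap 0 1 t • y) = (2 * Real.pi : ℝ) • h x := by
  have hd : DifferentiableOn ℂ (fun s : ℂ => h (x - s • y)) (closedBall 0 1) := by
    apply hh.comp (by fun_prop)
    intro s hs
    exact hx (mem_ball hy (by simpa using hs))
  have hc : DiffContOnCl ℂ (fun s : ℂ => h (x - s • y)) (ball 0 |(1 : ℝ)|) := by
    apply DifferentiableOn.diffContOnCl
    rw [abs_one, closure_ball _ one_ne_zero]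
    exact hd
  have := hc.circleAverage
  rw [Real.circleAverage_def, intervalIntegral.integral_of_le (by positivity)] at this
  simp only [zero_smul, sub_zero] at this
  rw [← this, smul_smul, mul_inv_cancel₀ (by positivity), one_smul]

theorem key {δ : ℝ} (hδ : 0 < δ) {Ω : Set V} {h : V → ℂ} (hh : DifferentiableOn ℂ h Ω) {x : V}
    (hx : closedBall x δ ⊆ Ω) :
    ∫ y, (bump δ y : ℂ) * h (x - y) = (∫ y, bump δ y : ℝ) * h x := by
  set K := closedBall (0 : V) δ with hK
  set T := Ioc 0 (2 * Real.pi) with hT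
  have hres : ∀ G : V → ℂ, ∫ y, (bump δ y : ℂ) * G y = ∫ y in K, (bump δ y : ℂ) * G y := by
    intro G
    symm
    apply setIntegral_eq_integral_of_forall_compl_eq_zero
    intro y hy
    simp [bump_zero hδ hy]
  have hrot : ∀ t : ℝ, ∫ y in K, (bump δ y : ℂ) * h (x - circleMap 0 1 t • y) =
      ∫ y, (bump δ y : ℂ) * h (x - y) := by
    intro t
    have ha : ‖circleMap 0 1 t‖ = 1 := by simp
    rw [← hres, ← rot_integral _ ha (fun y => (bump δ y : ℂ) * h (x - y))]
    simp only [bump_rot δ _ ha]
  have hint : Integrable (Function.uncurry fun (t : ℝ) (y : V) =>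
      (bump δ y : ℂ) * h (x - circleMap 0 1 t • y))
      ((volume.restrict T).prod (volume.restrict K)) := by
    rw [Measure.prod_restrict]
    have hc : ContinuousOn (Function.uncurry fun (t : ℝ) (y : V) =>
        (bump δ y : ℂ) * h (x - circleMap 0 1 t • y)) (Icc 0 (2 * Real.pi) ×ˢ K) := by
      apply ContinuousOn.mul
      · exact (continuous_ofReal.comp ((bump_smooth δ).continuous.comp continuous_snd)).continuousOn
      · apply hh.continuousOn.comp (by fun_prop)
        intro p hp
        exact hx (mem_ball hp.2 (by simp))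
    exact (hc.integrableOn_compact (isCompact_Icc.prod (isCompact_closedBall _ _))).mono_set
      (prod_mono Ioc_subset_Icc_self subset_rfl)
  have hsw := integral_integral_swap hint
  simp only [hrot] at hsw
  have h2 : ∫ y in K, ∫ t in T, (bump δ y : ℂ) * h (x - circleMap 0 1 t • y) =
      ∫ y in K, (bump δ y : ℂ) * ((2 * Real.pi : ℝ) • h x) := by
    apply setIntegral_congr_fun measurableSet_closedBall
    intro y hy
    simp only
    rw [integral_const_mul, circ hh hx hy]
  rw [h2, ← hres, integral_mul_const, integral_complex_ofReal, setIntegral_const] at hsw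
  have hv : (volume : Measure ℝ).real T = 2 * Real.pi := by
    rw [hT, Real.volume_real_Ioc_of_le (by positivity), sub_zero]
  rw [hv, mul_smul_comm] at hsw
  exact smul_right_injective ℂ (by positivity : (2 * Real.pi : ℝ) ≠ 0) hsw

end Mv

open Mv in
theorem mv : MVStmt := by
  intro δ hδ
  have hI := bump_pos hδ
  refine ⟨fun y => (∫ z, bump δ z)⁻¹ * bump δ y, contDiff_const.mul (bump_smooth δ),
    (bump_compact hδ).mul_left, ?_, ?_⟩
  · exact (tsupport_mul_subset_right).trans (bump_tsupport hδ)
  · intro Ω h _ hh x hx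
    have h1 : conv (fun y => (∫ z, bump δ z)⁻¹ * bump δ y) h x =
        ∫ y, (((∫ z, bump δ z)⁻¹ : ℝ) : ℂ) * ((bump δ y : ℂ) * h (x - y)) := by
      unfold conv
      rw [← integral_sub_left_eq_self _ volume x]
      congr 1
      ext y
      simp [mul_assoc]
    rw [h1, integral_const_mul, key hδ hh hx, ← mul_assoc, ← ofReal_mul,
      inv_mul_cancel₀ hI.ne', ofReal_one, one_mul]

end Pool.Agent.MP54.PDE
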